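import Pool.Agent.Q132.PT.Long
import Pool.Agent.Q132.PC.PisAdm

/-!
Cones and contraction for matrices with a long letter.
-/

set_option autoImplicit false

namespace Pool.Agent.Q132.PT
open Pool.Agent.H812R2.PI
open scoped BigOperators
variable {m : ℕ}

/-- the cone of the row vectors -/
def InC (r g : Fin (m+1) → ℝ) : Prop := 0 < g 0 ∧ ∀ j, 0 ≤ g j ∧ g j ≤ r j * g 0

/-- row vector times matrix -/
noncomputable def row (M : Matrix (Fin (m+1)) (Fin (m+1)) ℤ) (g : Fin (m+1) → ℝ) :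
    Fin (m+1) → ℝ := fun j => ∑ i, g i * (M i j : ℝ)

/-- weighted norm of the short letters -/
noncomputable def nw (w x : Fin (m+1) → ℝ) : ℝ := ∑ k, w k * |x k|

/-- cone and contraction -/
structure Cp (r w : Fin (m+1) → ℝ) (κ : ℝ) (M : Matrix (Fin (m+1)) (Fin (m+1)) ℤ) : Prop where
  cone : ∀ g, InC r g → g 0 ≤ row M g 0 ∧ InC r (row M g)
  con : ∀ g, InC r g → ∀ x, ∑ j, row M g j * x j = 0 → nw w (act M x) ≤ κ * nw w x

theorem row_dual (M : Matrix (Fin (m+1)) (Fin (m+1)) ℤ) (g x : Fin (m+1) → ℝ) :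
    ∑ j, row M g j * x j = ∑ i, g i * act M x i := by
  unfold row act
  calc ∑ j, (∑ i, g i * (M i j : ℝ)) * x j = ∑ j, ∑ i, g i * ((M i j : ℝ) * x j) := by
        refine Finset.sum_congr rfl fun j _ => ?_
        rw [Finset.sum_mul]; exact Finset.sum_congr rfl fun i _ => by ring
    _ = ∑ i, ∑ j, g i * ((M i j : ℝ) * x j) := Finset.sum_comm
    _ = _ := by
        refine Finset.sum_congr rfl fun i _ => ?_
        rw [Finset.mul_sum]

theorem row_mul (A B : Matrix (Fin (m+1)) (Fin (m+1)) ℤ) (g : Fin (m+1) → ℝ) :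
    row (A * B) g = row B (row A g) := by
  funext j
  unfold row
  have h1 : ∀ i, g i * (((A * B) i j : ℤ) : ℝ) = ∑ k, g i * ((A i k : ℝ) * (B k j : ℝ)) := by
    intro i
    rw [Matrix.mul_apply]
    push_cast
    rw [Finset.mul_sum]
  rw [Finset.sum_congr rfl fun i _ => h1 i, Finset.sum_comm]
  refine Finset.sum_congr rfl fun k _ => ?_
  rw [Finset.sum_mul]
  exact Finset.sum_congr rfl fun i _ => by ring

theorem nw_nonneg {r w : Fin (m+1) → ℝ} (hrw : Wts r w) (x : Fin (m+1) → ℝ) : 0 ≤ nw w x :=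
  Finset.sum_nonneg fun k _ => mul_nonneg (hrw.wn k) (abs_nonneg _)

theorem Cp.mul {r w : Fin (m+1) → ℝ} {κ κ' : ℝ} {A B : Matrix (Fin (m+1)) (Fin (m+1)) ℤ}
    (hA : Cp r w κ A) (hB : Cp r w κ' B) (hκ : 0 ≤ κ) : Cp r w (κ * κ') (A * B) := by
  refine ⟨fun g hg => ?_, fun g hg x hx => ?_⟩
  · obtain ⟨h1, h2⟩ := hA.cone g hg
    obtain ⟨h3, h4⟩ := hB.cone _ h2
    rw [row_mul]
    exact ⟨h1.trans h3, h4⟩
  · rw [row_mul] at hx
    obtain ⟨h1, h2⟩ := hA.cone g hg
    have h3 := hB.con _ h2 x hx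
    rw [row_dual] at hx
    have h4 := hA.con g hg (act B x) hx
    rw [FOff_act_mul]
    refine h4.trans ?_
    have h5 := mul_le_mul_of_nonneg_left h3 hκ
    linarith

theorem Cp.of_long {r w : Fin (m+1) → ℝ} (hrw : Wts r w) {η : ℝ}
    {M : Matrix (Fin (m+1)) (Fin (m+1)) ℤ} (hnn : ∀ i j, 0 ≤ M i j) (h : Long r w η M)
    (h00 : 1 ≤ M 0 0) : Cp r w η M := by
  have hn : ∀ i j, (0:ℝ) ≤ (M i j : ℝ) := fun i j => by exact_mod_cast hnn i j
  have h00' : (1:ℝ) ≤ (M 0 0 : ℝ) := by exact_mod_cast h00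
  have hcone : ∀ g, InC r g → g 0 ≤ row M g 0 ∧ InC r (row M g) := by
    intro g hg
    obtain ⟨h0, hr⟩ := hg
    have hge : g 0 * (M 0 0 : ℝ) ≤ row M g 0 :=
      Finset.single_le_sum (f := fun k => g k * (M k 0 : ℝ))
        (fun k _ => mul_nonneg (hr k).1 (hn k 0)) (Finset.mem_univ 0)
    have hge' : g 0 ≤ row M g 0 := by nlinarith
    refine ⟨hge', lt_of_lt_of_le h0 hge', fun j => ⟨?_, ?_⟩⟩
    · exact Finset.sum_nonneg fun k _ => mul_nonneg (hr k).1 (hn k j)
    · by_cases hj : j = 0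
      · rw [hj, hrw.r0, one_mul]
      · calc row M g j ≤ ∑ k, (r k * g 0) * (M k j : ℝ) :=
              Finset.sum_le_sum fun k _ => mul_le_mul_of_nonneg_right (hr k).2 (hn k j)
          _ = g 0 * ∑ k, r k * (M k j : ℝ) := by
              rw [Finset.mul_sum]; exact Finset.sum_congr rfl fun k _ => by ring
          _ ≤ g 0 * (r j * (M 0 0 : ℝ)) := mul_le_mul_of_nonneg_left (h.ratio j hj) h0.le
          _ = r j * (g 0 * (M 0 0 : ℝ)) := by ring
          _ ≤ _ := mul_le_mul_of_nonneg_left hge (hrw.rp j).le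
  refine ⟨hcone, fun g hg x hx => ?_⟩
  obtain ⟨-, hG0, hGr⟩ := hcone g hg
  obtain ⟨G, hG⟩ : ∃ G, G = row M g := ⟨_, rfl⟩
  rw [← hG] at hG0 hGr hx
  -- the coordinate of the long letter
  have hx0 : |x 0| ≤ ∑ j ∈ Finset.univ.erase 0, r j * |x j| := by
    rw [← Finset.add_sum_erase Finset.univ _ (Finset.mem_univ (0 : Fin (m+1)))] at hx
    have h1 : G 0 * x 0 = - ∑ j ∈ Finset.univ.erase 0, G j * x j := by linarith
    have h2 : G 0 * |x 0| ≤ G 0 * ∑ j ∈ Finset.univ.erase 0, r j * |x j| := by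
      calc G 0 * |x 0| = |G 0 * x 0| := by rw [abs_mul, abs_of_pos hG0]
        _ = |∑ j ∈ Finset.univ.erase 0, G j * x j| := by rw [h1, abs_neg]
        _ ≤ ∑ j ∈ Finset.univ.erase 0, |G j * x j| := Finset.abs_sum_le_sum_abs _ _
        _ ≤ ∑ j ∈ Finset.univ.erase 0, (r j * G 0) * |x j| := by
            refine Finset.sum_le_sum fun j _ => ?_
            rw [abs_mul, abs_of_nonneg (hGr j).1]
            exact mul_le_mul_of_nonneg_right (hGr j).2 (abs_nonneg _)
        _ = _ := by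
            rw [Finset.mul_sum]; exact Finset.sum_congr rfl fun j _ => by ring
    exact le_of_mul_le_mul_left h2 hG0
  have hcoord : ∀ k, |act M x k| ≤
      ∑ j ∈ Finset.univ.erase 0, ((M k j : ℝ) + r j * (M k 0 : ℝ)) * |x j| := by
    intro k
    unfold act
    rw [← Finset.add_sum_erase Finset.univ _ (Finset.mem_univ (0 : Fin (m+1)))]
    calc |(M k 0 : ℝ) * x 0 + ∑ j ∈ Finset.univ.erase 0, (M k j : ℝ) * x j|
        ≤ |(M k 0 : ℝ) * x 0| + |∑ j ∈ Finset.univ.erase 0, (M k j : ℝ) * x j| := abs_add_le _ _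
      _ ≤ (M k 0 : ℝ) * |x 0| + ∑ j ∈ Finset.univ.erase 0, (M k j : ℝ) * |x j| := by
          refine add_le_add ?_ ?_
          · rw [abs_mul, abs_of_nonneg (hn k 0)]
          · refine (Finset.abs_sum_le_sum_abs _ _).trans (Finset.sum_le_sum fun j _ => ?_)
            rw [abs_mul, abs_of_nonneg (hn k j)]
      _ ≤ (M k 0 : ℝ) * (∑ j ∈ Finset.univ.erase 0, r j * |x j|) +
            ∑ j ∈ Finset.univ.erase 0, (M k j : ℝ) * |x j| := by
          have := mul_le_mul_of_nonneg_left hx0 (hn k 0)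
          linarith
      _ = _ := by
          rw [Finset.mul_sum, ← Finset.sum_add_distrib]
          exact Finset.sum_congr rfl fun j _ => by ring
  unfold nw
  calc ∑ k, w k * |act M x k|
      ≤ ∑ k, w k * ∑ j ∈ Finset.univ.erase 0, ((M k j : ℝ) + r j * (M k 0 : ℝ)) * |x j| :=
        Finset.sum_le_sum fun k _ => mul_le_mul_of_nonneg_left (hcoord k) (hrw.wn k)
    _ = ∑ k, ∑ j ∈ Finset.univ.erase 0, w k * (((M k j : ℝ) + r j * (M k 0 : ℝ)) * |x j|) :=
        Finset.sum_congr rfl fun k _ => by rw [Finset.mul_sum]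
    _ = ∑ j ∈ Finset.univ.erase 0, ∑ k, w k * (((M k j : ℝ) + r j * (M k 0 : ℝ)) * |x j|) :=
        Finset.sum_comm
    _ = ∑ j ∈ Finset.univ.erase 0, (∑ k, w k * ((M k j : ℝ) + r j * (M k 0 : ℝ))) * |x j| := by
        refine Finset.sum_congr rfl fun j _ => ?_
        rw [Finset.sum_mul]; exact Finset.sum_congr rfl fun k _ => by ring
    _ ≤ ∑ j ∈ Finset.univ.erase 0, (η * w j) * |x j| :=
        Finset.sum_le_sum fun j hj =>
          mul_le_mul_of_nonneg_right (h.contr j (Finset.ne_of_mem_erase hj)) (abs_nonneg _)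
    _ = η * ∑ j, w j * |x j| := by
        rw [← Finset.add_sum_erase Finset.univ (fun j => w j * |x j|)
          (Finset.mem_univ (0 : Fin (m+1))), hrw.w0, zero_mul, zero_add, Finset.mul_sum]
        exact Finset.sum_congr rfl fun j _ => by ring

/-- one factor, for the projective action on the row vectors -/
theorem proj_con {r w : Fin (m+1) → ℝ} (hrw : Wts r w) {κ : ℝ} (hκ : 0 ≤ κ)
    {M : Matrix (Fin (m+1)) (Fin (m+1)) ℤ} (h : Cp r w κ M) (g g' : Fin (m+1) → ℝ)
    (hg : InC r g) (hg' : InC r g') (h0 : g 0 = 1) (h0' : g' 0 = 1) (D : ℝ) (hD0 : 0 ≤ D)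
    (hD : ∀ k, |g k - g' k| ≤ D * w k) (j : Fin (m+1)) (hj : j ≠ 0) :
    |row M g j / row M g 0 - row M g' j / row M g' 0| ≤ κ * D * w j := by
  obtain ⟨h1, h2⟩ := h.cone g hg
  obtain ⟨h1', h2'⟩ := h.cone g' hg'
  rw [h0] at h1
  rw [h0'] at h1'
  obtain ⟨t, ht⟩ : ∃ t, t = row M g' j / row M g' 0 := ⟨_, rfl⟩
  have hG0 : 0 < row M g 0 := by linarith
  have hG0' : 0 < row M g' 0 := by linarith
  -- the test vector
  obtain ⟨x, hx⟩ : ∃ x : Fin (m+1) → ℝ, x = fun k => (if k = j then 1 else 0) -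
    t * (if k = 0 then 1 else 0) := ⟨_, rfl⟩
  have hrow : ∀ G : Fin (m+1) → ℝ, ∑ k, G k * x k = G j - t * G 0 := by
    intro G
    rw [hx]
    simp only [mul_sub, Finset.sum_sub_distrib]
    simp
    ring
  have hker : ∑ k, row M g' k * x k = 0 := by
    rw [hrow, ht, div_mul_cancel₀ _ hG0'.ne', sub_self]
  have hc := h.con g' hg' x hker
  have hnx : nw w x = w j := by
    unfold nw
    have h3 : ∀ k, w k * |x k| = if k = j then w k else 0 := by
      intro k
      rw [hx]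
      by_cases hk : k = j
      · have hk0 : ¬ k = 0 := fun h => hj (hk.symm.trans h)
        simp only [if_pos hk, if_neg hk0, mul_zero, sub_zero, abs_one, mul_one]
      · by_cases hk0 : k = 0
        · rw [hk0, hrw.w0]
          simp
        · simp only [if_neg hk, if_neg hk0, mul_zero, sub_zero, abs_zero]
    rw [Finset.sum_congr rfl fun k _ => h3 k]
    simp
  rw [hnx] at hc
  have hdiff : row M g j / row M g 0 - t = (∑ k, (g k - g' k) * act M x k) / row M g 0 := by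
    have h3 : ∑ k, (g k - g' k) * act M x k =
        (row M g j - t * row M g 0) - (row M g' j - t * row M g' 0) := by
      rw [← hrow (row M g), ← hrow (row M g'), row_dual, row_dual, ← Finset.sum_sub_distrib]
      exact Finset.sum_congr rfl fun k _ => by ring
    have h4 : row M g' j - t * row M g' 0 = 0 := by
      rw [ht, div_mul_cancel₀ _ hG0'.ne', sub_self]
    rw [h3, h4, sub_zero, sub_div, mul_div_cancel_right₀ _ hG0.ne']
  rw [← ht, hdiff, abs_div, abs_of_pos hG0, div_le_iff₀ hG0]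
  have h5 : |∑ k, (g k - g' k) * act M x k| ≤ D * nw w (act M x) := by
    unfold nw
    refine (Finset.abs_sum_le_sum_abs _ _).trans ?_
    rw [Finset.mul_sum]
    refine Finset.sum_le_sum fun k _ => ?_
    rw [abs_mul]
    have := mul_le_mul_of_nonneg_right (hD k) (abs_nonneg (act M x k))
    linarith
  have h6 := mul_le_mul_of_nonneg_left hc hD0
  have h7 : 0 ≤ κ * D * w j := mul_nonneg (mul_nonneg hκ hD0) (hrw.wn j)
  nlinarith

/-- the left eigenvector -/
theorem exists_ell {r w : Fin (m+1) → ℝ} (hrw : Wts r w) {κ : ℝ} (hκ : 0 ≤ κ) (hκ1 : κ < 1)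
    {M : Matrix (Fin (m+1)) (Fin (m+1)) ℤ} (h : Cp r w κ M) :
    ∃ (ell : Fin (m+1) → ℝ) (lam : ℝ), InC r ell ∧ ell 0 = 1 ∧ 1 ≤ lam ∧
      ∀ j, row M ell j = lam * ell j := by
  obtain ⟨gg, hgg⟩ : ∃ gg : (Fin (m+1) → ℝ) → Fin (m+1) → ℝ,
    gg = fun z j => if j = 0 then 1 else w j * z j := ⟨_, rfl⟩
  obtain ⟨T, hT⟩ : ∃ T : (Fin (m+1) → ℝ) → Fin (m+1) → ℝ,
    T = fun z j => if j = 0 then 0 else row M (gg z) j / row M (gg z) 0 / w j := ⟨_, rfl⟩
  obtain ⟨s, hs⟩ : ∃ s : Set (Fin (m+1) → ℝ),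
    s = {z | z 0 = 0 ∧ ∀ j, 0 ≤ w j * z j ∧ w j * z j ≤ r j} := ⟨_, rfl⟩
  have hgg0 : ∀ z, gg z 0 = 1 := fun z => by rw [hgg]; simp
  have hgC : ∀ z ∈ s, InC r (gg z) := by
    intro z hz
    rw [hs] at hz
    refine ⟨by rw [hgg0]; exact one_pos, fun j => ?_⟩
    rw [hgg0, mul_one]
    by_cases hj : j = 0
    · rw [hj, hgg0, hrw.r0]; norm_num
    · rw [hgg]
      simp only [if_neg hj]
      exact hz.2 j
  have hclosed : IsClosed s := by
    have h1 : s = {z | z 0 = 0} ∩ ⋂ j, ({z | 0 ≤ w j * z j} ∩ {z | w j * z j ≤ r j}) := by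
      rw [hs]
      ext z
      simp only [Set.mem_setOf_eq, Set.mem_inter_iff, Set.mem_iInter]
    rw [h1]
    refine IsClosed.inter (isClosed_eq (continuous_apply 0) continuous_const)
      (isClosed_iInter fun j => IsClosed.inter ?_ ?_)
    · exact isClosed_le continuous_const (continuous_const.mul (continuous_apply j))
    · exact isClosed_le (continuous_const.mul (continuous_apply j)) continuous_const
  have hmaps : Set.MapsTo T s s := by
    intro z hz
    obtain ⟨h1, h2⟩ := h.cone _ (hgC z hz)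
    rw [hs]
    refine ⟨by rw [hT]; simp, fun j => ?_⟩
    by_cases hj : j = 0
    · rw [hj, hrw.w0, zero_mul, hrw.r0]; norm_num
    · rw [hT]
      simp only [if_neg hj]
      rw [mul_div_cancel₀ _ (hrw.wpos j hj).ne']
      exact ⟨div_nonneg (h2.2 j).1 h2.1.le, (div_le_iff₀ h2.1).2 (h2.2 j).2⟩
  have hlip : ∀ z ∈ s, ∀ z' ∈ s, dist (T z) (T z') ≤ κ * dist z z' := by
    intro z hz z' hz'
    rw [dist_pi_le_iff (mul_nonneg hκ dist_nonneg)]
    intro j
    by_cases hj : j = 0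
    · rw [hT]
      simp only [if_pos hj, dist_self]
      exact mul_nonneg hκ dist_nonneg
    · have h3 := proj_con hrw hκ h (gg z) (gg z') (hgC z hz) (hgC z' hz') (hgg0 z) (hgg0 z')
        (dist z z') dist_nonneg (fun k => by
          by_cases hk : k = 0
          · rw [hk, hgg0, hgg0, sub_self, abs_zero, hrw.w0, mul_zero]
          · rw [hgg]
            simp only [if_neg hk]
            rw [← mul_sub, abs_mul, abs_of_pos (hrw.wpos k hk), mul_comm]
            refine mul_le_mul_of_nonneg_right ?_ (hrw.wpos k hk).le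
            rw [← Real.dist_eq]
            exact dist_le_pi_dist z z' k) j hj
      rw [Real.dist_eq, hT]
      simp only [if_neg hj]
      rw [← sub_div, abs_div, abs_of_pos (hrw.wpos j hj), div_le_iff₀ (hrw.wpos j hj)]
      exact h3
  obtain ⟨K, hK⟩ : ∃ K : NNReal, (K : ℝ) = κ := ⟨⟨κ, hκ⟩, rfl⟩
  have hcontr : ContractingWith K (hmaps.restrict T s s) := by
    refine ⟨by rw [← NNReal.coe_lt_coe, hK]; exact_mod_cast hκ1, LipschitzWith.of_dist_le_mul ?_⟩
    rintro ⟨z, hz⟩ ⟨z', hz'⟩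
    rw [hK]
    exact hlip z hz z' hz'
  have h0s : (0 : Fin (m+1) → ℝ) ∈ s := by
    rw [hs]
    refine ⟨rfl, fun j => ?_⟩
    simp only [Pi.zero_apply, mul_zero]
    exact ⟨le_rfl, (hrw.rp j).le⟩
  obtain ⟨z, hz, hfix, -, -⟩ := hcontr.exists_fixedPoint' hclosed.isComplete hmaps h0s
    (edist_ne_top _ _)
  have hzC := hgC z hz
  obtain ⟨h1, h2⟩ := h.cone _ hzC
  rw [hgg0] at h1
  refine ⟨gg z, row M (gg z) 0, hzC, hgg0 z, h1, fun j => ?_⟩
  by_cases hj : j = 0
  · rw [hj, hgg0, mul_one]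
  · have h3 : T z j = z j := congrFun hfix j
    have h4 : gg z j = w j * z j := by rw [hgg]; simp only [if_neg hj]
    rw [h4, ← h3, hT]
    simp only [if_neg hj]
    rw [mul_div_cancel₀ _ (hrw.wpos j hj).ne', mul_div_cancel₀ _ h2.1.ne']

end Pool.Agent.Q132.PT
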