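import Pool.Agent.H812R2.PI.JComp

/-!
The cost of a transposition of two letters.
-/

set_option autoImplicit false

namespace Pool.Agent.Q132.PT
open Pool.Agent.H812R2.PI
open scoped BigOperators
variable {d : ℕ}

/-- the edges of the path of a word -/
def E (u : List (Fin d)) : Finset ((Fin d → ℤ) × Fin d) := (edges 0 u).toFinset

/-- number of the edges of the path of `u` which are no edges of the path of `v` -/
def dif (u v : List (Fin d)) : ℕ := (E u \ E v).card

theorem dif_self (u : List (Fin d)) : dif u u = 0 := by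
  unfold dif
  rw [sdiff_self]
  rfl

theorem dif_tri (u v w : List (Fin d)) : dif u w ≤ dif u v + dif v w := by
  unfold dif
  refine le_trans (Finset.card_le_card ?_) (Finset.card_union_le _ _)
  intro x hx
  rw [Finset.mem_sdiff] at hx
  rw [Finset.mem_union, Finset.mem_sdiff, Finset.mem_sdiff]
  by_cases h : x ∈ E v
  · exact Or.inr ⟨h, hx.2⟩
  · exact Or.inl ⟨hx.1, h⟩

/-- translation of an edge -/
def tr (t : Fin d → ℤ) (e : (Fin d → ℤ) × Fin d) : (Fin d → ℤ) × Fin d := (e.1 + t, e.2)

theorem tr_inj (t : Fin d → ℤ) {e f : (Fin d → ℤ) × Fin d} (h : tr t e = tr t f) : e = f := by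
  unfold tr at h
  rw [Prod.mk.injEq] at h
  exact Prod.ext (add_right_cancel h.1) h.2

theorem mem_E_append (p u : List (Fin d)) (e : (Fin d → ℤ) × Fin d) :
    e ∈ E (p ++ u) ↔ e ∈ E p ∨ ∃ f ∈ E u, e = tr (ab p) f := by
  unfold E
  rw [List.mem_toFinset, edges_append, List.mem_append, edges_translate, List.mem_toFinset]
  constructor
  · rintro (h | h)
    · exact Or.inl h
    · obtain ⟨f, hf, rfl⟩ := List.mem_map.1 h
      exact Or.inr ⟨f, List.mem_toFinset.2 hf, rfl⟩
  · rintro (h | ⟨f, hf, rfl⟩)
    · exact Or.inl h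
    · exact Or.inr (List.mem_map.2 ⟨f, List.mem_toFinset.1 hf, rfl⟩)

theorem dif_prefix (p u v : List (Fin d)) : dif (p ++ u) (p ++ v) ≤ dif u v := by
  unfold dif
  refine le_trans (Finset.card_le_card (t := (E u \ E v).image (tr (ab p))) ?_)
    Finset.card_image_le
  intro x hx
  rw [Finset.mem_sdiff, mem_E_append, mem_E_append] at hx
  obtain ⟨h1, h2⟩ := hx
  push Not at h2
  rcases h1 with h1 | ⟨f, hf, rfl⟩
  · exact absurd h1 h2.1
  · rw [Finset.mem_image]
    refine ⟨f, ?_, rfl⟩
    rw [Finset.mem_sdiff]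
    exact ⟨hf, fun h => h2.2 f h rfl⟩

theorem dif_suffix (u v s : List (Fin d)) (h : ab u = ab v) : dif (u ++ s) (v ++ s) ≤ dif u v := by
  unfold dif
  refine Finset.card_le_card ?_
  intro x hx
  rw [Finset.mem_sdiff, mem_E_append, mem_E_append] at hx
  obtain ⟨h1, h2⟩ := hx
  push Not at h2
  rcases h1 with h1 | ⟨f, hf, rfl⟩
  · rw [Finset.mem_sdiff]
    exact ⟨h1, h2.1⟩
  · exact absurd (by rw [h]) (h2.2 f hf)

/-- the cost of replacing `u` by `v` after the substitution `S` -/
def dS (S : Fin d → List (Fin d)) (u v : List (Fin d)) : ℕ := dif (ext S u) (ext S v)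

/-- the cost of a transposition -/
def cst (S : Fin d → List (Fin d)) (x y : Fin d) : ℕ := dS S [x, y] [y, x]

theorem dS_self (S : Fin d → List (Fin d)) (u : List (Fin d)) : dS S u u = 0 := dif_self _

theorem cst_self (S : Fin d → List (Fin d)) (x : Fin d) : cst S x x = 0 := dif_self _

theorem dS_tri (S : Fin d → List (Fin d)) (u v w : List (Fin d)) :
    dS S u w ≤ dS S u v + dS S v w := dif_tri _ _ _

theorem dS_prefix (S : Fin d → List (Fin d)) (p u v : List (Fin d)) :
    dS S (p ++ u) (p ++ v) ≤ dS S u v := by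
  unfold dS
  rw [ext_append, ext_append]
  exact dif_prefix _ _ _

theorem dS_cons (S : Fin d → List (Fin d)) (x : Fin d) (u v : List (Fin d)) :
    dS S (x :: u) (x :: v) ≤ dS S u v := dS_prefix S [x] u v

theorem dS_suffix (S : Fin d → List (Fin d)) (u v s : List (Fin d)) (h : ab u = ab v) :
    dS S (u ++ s) (v ++ s) ≤ dS S u v := by
  unfold dS
  rw [ext_append, ext_append]
  exact dif_suffix _ _ _ (by rw [ab_ext, ab_ext, h])

theorem ab_swap (x y : Fin d) : ab [x, y] = ab [y, x] := by
  rw [ab_cons, ab_cons, ab_cons, ab_cons, ab_nil, add_zero, add_zero, add_comm]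

theorem dS_swap_head (S : Fin d → List (Fin d)) (x y : Fin d) (l : List (Fin d)) :
    dS S (x :: y :: l) (y :: x :: l) ≤ cst S x y :=
  dS_suffix S [x, y] [y, x] l (ab_swap x y)

theorem dS_move (S : Fin d → List (Fin d)) (x : Fin d) (v : List (Fin d)) :
    dS S (x :: v) (v ++ [x]) ≤ (v.map (cst S x)).sum := by
  induction v with
  | nil => rw [List.nil_append, dS_self]; exact Nat.zero_le _
  | cons y v ih =>
    rw [List.map_cons, List.sum_cons]
    refine (dS_tri S _ (y :: x :: v) _).trans (Nat.add_le_add (dS_swap_head S x y v) ?_)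
    exact (dS_cons S y (x :: v) (v ++ [x])).trans ih

theorem ab_move (x : Fin d) (v : List (Fin d)) : ab (x :: v) = ab (v ++ [x]) := by
  rw [ab_cons, ab_append, ab_single, add_comm]

theorem dS_blocks (S : Fin d → List (Fin d)) (u v : List (Fin d)) :
    dS S (u ++ v) (v ++ u) ≤ (u.map fun x => (v.map (cst S x)).sum).sum := by
  induction u with
  | nil => rw [List.nil_append, List.append_nil, dS_self]; exact Nat.zero_le _
  | cons x u ih =>
    rw [List.map_cons, List.sum_cons, List.cons_append]
    refine (dS_tri S _ (x :: (v ++ u)) _).trans ?_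
    rw [add_comm]
    refine Nat.add_le_add ?_ ((dS_cons S x _ _).trans ih)
    have h1 : v ++ x :: u = (v ++ [x]) ++ u := by simp
    rw [h1]
    exact (dS_suffix S (x :: v) (v ++ [x]) u (ab_move x v)).trans (dS_move S x v)

/-- the cost of a transposition before one more substitution -/
theorem cst_comp (S τ : Fin d → List (Fin d)) (i j : Fin d) :
    cst (comp S τ) i j ≤ ((τ i).map fun x => ((τ j).map (cst S x)).sum).sum := by
  have h : cst (comp S τ) i j = dS S (τ i ++ τ j) (τ j ++ τ i) := by
    unfold cst dS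
    rw [ext_comp, ext_comp]
    simp [ext]
  rw [h]
  exact dS_blocks S _ _

/-- words with the same letters -/
theorem perm_cost {u v : List (Fin d)} (h : u.Perm v) :
    ∃ C : ℕ, ∀ (S : Fin d → List (Fin d)) (K : ℕ), (∀ x y, cst S x y ≤ K) → dS S u v ≤ C * K := by
  induction h with
  | nil => exact ⟨0, fun S K _ => by rw [dS_self]; exact Nat.zero_le _⟩
  | cons x _ ih =>
    obtain ⟨C, hC⟩ := ih
    exact ⟨C, fun S K hK => (dS_cons S x _ _).trans (hC S K hK)⟩
  | swap x y l =>
    refine ⟨1, fun S K hK => ?_⟩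
    rw [one_mul]
    exact (dS_swap_head S y x l).trans (hK y x)
  | @trans l1 l2 l3 _ _ ih1 ih2 =>
    obtain ⟨C1, hC1⟩ := ih1
    obtain ⟨C2, hC2⟩ := ih2
    refine ⟨C1 + C2, fun S K hK => (dS_tri S l1 l2 l3).trans ?_⟩
    rw [add_mul]
    exact Nat.add_le_add (hC1 S K hK) (hC2 S K hK)

theorem count_sum (w : List (Fin d)) (f : Fin d → ℝ) :
    (w.map f).sum = ∑ k, (w.count k : ℝ) * f k := by
  induction w with
  | nil => simp
  | cons a w ih =>
    rw [List.map_cons, List.sum_cons, ih]
    have h1 : ∀ k, ((a :: w).count k : ℝ) * f k = (w.count k : ℝ) * f k + if k = a then f k else 0 := by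
      intro k
      rw [List.count_cons]
      by_cases hk : k = a
      · subst hk; simp; ring
      · have : ¬ (a == k) = true := by simpa using fun h => hk h.symm
        simp [hk, this]
    rw [Finset.sum_congr rfl fun k _ => h1 k, Finset.sum_add_distrib]
    simp
    ring

/-- the cost of a transposition before one more substitution, by the incidence matrix -/
theorem cst_comp_real (S τ : Fin d → List (Fin d)) (i j : Fin d) :
    (cst (comp S τ) i j : ℝ) ≤
      ∑ k, ∑ l, (inc τ k i : ℝ) * (inc τ l j : ℝ) * (cst S k l : ℝ) := by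
  have h1 : (cst (comp S τ) i j : ℝ) ≤
      (((τ i).map fun x => ((τ j).map (cst S x)).sum).sum : ℕ) := by
    exact_mod_cast cst_comp S τ i j
  refine h1.trans (le_of_eq ?_)
  have h2 : ((((τ i).map fun x => ((τ j).map (cst S x)).sum).sum : ℕ) : ℝ) =
      ((τ i).map fun x => ((τ j).map fun y => (cst S x y : ℝ)).sum).sum := by
    rw [Nat.cast_list_sum, List.map_map]
    congr 1
    refine List.map_congr_left fun x _ => ?_
    simp only [Function.comp_apply]
    rw [Nat.cast_list_sum, List.map_map]
    rfl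
  rw [h2, count_sum]
  refine Finset.sum_congr rfl fun k _ => ?_
  rw [count_sum, Finset.mul_sum]
  refine Finset.sum_congr rfl fun l _ => ?_
  unfold inc
  push_cast
  ring

end Pool.Agent.Q132.PT
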