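import Pool.Agent.Q132.PT.Small

/-!
Criteria on the incidence matrices.
-/

set_option autoImplicit false

namespace Pool.Agent.Q132.PT
open Pool.Agent.H812R2.PI
open scoped BigOperators
variable {d : ℕ}

theorem compList_snoc (l : List (Fin d → List (Fin d))) (τ : Fin d → List (Fin d)) :
    compList (l ++ [τ]) = comp (compList l) τ := by
  rw [compList_append]
  congr 1
  funext a
  simp [compList, comp, ext]

/-- a positive left eigenvector belongs to the leading eigenvalue -/
theorem lam_unique {M : Matrix (Fin d) (Fin d) ℤ} (P : PD M) (lam : ℝ) (ell : Fin d → ℝ)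
    (hpos : ∀ i, 0 < ell i) (h : ∀ j, ∑ i, ell i * (M i j : ℝ) = lam * ell j) : lam = P.lam := by
  have hne := SRec_nonempty P
  have h0 : 0 < ∑ i, ell i * P.u i :=
    Finset.sum_pos (fun i _ => mul_pos (hpos i) (P.u_pos i)) Finset.univ_nonempty
  have h1 : lam * ∑ i, ell i * P.u i = P.lam * ∑ i, ell i * P.u i := by
    calc lam * ∑ i, ell i * P.u i = ∑ j, (lam * ell j) * P.u j := by
          rw [Finset.mul_sum]; exact Finset.sum_congr rfl fun i _ => by ring
      _ = ∑ j, (∑ i, ell i * (M i j : ℝ)) * P.u j :=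
          Finset.sum_congr rfl fun j _ => by rw [h j]
      _ = ∑ j, ∑ i, ell i * ((M i j : ℝ) * P.u j) := by
          refine Finset.sum_congr rfl fun j _ => ?_
          rw [Finset.sum_mul]; exact Finset.sum_congr rfl fun i _ => by ring
      _ = ∑ i, ∑ j, ell i * ((M i j : ℝ) * P.u j) := Finset.sum_comm
      _ = ∑ i, ell i * (P.lam * P.u i) := by
          refine Finset.sum_congr rfl fun i _ => ?_
          rw [← P.M_u i, Finset.mul_sum]
      _ = P.lam * ∑ i, ell i * P.u i := by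
          rw [Finset.mul_sum]; exact Finset.sum_congr rfl fun i _ => by ring
  exact mul_right_cancel₀ h0.ne' h1

/-- the costs for a list, with weights -/
theorem cst_list (X : Fin d → Fin d → ℝ) (hX0 : ∀ i, X i i = 0) (hX : ∀ i j, i ≠ j → 0 < X i j)
    (θ : (Fin d → List (Fin d)) → ℝ) :
    ∃ C : ℝ, 0 ≤ C ∧ ∀ l : List (Fin d → List (Fin d)), (∀ τ ∈ l, 0 ≤ θ τ ∧ ∀ i j, i ≠ j →
      ∑ k, ∑ k', (inc τ k i : ℝ) * (inc τ k' j : ℝ) * X k k' ≤ θ τ * X i j) →
      ∀ i j, (cst (compList l) i j : ℝ) ≤ C * (l.map θ).prod * X i j := by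
  have hXn : ∀ i j, 0 ≤ X i j := by
    intro i j
    by_cases h : i = j
    · rw [h, hX0]
    · exact (hX i j h).le
  refine ⟨∑ i, ∑ j, (cst (compList ([] : List (Fin d → List (Fin d)))) i j : ℝ) / X i j,
    Finset.sum_nonneg fun i _ => Finset.sum_nonneg fun j _ =>
      div_nonneg (Nat.cast_nonneg _) (hXn i j), fun l => ?_⟩
  induction l using List.reverseRecOn with
  | nil =>
    intro _ i j
    by_cases h : i = j
    · rw [h, cst_self, hX0]; simp
    · rw [List.map_nil, List.prod_nil, mul_one]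
      have h1 : (cst (compList ([] : List (Fin d → List (Fin d)))) i j : ℝ) / X i j ≤
          ∑ i, ∑ j, (cst (compList ([] : List (Fin d → List (Fin d)))) i j : ℝ) / X i j := by
        refine le_trans (Finset.single_le_sum (f := fun j =>
          (cst (compList ([] : List (Fin d → List (Fin d)))) i j : ℝ) / X i j)
          (fun j _ => div_nonneg (Nat.cast_nonneg _) (hXn i j)) (Finset.mem_univ j)) ?_
        exact Finset.single_le_sum (f := fun i => ∑ j,
          (cst (compList ([] : List (Fin d → List (Fin d)))) i j : ℝ) / X i j)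
          (fun i _ => Finset.sum_nonneg fun j _ => div_nonneg (Nat.cast_nonneg _) (hXn i j))
          (Finset.mem_univ i)
      rwa [div_le_iff₀ (hX i j h)] at h1
  | append_singleton l τ ih =>
    intro hl i j
    obtain ⟨hθ, hτ⟩ := hl τ (by simp)
    have ih' := ih fun τ' h => hl τ' (List.mem_append_left _ h)
    obtain ⟨C, hC⟩ : ∃ C : ℝ, C = (∑ i, ∑ j,
      (cst (compList ([] : List (Fin d → List (Fin d)))) i j : ℝ) / X i j) * (l.map θ).prod :=
      ⟨_, rfl⟩
    rw [← hC] at ih'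
    have hC0 : 0 ≤ C := by
      rw [hC]
      refine mul_nonneg (Finset.sum_nonneg fun i _ => Finset.sum_nonneg fun j _ =>
        div_nonneg (Nat.cast_nonneg _) (hXn i j)) (List.prod_nonneg ?_)
      intro x hx
      obtain ⟨τ', hτ', rfl⟩ := List.mem_map.1 hx
      exact (hl τ' (List.mem_append_left _ hτ')).1
    by_cases h : i = j
    · rw [h, cst_self, hX0]; simp
    · rw [compList_snoc]
      refine (cst_comp_real (compList l) τ i j).trans ?_
      have h1 : ∑ k, ∑ k', (inc τ k i : ℝ) * (inc τ k' j : ℝ) * (cst (compList l) k k' : ℝ) ≤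
          ∑ k, ∑ k', (inc τ k i : ℝ) * (inc τ k' j : ℝ) * (C * X k k') := by
        refine Finset.sum_le_sum fun k _ => Finset.sum_le_sum fun k' _ => ?_
        refine mul_le_mul_of_nonneg_left (ih' k k') ?_
        unfold inc
        positivity
      refine h1.trans ?_
      have h2 : ∑ k, ∑ k', (inc τ k i : ℝ) * (inc τ k' j : ℝ) * (C * X k k') =
          C * ∑ k, ∑ k', (inc τ k i : ℝ) * (inc τ k' j : ℝ) * X k k' := by
        rw [Finset.mul_sum]
        refine Finset.sum_congr rfl fun k _ => ?_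
        rw [Finset.mul_sum]
        exact Finset.sum_congr rfl fun k' _ => by ring
      rw [h2]
      refine (mul_le_mul_of_nonneg_left (hτ i j h) hC0).trans (le_of_eq ?_)
      rw [List.map_append, List.prod_append, hC]
      simp
      ring

theorem flatten_prod {α : Type*} (l : List α) (θ : α → ℝ) (n : ℕ) :
    (((List.replicate n l).flatten).map θ).prod = (l.map θ).prod ^ n := by
  induction n with
  | zero => simp
  | succ n ih =>
    rw [List.replicate_succ, List.flatten_cons, List.map_append, List.prod_append, ih, pow_succ']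

theorem mem_flatten_replicate {α : Type*} {l : List α} {n : ℕ} {x : α}
    (h : x ∈ (List.replicate n l).flatten) : x ∈ l := by
  rw [List.mem_flatten] at h
  obtain ⟨l', hl', hx⟩ := h
  rw [(List.mem_replicate.1 hl').2] at hx
  exact hx

theorem small_of_geom {lam Θ C : ℝ} (hlam : 1 < lam) (hΘ0 : 0 ≤ Θ) (hΘ : Θ < lam)
    (f : ℕ → ℝ) (hf : ∀ n, f n ≤ C * Θ ^ n) (ε : ℝ) (hε : 0 < ε) :
    ∃ n₀ : ℕ, ∀ n ≥ n₀, f n ≤ ε * lam ^ n := by
  have hlam0 : 0 < lam := by linarith
  have h1 : Filter.Tendsto (fun n : ℕ => C * (Θ / lam) ^ n) Filter.atTop (nhds (C * 0)) :=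
    (tendsto_pow_atTop_nhds_zero_of_lt_one (div_nonneg hΘ0 hlam0.le)
      ((div_lt_one hlam0).2 hΘ)).const_mul C
  rw [mul_zero] at h1
  obtain ⟨n₀, hn₀⟩ := Filter.eventually_atTop.1 (h1.eventually_le_const hε)
  refine ⟨n₀, fun n hn => (hf n).trans ?_⟩
  have h2 := hn₀ n hn
  rw [div_pow, ← mul_div_assoc, div_le_iff₀ (pow_pos hlam0 n)] at h2
  exact h2

/-- **Permanental criterion.** -/
theorem permanental {m : ℕ} (X : Fin (m+1) → Fin (m+1) → ℝ) (hX0 : ∀ i, X i i = 0)
    (hX : ∀ i j, i ≠ j → 0 < X i j) (θ : (Fin (m+1) → List (Fin (m+1))) → ℝ)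
    (l : List (Fin (m+1) → List (Fin (m+1))))
    (hl : ∀ τ ∈ l, 0 ≤ θ τ ∧ ∀ i j, i ≠ j →
      ∑ k, ∑ k', (inc τ k i : ℝ) * (inc τ k' j : ℝ) * X k k' ≤ θ τ * X i j)
    (hdet : IsUnit (inc (compList l)).det) (P : PD (inc (compList l)))
    (hΘ : (l.map θ).prod < P.lam) : SemiConjToral (compList l) := by
  obtain ⟨C, hC0, hC⟩ := cst_list X hX0 hX θ
  have hΘ0 : 0 ≤ (l.map θ).prod := by
    refine List.prod_nonneg ?_
    intro x hx
    obtain ⟨τ, hτ, rfl⟩ := List.mem_map.1 hx
    exact (hl τ hτ).1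
  obtain ⟨B, hB⟩ : ∃ B : ℝ, ∀ x y, X x y ≤ B := by
    obtain ⟨B, hB⟩ := (Set.finite_range fun p : Fin (m+1) × Fin (m+1) => X p.1 p.2).bddAbove
    exact ⟨B, fun x y => hB ⟨(x, y), rfl⟩⟩
  have hcost : ∀ n x y, (cst (iter (compList l) n) x y : ℝ) ≤
      (C * B) * (l.map θ).prod ^ n := by
    intro n x y
    rw [← Pool.Agent.Y316.Pisot.compList_flatten]
    refine (hC _ (fun τ hτ => hl τ (mem_flatten_replicate hτ)) x y).trans ?_
    rw [flatten_prod]
    have h1 := mul_le_mul_of_nonneg_left (hB x y) (mul_nonneg hC0 (pow_nonneg hΘ0 n))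
    linarith
  refine semi_of_small P hdet fun ε hε => ?_
  obtain ⟨n₀, hn₀⟩ := small_of_geom (C := C * B) P.lam_gt hΘ0 hΘ
    (fun n => (C * B) * (l.map θ).prod ^ n) (fun n => le_rfl) ε hε
  exact ⟨n₀, fun n hn x y => (hcost n x y).trans (hn₀ n hn)⟩

end Pool.Agent.Q132.PT
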