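import Pool.Agent.Q132.PT.Long

/-!
Matrices whose cycles all pass through the letter `0` and which have more loops at `0` than other
first return loops satisfy the conditions of the long letter criterion.
-/

set_option autoImplicit false

namespace Pool.Agent.Q132.PT
open Pool.Agent.H812R2.PI
open scoped BigOperators
variable {m : ℕ}

/-- the solution of `t g_j = b_j + Σ_{k>j} g_k M_{kj}` -/
noncomputable def pn (M : Matrix (Fin (m+1)) (Fin (m+1)) ℤ) (b : Fin (m+1) → ℝ) (t : ℝ)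
    (j : Fin (m+1)) : ℝ :=
  (b j + ∑ k ∈ (Finset.univ.filter (j < ·)).attach, pn M b t k.1 * (M k.1 j : ℝ)) / t
termination_by m - (j : ℕ)
decreasing_by
  exact Nat.sub_lt_sub_left
    (lt_of_lt_of_le (Fin.lt_def.1 (Finset.mem_filter.1 k.2).2) (Nat.le_of_lt_succ k.1.2))
    (Fin.lt_def.1 (Finset.mem_filter.1 k.2).2)

theorem pn_eq (M : Matrix (Fin (m+1)) (Fin (m+1)) ℤ) (b : Fin (m+1) → ℝ) {t : ℝ} (ht : t ≠ 0)
    (j : Fin (m+1)) :
    t * pn M b t j = b j + ∑ k ∈ Finset.univ.filter (j < ·), pn M b t k * (M k j : ℝ) := by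
  rw [pn, mul_div_cancel₀ _ ht]
  congr 1
  exact Finset.sum_attach (Finset.univ.filter (j < ·)) fun k => pn M b t k * (M k j : ℝ)

/-- backward induction -/
theorem back_ind {P : Fin (m+1) → Prop} (h : ∀ j, (∀ k, j < k → P k) → P j) : ∀ j, P j := by
  have h1 : ∀ n : ℕ, ∀ j : Fin (m+1), m - (j : ℕ) ≤ n → P j := by
    intro n
    induction n with
    | zero =>
      intro j hj
      refine h j fun k hk => ?_
      have h2 := k.2
      have h3 : (j : ℕ) < k := hk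
      omega
    | succ n ih =>
      intro j hj
      refine h j fun k hk => ih k ?_
      have h3 : (j : ℕ) < k := hk
      omega
  exact fun j => h1 _ j le_rfl

/-- the sum over all letters of a triangular matrix -/
theorem tri_sum {M : Matrix (Fin (m+1)) (Fin (m+1)) ℤ}
    (htri : ∀ i j, i ≠ 0 → j ≠ 0 → i ≤ j → M i j = 0) (g : Fin (m+1) → ℝ) (j : Fin (m+1))
    (hj : j ≠ 0) :
    ∑ k, g k * (M k j : ℝ) =
      g 0 * (M 0 j : ℝ) + ∑ k ∈ Finset.univ.filter (j < ·), g k * (M k j : ℝ) := by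
  rw [← Finset.add_sum_erase Finset.univ _ (Finset.mem_univ (0 : Fin (m+1)))]
  congr 1
  symm
  refine Finset.sum_subset ?_ ?_
  · intro k hk
    have h1 : j < k := (Finset.mem_filter.1 hk).2
    refine Finset.mem_erase.2 ⟨?_, Finset.mem_univ _⟩
    intro h
    rw [h] at h1
    exact absurd h1 (Fin.not_lt_zero j)
  · intro k hk hk'
    have h1 : ¬ j < k := fun h => hk' (Finset.mem_filter.2 ⟨Finset.mem_univ _, h⟩)
    rw [htri k j (Finset.ne_of_mem_erase hk) hj (not_lt.1 h1)]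
    simp

/-- positivity -/
theorem tri_pos {M : Matrix (Fin (m+1)) (Fin (m+1)) ℤ} (hnn : ∀ i j, 0 ≤ M i j)
    (htri : ∀ i j, i ≠ 0 → j ≠ 0 → i ≤ j → M i j = 0) (hdet : M.det ≠ 0) {t : ℝ} (ht : 0 < t)
    (g : Fin (m+1) → ℝ)
    (hg : ∀ j, j ≠ 0 → (M 0 j : ℝ) + ∑ k ∈ Finset.univ.filter (j < ·), g k * (M k j : ℝ) ≤
      t * g j) : ∀ j, j ≠ 0 → 0 < g j := by
  refine back_ind fun j ih hj => ?_
  have hn : ∀ i j, (0:ℝ) ≤ (M i j : ℝ) := fun i j => by exact_mod_cast hnn i j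
  have hk : ∀ k ∈ Finset.univ.filter (j < ·), 0 ≤ g k * (M k j : ℝ) := by
    intro k hk
    have h1 : j < k := (Finset.mem_filter.1 hk).2
    refine mul_nonneg (ih k h1 ?_).le (hn k j)
    intro h
    rw [h] at h1
    exact absurd h1 (Fin.not_lt_zero j)
  by_contra hcon
  push Not at hcon
  have h1 := hg j hj
  have h2 : t * g j ≤ 0 := mul_nonpos_of_nonneg_of_nonpos ht.le hcon
  have h3 := Finset.sum_nonneg hk
  have h4 := hn 0 j
  have h5 : (M 0 j : ℝ) = 0 := by linarith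
  have h6 : ∑ k ∈ Finset.univ.filter (j < ·), g k * (M k j : ℝ) = 0 := by linarith
  rw [Finset.sum_eq_zero_iff_of_nonneg hk] at h6
  refine hdet (Matrix.det_eq_zero_of_column_eq_zero j fun i => ?_)
  by_cases hi : i = 0
  · rw [hi]; exact_mod_cast h5
  · by_cases hij : j < i
    · have h7 := h6 i (Finset.mem_filter.2 ⟨Finset.mem_univ _, hij⟩)
      rcases mul_eq_zero.1 h7 with h | h
      · exact absurd h (ih i hij hi).ne'
      · exact_mod_cast h
    · exact htri i j hi hj (not_lt.1 hij)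

/-- **Loops.** -/
theorem long_of_loops (hm : 1 ≤ m) {M : Matrix (Fin (m+1)) (Fin (m+1)) ℤ} (hnn : ∀ i j, 0 ≤ M i j)
    (htri : ∀ i j, i ≠ 0 → j ≠ 0 → i ≤ j → M i j = 0) (hdet : M.det ≠ 0)
    (p : Fin (m+1) → ℤ)
    (hp : ∀ j, j ≠ 0 → M 0 j + ∑ k ∈ Finset.univ.filter (j < ·), p k * M k j ≤ p j)
    (hlt : ∑ k ∈ Finset.univ.erase 0, p k * M k 0 < M 0 0) :
    ∃ (r w : Fin (m+1) → ℝ) (η : ℝ), Wts r w ∧ 0 ≤ η ∧ η < 1 ∧ Long r w η M ∧ 1 ≤ M 0 0 := by
  have hn : ∀ i j, (0:ℝ) ≤ (M i j : ℝ) := fun i j => by exact_mod_cast hnn i j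
  have hpR : ∀ j, j ≠ 0 → (M 0 j : ℝ) + ∑ k ∈ Finset.univ.filter (j < ·), (p k : ℝ) * (M k j : ℝ)
      ≤ 1 * (p j : ℝ) := by
    intro j hj
    rw [one_mul]
    exact_mod_cast hp j hj
  have hppos := tri_pos hnn htri hdet one_pos (fun k => (p k : ℝ)) hpR
  have hp1 : ∀ j, j ≠ 0 → 1 ≤ p j := by
    intro j hj
    have h1 : (0:ℝ) < (p j : ℝ) := hppos j hj
    have h2 : 0 < p j := by exact_mod_cast h1
    omega
  -- the first short letter
  obtain ⟨e, he0, he⟩ : ∃ e : Fin (m+1), e ≠ 0 ∧ 1 ≤ M e 0 := by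
    obtain ⟨e, he⟩ : ∃ e : Fin (m+1), (e : ℕ) = 1 := ⟨⟨1, by omega⟩, rfl⟩
    have he0 : e ≠ 0 := by
      intro h
      rw [h] at he
      simp at he
    refine ⟨e, he0, ?_⟩
    by_contra hcon
    have h0 : M e 0 = 0 := le_antisymm (by omega) (hnn e 0)
    refine hdet (Matrix.det_eq_zero_of_row_eq_zero e fun j => ?_)
    by_cases hj : j = 0
    · rw [hj]; exact h0
    · refine htri e j he0 hj ?_
      rw [Fin.le_def, he]
      have : (j : ℕ) ≠ 0 := fun h => hj (Fin.ext h)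
      omega
  have hA2 : 2 ≤ M 0 0 := by
    have h1 : p e * M e 0 ≤ ∑ k ∈ Finset.univ.erase 0, p k * M k 0 :=
      Finset.single_le_sum (f := fun k => p k * M k 0)
        (fun k hk => mul_nonneg (by have := hp1 k (Finset.ne_of_mem_erase hk); omega) (hnn k 0))
        (Finset.mem_erase.2 ⟨he0, Finset.mem_univ _⟩)
    have h2 : 1 ≤ p e * M e 0 := by
      have := hp1 e he0
      nlinarith
    omega
  obtain ⟨A, hA⟩ : ∃ A : ℝ, A = (M 0 0 : ℝ) := ⟨_, rfl⟩
  have hA2' : 2 ≤ A := by rw [hA]; exact_mod_cast hA2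
  have hA0 : A ≠ 0 := by linarith
  -- the ratios
  obtain ⟨g, hg⟩ : ∃ g : Fin (m+1) → ℝ, g = pn M (fun j => (M 0 j : ℝ)) A := ⟨_, rfl⟩
  have hgeq : ∀ j, A * g j = (M 0 j : ℝ) + ∑ k ∈ Finset.univ.filter (j < ·), g k * (M k j : ℝ) := by
    intro j
    rw [hg]
    exact pn_eq M _ hA0 j
  have hgpos := tri_pos hnn htri hdet (by linarith : (0:ℝ) < A) g (fun j _ => (hgeq j).ge)
  -- `z = p - g`
  obtain ⟨z, hz⟩ : ∃ z : Fin (m+1) → ℝ, z = fun k => (p k : ℝ) - g k := ⟨_, rfl⟩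
  have hzge : ∀ j, j ≠ 0 →
      (A - 1) * g j + ∑ k ∈ Finset.univ.filter (j < ·), z k * (M k j : ℝ) ≤ z j := by
    intro j hj
    have h1 := hpR j hj
    have h2 := hgeq j
    rw [one_mul] at h1
    rw [hz]
    simp only [sub_mul, Finset.sum_sub_distrib]
    linarith
  have hzpos : ∀ j, j ≠ 0 → 0 < z j := by
    refine back_ind fun j ih hj => ?_
    have h1 : 0 ≤ ∑ k ∈ Finset.univ.filter (j < ·), z k * (M k j : ℝ) := by
      refine Finset.sum_nonneg fun k hk => ?_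
      have h1 : j < k := (Finset.mem_filter.1 hk).2
      refine mul_nonneg (ih k h1 ?_).le (hn k j)
      intro h
      rw [h] at h1
      exact absurd h1 (Fin.not_lt_zero j)
    have h2 := hzge j hj
    have h3 := mul_pos (by linarith : (0:ℝ) < A - 1) (hgpos j hj)
    linarith
  -- the defect
  obtain ⟨c, hc⟩ : ∃ c : ℝ, c = ∑ k ∈ Finset.univ.erase 0, g k * (M k 0 : ℝ) := ⟨_, rfl⟩
  have hcpos : 0 < c := by
    have h1 : g e * (M e 0 : ℝ) ≤ c := by
      rw [hc]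
      exact Finset.single_le_sum (f := fun k => g k * (M k 0 : ℝ))
        (fun k hk => mul_nonneg (hgpos k (Finset.ne_of_mem_erase hk)).le (hn k 0))
        (Finset.mem_erase.2 ⟨he0, Finset.mem_univ _⟩)
    have h2 : (1:ℝ) ≤ (M e 0 : ℝ) := by exact_mod_cast he
    have h3 := hgpos e he0
    nlinarith
  have hZ : ∑ k ∈ Finset.univ.erase 0, z k * (M k 0 : ℝ) ≤ A - 1 - c := by
    have h1 : ∑ k ∈ Finset.univ.erase 0, (p k : ℝ) * (M k 0 : ℝ) ≤ A - 1 := by
      have h2 : ∑ k ∈ Finset.univ.erase 0, p k * M k 0 ≤ M 0 0 - 1 := by omega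
      rw [hA]
      exact_mod_cast h2
    rw [hz, hc]
    simp only [sub_mul, Finset.sum_sub_distrib]
    linarith
  have hZ0 : 0 ≤ ∑ k ∈ Finset.univ.erase 0, z k * (M k 0 : ℝ) :=
    Finset.sum_nonneg fun k hk => mul_nonneg (hzpos k (Finset.ne_of_mem_erase hk)).le (hn k 0)
  obtain ⟨V, hV⟩ : ∃ V : ℝ, V = 1 + ∑ k ∈ Finset.univ.erase 0, z k / g k := ⟨_, rfl⟩
  have hVn : ∀ k ∈ Finset.univ.erase (0 : Fin (m+1)), 0 ≤ z k / g k := fun k hk =>
    (div_pos (hzpos k (Finset.ne_of_mem_erase hk)) (hgpos k (Finset.ne_of_mem_erase hk))).le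
  have hV1 : 1 ≤ V := by
    rw [hV]
    have := Finset.sum_nonneg hVn
    linarith
  have hzV : ∀ j, j ≠ 0 → z j ≤ V * g j := by
    intro j hj
    rw [← div_le_iff₀ (hgpos j hj), hV]
    have := Finset.single_le_sum hVn (Finset.mem_erase.2 ⟨hj, Finset.mem_univ j⟩)
    linarith
  obtain ⟨r, hr⟩ : ∃ r : Fin (m+1) → ℝ, r = fun j => if j = 0 then 1 else g j := ⟨_, rfl⟩
  obtain ⟨w, hw⟩ : ∃ w : Fin (m+1) → ℝ, w = fun j => if j = 0 then 0 else z j := ⟨_, rfl⟩
  have hr0 : r 0 = 1 := by rw [hr]; simp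
  have hw0 : w 0 = 0 := by rw [hw]; simp
  have hrj : ∀ j, j ≠ 0 → r j = g j := by intro j hj; rw [hr]; simp [hj]
  have hwj : ∀ j, j ≠ 0 → w j = z j := by intro j hj; rw [hw]; simp [hj]
  have hfil : ∀ j k : Fin (m+1), k ∈ Finset.univ.filter (j < ·) → k ≠ 0 := by
    intro j k hk h
    have h1 : j < k := (Finset.mem_filter.1 hk).2
    rw [h] at h1
    exact absurd h1 (Fin.not_lt_zero j)
  have hcontr : ∀ j, j ≠ 0 → ∑ k, w k * ((M k j : ℝ) + r j * (M k 0 : ℝ)) ≤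
      (1 - c / V) * w j := by
    intro j hj
    have h1 : ∑ k, w k * ((M k j : ℝ) + r j * (M k 0 : ℝ)) =
        ∑ k, w k * (M k j : ℝ) + r j * ∑ k, w k * (M k 0 : ℝ) := by
      rw [Finset.mul_sum, ← Finset.sum_add_distrib]
      exact Finset.sum_congr rfl fun k _ => by ring
    have h2 : ∑ k, w k * (M k j : ℝ) = ∑ k ∈ Finset.univ.filter (j < ·), z k * (M k j : ℝ) := by
      rw [tri_sum htri w j hj, hw0, zero_mul, zero_add]
      exact Finset.sum_congr rfl fun k hk => by rw [hwj k (hfil j k hk)]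
    have h3 : ∑ k, w k * (M k 0 : ℝ) = ∑ k ∈ Finset.univ.erase 0, z k * (M k 0 : ℝ) := by
      rw [← Finset.add_sum_erase Finset.univ _ (Finset.mem_univ (0 : Fin (m+1))), hw0, zero_mul,
        zero_add]
      exact Finset.sum_congr rfl fun k hk => by rw [hwj k (Finset.ne_of_mem_erase hk)]
    rw [h1, h2, h3, hrj j hj, hwj j hj]
    have h4 := hzge j hj
    have h5 := mul_le_mul_of_nonneg_left hZ (hgpos j hj).le
    have h6 : c / V * z j ≤ c * g j := by
      rw [div_mul_eq_mul_div, div_le_iff₀ (by linarith)]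
      have := mul_le_mul_of_nonneg_left (hzV j hj) hcpos.le
      linarith
    nlinarith
  refine ⟨r, w, 1 - c / V, ⟨hr0, hw0, fun j hj => ?_, fun j hj => ?_⟩, ?_, ?_,
    ⟨fun j hj => ?_, hcontr⟩, by omega⟩
  · rw [hrj j hj]; exact hgpos j hj
  · rw [hwj j hj]; exact hzpos j hj
  · have h1 := hcontr e he0
    have h2 : 0 ≤ ∑ k, w k * ((M k e : ℝ) + r e * (M k 0 : ℝ)) := by
      refine Finset.sum_nonneg fun k _ => mul_nonneg ?_ (add_nonneg (hn k e) (mul_nonneg ?_ (hn k 0)))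
      · by_cases hk : k = 0
        · rw [hk, hw0]
        · rw [hwj k hk]; exact (hzpos k hk).le
      · rw [hrj e he0]; exact (hgpos e he0).le
    have h3 := hzpos e he0
    rw [hwj e he0] at h1
    by_contra hcon
    push Not at hcon
    have := mul_neg_of_neg_of_pos hcon h3
    linarith
  · have : 0 < c / V := div_pos hcpos (by linarith)
    linarith
  · rw [tri_sum htri r j hj, hr0, one_mul, hrj j hj, ← hA, mul_comm (g j) A, hgeq j]
    refine le_of_eq ?_
    congr 1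
    exact Finset.sum_congr rfl fun k hk => by rw [hrj k (hfil j k hk)]

theorem filt_ne {j k : Fin (m+1)} (hk : k ∈ Finset.univ.filter (j < ·)) : k ≠ 0 := by
  intro h
  have h1 : j < k := (Finset.mem_filter.1 hk).2
  rw [h] at h1
  exact absurd h1 (Fin.not_lt_zero j)

theorem tri_sum' {M : Matrix (Fin (m+1)) (Fin (m+1)) ℤ}
    (htri : ∀ i j, i ≠ 0 → j ≠ 0 → i ≤ j → M i j = 0) (g : Fin (m+1) → ℝ) (j : Fin (m+1))
    (hj : j ≠ 0) :
    ∑ k ∈ Finset.univ.erase 0, g k * (M k j : ℝ) =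
      ∑ k ∈ Finset.univ.filter (j < ·), g k * (M k j : ℝ) := by
  have h1 := tri_sum htri g j hj
  rw [← Finset.add_sum_erase Finset.univ _ (Finset.mem_univ (0 : Fin (m+1)))] at h1
  linarith

/-- **Fixed short part.** -/
theorem long_of_short (hm : 1 ≤ m) (T : Matrix (Fin (m+1)) (Fin (m+1)) ℤ)
    (hnn : ∀ i j, 0 ≤ T i j) (htri : ∀ i j, i ≠ 0 → j ≠ 0 → i ≤ j → T i j = 0)
    (V : Fin (m+1) → ℤ) (hV1 : ∀ k, k ≠ 0 → 1 ≤ V k)
    (hV : ∀ k, k ≠ 0 → T k 0 + ∑ j ∈ Finset.univ.erase 0, T k j * V j ≤ V k) :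
    ∃ (r w : Fin (m+1) → ℝ) (η : ℝ), Wts r w ∧ 0 ≤ η ∧ η < 1 ∧
      ∀ M : Matrix (Fin (m+1)) (Fin (m+1)) ℤ, (∀ i j, i ≠ 0 → M i j = T i j) →
        (∀ j, j ≠ 0 → (m + 1) * V j * M 0 j + m ≤ M 0 0) → Long r w η M := by
  have hn : ∀ i j, (0:ℝ) ≤ (T i j : ℝ) := fun i j => by exact_mod_cast hnn i j
  have hm0 : (0:ℝ) < (m:ℝ) + 1 := by positivity
  have hVp : ∀ k, k ≠ 0 → (0:ℝ) < (V k : ℝ) := by
    intro k hk
    have := hV1 k hk
    exact_mod_cast (by omega : 0 < V k)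
  have hVR : ∀ k, k ≠ 0 → (T k 0 : ℝ) + ∑ j ∈ Finset.univ.erase 0, (T k j : ℝ) * (V j : ℝ) ≤
      (V k : ℝ) := by
    intro k hk
    exact_mod_cast hV k hk
  obtain ⟨e, he0⟩ : ∃ e : Fin (m+1), e ≠ 0 := ⟨Fin.last m, by
    intro h; have := congrArg Fin.val h; simp at this; omega⟩
  obtain ⟨VS, hVS⟩ : ∃ VS : ℝ, VS = ∑ k ∈ Finset.univ.erase (0 : Fin (m+1)), (V k : ℝ) := ⟨_, rfl⟩
  have hVS0 : 0 < VS := by
    rw [hVS]
    exact Finset.sum_pos (fun k hk => hVp k (Finset.ne_of_mem_erase hk))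
      ⟨e, Finset.mem_erase.2 ⟨he0, Finset.mem_univ _⟩⟩
  obtain ⟨δ, hδ⟩ : ∃ δ : ℝ, δ = 1 / ((m + 1) * VS) := ⟨_, rfl⟩
  have hδ0 : 0 < δ := by rw [hδ]; positivity
  obtain ⟨g, hg⟩ : ∃ g : Fin (m+1) → ℝ, g = fun k => 1 / (((m:ℝ) + 1) * (V k : ℝ)) := ⟨_, rfl⟩
  have hgpos : ∀ k, k ≠ 0 → 0 < g k := by
    intro k hk
    rw [hg]
    have := hVp k hk
    positivity
  obtain ⟨z, hz⟩ : ∃ z : Fin (m+1) → ℝ, z = pn T (fun j => g j + δ) 1 := ⟨_, rfl⟩
  have hzeq : ∀ j, z j = g j + δ + ∑ k ∈ Finset.univ.filter (j < ·), z k * (T k j : ℝ) := by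
    intro j
    have := pn_eq T (fun j => g j + δ) one_ne_zero j
    rw [one_mul, ← hz] at this
    exact this
  have hzpos : ∀ j, j ≠ 0 → 0 < z j := by
    refine back_ind fun j ih hj => ?_
    have h1 : 0 ≤ ∑ k ∈ Finset.univ.filter (j < ·), z k * (T k j : ℝ) :=
      Finset.sum_nonneg fun k hk =>
        mul_nonneg (ih k (Finset.mem_filter.1 hk).2 (filt_ne hk)).le (hn k j)
    rw [hzeq j]
    have := hgpos j hj
    linarith
  -- the flow
  have hsum1 : ∑ k ∈ Finset.univ.erase (0 : Fin (m+1)), (V k : ℝ) * (g k + δ) = 1 := by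
    have h1 : ∀ k ∈ Finset.univ.erase (0 : Fin (m+1)), (V k : ℝ) * (g k + δ) =
        1 / ((m:ℝ) + 1) + δ * (V k : ℝ) := by
      intro k hk
      have h2 := hVp k (Finset.ne_of_mem_erase hk)
      rw [hg]
      field_simp
    rw [Finset.sum_congr rfl h1, Finset.sum_add_distrib, ← Finset.mul_sum, ← hVS,
      Finset.sum_const, Finset.card_erase_of_mem (Finset.mem_univ _), Finset.card_univ,
      Fintype.card_fin, nsmul_eq_mul, hδ]
    push_cast
    field_simp
  have hW : ∑ k ∈ Finset.univ.erase (0 : Fin (m+1)), z k * (T k 0 : ℝ) ≤ 1 := by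
    have h1 : ∑ k ∈ Finset.univ.erase (0 : Fin (m+1)), z k * (T k 0 : ℝ) ≤
        ∑ k ∈ Finset.univ.erase (0 : Fin (m+1)), z k * ((V k : ℝ) -
          ∑ j ∈ Finset.univ.erase 0, (T k j : ℝ) * (V j : ℝ)) := by
      refine Finset.sum_le_sum fun k hk => mul_le_mul_of_nonneg_left ?_
        (hzpos k (Finset.ne_of_mem_erase hk)).le
      have := hVR k (Finset.ne_of_mem_erase hk)
      linarith
    refine h1.trans (le_of_eq ?_)
    simp only [mul_sub, Finset.sum_sub_distrib]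
    have h2 : ∑ k ∈ Finset.univ.erase (0 : Fin (m+1)), z k *
        ∑ j ∈ Finset.univ.erase (0 : Fin (m+1)), (T k j : ℝ) * (V j : ℝ) =
        ∑ j ∈ Finset.univ.erase (0 : Fin (m+1)), (V j : ℝ) *
          ∑ k ∈ Finset.univ.filter (j < ·), z k * (T k j : ℝ) := by
      calc _ = ∑ k ∈ Finset.univ.erase (0 : Fin (m+1)), ∑ j ∈ Finset.univ.erase (0 : Fin (m+1)),
            (V j : ℝ) * (z k * (T k j : ℝ)) := by
            refine Finset.sum_congr rfl fun k _ => ?_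
            rw [Finset.mul_sum]
            exact Finset.sum_congr rfl fun j _ => by ring
        _ = ∑ j ∈ Finset.univ.erase (0 : Fin (m+1)), ∑ k ∈ Finset.univ.erase (0 : Fin (m+1)),
            (V j : ℝ) * (z k * (T k j : ℝ)) := Finset.sum_comm
        _ = _ := by
            refine Finset.sum_congr rfl fun j hj => ?_
            rw [← Finset.mul_sum, tri_sum' htri z j (Finset.ne_of_mem_erase hj)]
    rw [h2, ← Finset.sum_sub_distrib, ← hsum1]
    refine Finset.sum_congr rfl fun j _ => ?_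
    have := hzeq j
    rw [mul_comm (z j), ← mul_sub]
    congr 1
    linarith
  obtain ⟨ZS, hZS⟩ : ∃ ZS : ℝ, ZS = ∑ k ∈ Finset.univ.erase (0 : Fin (m+1)), z k := ⟨_, rfl⟩
  have hzn : ∀ k ∈ Finset.univ.erase (0 : Fin (m+1)), 0 ≤ z k := fun k hk =>
    (hzpos k (Finset.ne_of_mem_erase hk)).le
  have hzZ : ∀ j, j ≠ 0 → z j ≤ ZS := fun j hj => by
    rw [hZS]
    exact Finset.single_le_sum hzn (Finset.mem_erase.2 ⟨hj, Finset.mem_univ j⟩)
  have hZ0 : 0 < ZS := (hzpos e he0).trans_le (hzZ e he0)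
  have hδZ : δ ≤ ZS := by
    have h1 := hzeq e
    have h2 : 0 ≤ ∑ k ∈ Finset.univ.filter (e < ·), z k * (T k e : ℝ) :=
      Finset.sum_nonneg fun k hk => mul_nonneg (hzpos k (filt_ne hk)).le (hn k e)
    have h3 := hgpos e he0
    have h4 := hzZ e he0
    linarith
  obtain ⟨r, hr⟩ : ∃ r : Fin (m+1) → ℝ, r = fun j => if j = 0 then 1 else g j := ⟨_, rfl⟩
  obtain ⟨w, hw⟩ : ∃ w : Fin (m+1) → ℝ, w = fun j => if j = 0 then 0 else z j := ⟨_, rfl⟩
  have hr0 : r 0 = 1 := by rw [hr]; simp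
  have hw0 : w 0 = 0 := by rw [hw]; simp
  have hrj : ∀ j, j ≠ 0 → r j = g j := by intro j hj; rw [hr]; simp [hj]
  have hwj : ∀ j, j ≠ 0 → w j = z j := by intro j hj; rw [hw]; simp [hj]
  refine ⟨r, w, 1 - δ / ZS, ⟨hr0, hw0, fun j hj => ?_, fun j hj => ?_⟩, ?_, ?_,
    fun M hMT hthr => ?_⟩
  · rw [hrj j hj]; exact hgpos j hj
  · rw [hwj j hj]; exact hzpos j hj
  · have := (div_le_one hZ0).2 hδZ
    linarith
  · have := div_pos hδ0 hZ0
    linarith
  · have htriM : ∀ i j, i ≠ 0 → j ≠ 0 → i ≤ j → M i j = 0 := fun i j hi hj hij => by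
      rw [hMT i j hi]; exact htri i j hi hj hij
    refine ⟨fun j hj => ?_, fun j hj => ?_⟩
    · rw [tri_sum htriM r j hj, hr0, one_mul, hrj j hj]
      have hVj := hVp j hj
      have h1 : ∀ k ∈ Finset.univ.filter (j < ·), r k * (M k j : ℝ) ≤ g j := by
        intro k hk
        have hk0 := filt_ne hk
        rw [hrj k hk0, hMT k j hk0, hg]
        have hVk := hVp k hk0
        have h2 : (T k j : ℝ) * (V j : ℝ) ≤ (V k : ℝ) := by
          have h3 := hVR k hk0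
          have h4 := Finset.single_le_sum (f := fun j => (T k j : ℝ) * (V j : ℝ))
            (fun i hi => mul_nonneg (hn k i) (hVp i (Finset.ne_of_mem_erase hi)).le)
            (Finset.mem_erase.2 ⟨hj, Finset.mem_univ j⟩)
          have h5 := hn k 0
          linarith
        rw [div_mul_eq_mul_div, one_mul, div_le_div_iff₀ (by positivity) (by positivity)]
        nlinarith
      have h2 : ∑ k ∈ Finset.univ.filter (j < ·), r k * (M k j : ℝ) ≤ m * g j := by
        refine (Finset.sum_le_sum h1).trans ?_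
        rw [Finset.sum_const, nsmul_eq_mul]
        refine mul_le_mul_of_nonneg_right ?_ (hgpos j hj).le
        have h3 : (Finset.univ.filter (j < ·)).card ≤ m := by
          have h4 : (Finset.univ.filter (j < ·)) ⊆ Finset.univ.erase (0 : Fin (m+1)) :=
            fun k hk => Finset.mem_erase.2 ⟨filt_ne hk, Finset.mem_univ k⟩
          have h5 := Finset.card_le_card h4
          rw [Finset.card_erase_of_mem (Finset.mem_univ _), Finset.card_univ,
            Fintype.card_fin] at h5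
          omega
        exact_mod_cast h3
      have h3 : (M 0 j : ℝ) = (((m:ℝ) + 1) * (V j : ℝ) * (M 0 j : ℝ)) * g j := by
        rw [hg]
        field_simp
      have h4 : ((m:ℝ) + 1) * (V j : ℝ) * (M 0 j : ℝ) + m ≤ (M 0 0 : ℝ) := by
        exact_mod_cast hthr j hj
      have h5 := mul_le_mul_of_nonneg_right h4 (hgpos j hj).le
      rw [add_mul] at h5
      linarith
    · have h1 : ∑ k, w k * ((M k j : ℝ) + r j * (M k 0 : ℝ)) =
          ∑ k, w k * (M k j : ℝ) + r j * ∑ k, w k * (M k 0 : ℝ) := by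
        rw [Finset.mul_sum, ← Finset.sum_add_distrib]
        exact Finset.sum_congr rfl fun k _ => by ring
      have h2 : ∑ k, w k * (M k j : ℝ) = ∑ k ∈ Finset.univ.filter (j < ·), z k * (T k j : ℝ) := by
        rw [tri_sum htriM w j hj, hw0, zero_mul, zero_add]
        exact Finset.sum_congr rfl fun k hk => by rw [hwj k (filt_ne hk), hMT k j (filt_ne hk)]
      have h3 : ∑ k, w k * (M k 0 : ℝ) = ∑ k ∈ Finset.univ.erase 0, z k * (T k 0 : ℝ) := by
        rw [← Finset.add_sum_erase Finset.univ _ (Finset.mem_univ (0 : Fin (m+1))), hw0, zero_mul,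
          zero_add]
        exact Finset.sum_congr rfl fun k hk => by
          rw [hwj k (Finset.ne_of_mem_erase hk), hMT k 0 (Finset.ne_of_mem_erase hk)]
      rw [h1, h2, h3, hrj j hj, hwj j hj]
      have h4 := hzeq j
      have h5 := mul_le_mul_of_nonneg_left hW (hgpos j hj).le
      have h6 : δ / ZS * z j ≤ δ := by
        rw [div_mul_eq_mul_div, div_le_iff₀ hZ0]
        exact mul_le_mul_of_nonneg_left (hzZ j hj) hδ0.le
      nlinarith

end Pool.Agent.Q132.PT
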