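import Pool.Agent.Q132.PT.MkPD
import Pool.Agent.Q132.PT.Loops
import Pool.Agent.Q132.PC.ComNorm
import Pool.Agent.Q132.PT.Crit

/-!
The long letter criterion for lists of substitutions, and explicit families.
-/

set_option autoImplicit false

namespace Pool.Agent.Q132.PT
open Pool.Agent.H812R2.PI
open scoped BigOperators
variable {m : ℕ}

theorem cp_one {r w : Fin (m+1) → ℝ} :
    Cp r w 1 (1 : Matrix (Fin (m+1)) (Fin (m+1)) ℤ) := by
  have h1 : ∀ g : Fin (m+1) → ℝ, row (1 : Matrix (Fin (m+1)) (Fin (m+1)) ℤ) g = g := by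
    intro g
    funext j
    unfold row
    simp [Matrix.one_apply]
  refine ⟨fun g hg => ?_, fun g _ x _ => ?_⟩
  · rw [h1]
    exact ⟨le_rfl, hg⟩
  · rw [FOff_act_one, one_mul]

theorem cp_list {r w : Fin (m+1) → ℝ} (hrw : Wts r w) {η : ℝ} (hη : 0 ≤ η)
    (l : List (Fin (m+1) → List (Fin (m+1))))
    (hl : ∀ τ ∈ l, Long r w η (inc τ) ∧ 1 ≤ inc τ 0 0) :
    Cp r w (η ^ l.length) (inc (compList l)) := by
  induction l with
  | nil =>
    simp only [compList]
    rw [JComp_inc_id, List.length_nil, pow_zero]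
    exact cp_one
  | cons τ l ih =>
    have h1 := hl τ (List.mem_cons_self ..)
    have h2 := ih fun τ' h' => hl τ' (List.mem_cons_of_mem _ h')
    simp only [compList]
    rw [inc_comp, List.length_cons, pow_succ']
    exact Cp.mul (Cp.of_long hrw (fun i j => by unfold inc; positivity) h1.1 h1.2) h2 hη

theorem det_list (l : List (Fin (m+1) → List (Fin (m+1))))
    (h : ∀ τ ∈ l, (inc τ).det = 1 ∨ (inc τ).det = -1) :
    (inc (compList l)).det = 1 ∨ (inc (compList l)).det = -1 := by
  induction l with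
  | nil =>
    left
    simp only [compList]
    rw [JComp_inc_id, Matrix.det_one]
  | cons τ l' ih =>
    simp only [compList]
    rw [inc_comp, Matrix.det_mul]
    rcases h τ (List.mem_cons_self ..) with h2 | h2 <;>
      rcases ih (fun τ' h' => h τ' (List.mem_cons_of_mem _ h')) with h3 | h3 <;>
      rw [h2, h3] <;> norm_num

/-- **The long letter criterion**, with the Pisot property. -/
theorem long_all (hm : 1 ≤ m) {r w : Fin (m+1) → ℝ} (hrw : Wts r w) {η : ℝ} (hη : 0 ≤ η)
    (hη1 : η < 1) (l : List (Fin (m+1) → List (Fin (m+1)))) (hne : l ≠ [])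
    (hl : ∀ τ ∈ l, Long r w η (inc τ) ∧ ((inc τ).det = 1 ∨ (inc τ).det = -1)) :
    PisotMat (inc (compList l)) ∧ SemiConjToral (compList l) := by
  have hnn : ∀ τ : Fin (m+1) → List (Fin (m+1)), ∀ i j, 0 ≤ inc τ i j := by
    intro τ i j
    unfold inc
    positivity
  have hl' : ∀ τ ∈ l, Long r w η (inc τ) ∧ 1 ≤ inc τ 0 0 := by
    intro τ hτ
    refine ⟨(hl τ hτ).1, long_corner hm hrw (hnn τ) (hl τ hτ).1 ?_⟩
    rcases (hl τ hτ).2 with h | h <;> rw [h] <;> norm_num
  have hdet := det_list l fun τ hτ => (hl τ hτ).2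
  have hdet0 : (inc (compList l)).det ≠ 0 := by
    rcases hdet with h | h <;> rw [h] <;> norm_num
  have hunit : IsUnit (inc (compList l)).det := by
    rcases hdet with h | h <;> rw [h]
    · exact isUnit_one
    · exact isUnit_one.neg
  have hcp := cp_list hrw hη l hl'
  have hlen : l.length ≠ 0 := fun h => hne (List.eq_nil_of_length_eq_zero h)
  obtain ⟨P⟩ := exists_PD_of_Cp hm hrw (pow_nonneg hη _) (pow_lt_one₀ hη hη1 hlen) (hnn _) hdet0 hcp
  exact ⟨Pool.Agent.Q132.PC.pisot_of_PD P hdet, long_semi hrw hη hη1 l hne hl' hunit P⟩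

/-- **Loops.** -/
theorem loops_all (hm : 1 ≤ m) (M : Matrix (Fin (m+1)) (Fin (m+1)) ℤ)
    (htri : ∀ i j, i ≠ 0 → j ≠ 0 → i ≤ j → M i j = 0) (hdet : M.det = 1 ∨ M.det = -1)
    (p : Fin (m+1) → ℤ)
    (hp : ∀ j, j ≠ 0 → M 0 j + ∑ k ∈ Finset.univ.filter (j < ·), p k * M k j ≤ p j)
    (hlt : ∑ k ∈ Finset.univ.erase 0, p k * M k 0 < M 0 0)
    (l : List (Fin (m+1) → List (Fin (m+1)))) (hne : l ≠ []) (hl : ∀ τ ∈ l, inc τ = M) :
    PisotMat (inc (compList l)) ∧ SemiConjToral (compList l) := by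
  have hnn : ∀ i j, 0 ≤ M i j := by
    obtain ⟨τ, hτ⟩ := List.exists_mem_of_ne_nil l hne
    intro i j
    rw [← hl τ hτ]
    unfold inc
    positivity
  obtain ⟨r, w, η, hrw, hη, hη1, hL, -⟩ := long_of_loops hm hnn htri
    (by rcases hdet with h | h <;> rw [h] <;> norm_num) p hp hlt
  refine long_all hm hrw hη hη1 l hne fun τ hτ => ?_
  rw [hl τ hτ]
  exact ⟨hL, hdet⟩

/-- **Fixed short part.** -/
theorem short_all (hm : 1 ≤ m) (T : Matrix (Fin (m+1)) (Fin (m+1)) ℤ)
    (hnn : ∀ i j, 0 ≤ T i j) (htri : ∀ i j, i ≠ 0 → j ≠ 0 → i ≤ j → T i j = 0)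
    (V : Fin (m+1) → ℤ) (hV1 : ∀ k, k ≠ 0 → 1 ≤ V k)
    (hV : ∀ k, k ≠ 0 → T k 0 + ∑ j ∈ Finset.univ.erase 0, T k j * V j ≤ V k)
    (l : List (Fin (m+1) → List (Fin (m+1)))) (hne : l ≠ [])
    (hl : ∀ τ ∈ l, (∀ i j, i ≠ 0 → inc τ i j = T i j) ∧
      (∀ j, j ≠ 0 → (m + 1) * V j * inc τ 0 j + m ≤ inc τ 0 0) ∧
      ((inc τ).det = 1 ∨ (inc τ).det = -1)) :
    PisotMat (inc (compList l)) ∧ SemiConjToral (compList l) := by
  obtain ⟨r, w, η, hrw, hη, hη1, hL⟩ := long_of_short hm T hnn htri V hV1 hV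
  refine long_all hm hrw hη hη1 l hne fun τ hτ => ?_
  obtain ⟨h1, h2, h3⟩ := hl τ hτ
  exact ⟨hL _ h1 h2, h3⟩

/-- **The permanental criterion**, with the spectral data. -/
theorem perm_all (X : Fin (m+1) → Fin (m+1) → ℝ) (hX0 : ∀ i, X i i = 0)
    (hX : ∀ i j, i ≠ j → 0 < X i j) (θ : (Fin (m+1) → List (Fin (m+1))) → ℝ)
    (l : List (Fin (m+1) → List (Fin (m+1))))
    (hl : ∀ τ ∈ l, 0 ≤ θ τ ∧ ∀ i j, i ≠ j →
      ∑ k, ∑ k', (inc τ k i : ℝ) * (inc τ k' j : ℝ) * X k k' ≤ θ τ * X i j)
    (hM : PisotMat (inc (compList l))) (lam : ℝ) (ell : Fin (m+1) → ℝ) (hell : ∀ i, 0 < ell i)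
    (heig : ∀ j, ∑ i, ell i * (inc (compList l) i j : ℝ) = lam * ell j)
    (hΘ : (l.map θ).prod < lam) : SemiConjToral (compList l) := by
  obtain ⟨P⟩ := Pool.Agent.Q132.PC.exists_PD' (inc (compList l)) (fun i j => by unfold inc; positivity) hM
  have h1 := lam_unique P lam ell hell heig
  rw [h1] at hΘ
  refine permanental X hX0 hX θ l hl ?_ P hΘ
  rcases hM.2.1 with h | h <;> rw [h]
  · exact isUnit_one
  · exact isUnit_one.neg

/-- the determinant -/
theorem det_loop (T : Matrix (Fin (m+1)) (Fin (m+1)) ℤ)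
    (htri : ∀ i j, i ≠ 0 → j ≠ 0 → i ≤ j → T i j = 0) (hcyc : ∀ i, T (i + 1) i = 1) :
    T.det = 1 ∨ T.det = -1 := by
  have h1 := Matrix.det_permute (finRotate (m+1)) T
  have h2 : (T.submatrix (finRotate (m+1)) id).IsLowerTriangular := by
    intro i j hij
    have hij' : i < j := hij
    rw [Matrix.submatrix_apply, finRotate_apply]
    have hlt : (i : ℕ) < m := by
      have := j.2
      have : (i : ℕ) < j := hij'
      omega
    have hval : ((i + 1 : Fin (m+1)) : ℕ) = i + 1 := by
      rw [Fin.val_add_one_of_lt]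
      exact Fin.lt_def.2 (by simpa using hlt)
    refine htri _ _ ?_ ?_ ?_
    · intro h
      have := congrArg Fin.val h
      rw [hval] at this
      simp at this
    · intro h
      subst h
      exact absurd hij' (Fin.not_lt_zero i)
    · rw [Fin.le_def, hval]
      exact hij'
  rw [Matrix.det_of_isLowerTriangular _ h2] at h1
  have h3 : ∏ i, T.submatrix (finRotate (m+1)) id i i = 1 := by
    refine Finset.prod_eq_one fun i _ => ?_
    rw [Matrix.submatrix_apply, finRotate_apply]
    exact hcyc i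
  rw [h3] at h1
  rcases Int.units_eq_one_or (Equiv.Perm.sign (finRotate (m+1))) with h | h
  · left
    rw [h] at h1
    simpa using h1.symm
  · right
    rw [h] at h1
    push_cast at h1
    linarith

/-- `σ j` is an arrangement of `a j` letters `0` and the letter `j + 1` (only `a j` letters `0` if
`j = m` is the last letter) -/
def Companion (a : Fin (m+1) → ℕ) (σ : Fin (m+1) → List (Fin (m+1))) : Prop :=
  ∀ j : Fin (m+1), (σ j).Perm (List.replicate (a j) 0 ++ if (j : ℕ) < m then [j + 1] else [])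

theorem val_succ {j : Fin (m+1)} (h : (j : ℕ) < m) : ((j + 1 : Fin (m+1)) : ℕ) = j + 1 := by
  rw [Fin.val_add_one_of_lt]
  exact Fin.lt_def.2 (by simpa using h)

theorem Companion.row0 {a : Fin (m+1) → ℕ} {σ : Fin (m+1) → List (Fin (m+1))}
    (h : Companion a σ) (j : Fin (m+1)) : inc σ 0 j = a j := by
  unfold inc
  rw [(h j).count_eq, List.count_append, List.count_replicate_self]
  split_ifs with hj
  · have h1 : (j + 1 : Fin (m+1)) ≠ 0 := by
      intro h0
      have := congrArg Fin.val h0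
      rw [val_succ hj] at this
      simp at this
    rw [List.count_cons_of_ne h1, List.count_nil, Nat.add_zero]
  · rw [List.count_nil, Nat.add_zero]

/-- the short part of the matrix -/
def csh (i j : Fin (m+1)) : ℤ := if i ≠ 0 ∧ (i : ℕ) = (j : ℕ) + 1 then 1 else 0

theorem Companion.rowi {a : Fin (m+1) → ℕ} {σ : Fin (m+1) → List (Fin (m+1))}
    (h : Companion a σ) (i j : Fin (m+1)) (hi : i ≠ 0) : inc σ i j = csh i j := by
  unfold inc csh
  rw [(h j).count_eq, List.count_append, List.count_replicate, if_neg (by simpa using hi.symm)]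
  by_cases hj : (j : ℕ) < m
  · rw [if_pos hj]
    by_cases hij : (i : ℕ) = (j : ℕ) + 1
    · rw [if_pos ⟨hi, hij⟩]
      have h1 : i = j + 1 := Fin.ext (by rw [val_succ hj, hij])
      rw [h1]
      simp
    · rw [if_neg (fun h => hij h.2)]
      have h1 : j + 1 ≠ i := by
        intro h0
        exact hij (by rw [← h0, val_succ hj])
      rw [List.count_cons_of_ne h1]
      simp
  · rw [if_neg hj, if_neg]
    · simp
    · rintro ⟨-, h1⟩
      have := i.2
      omega

theorem csh_tri (i j : Fin (m+1)) (hi : i ≠ 0) (hj : j ≠ 0) (hij : i ≤ j) : csh i j = 0 := by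
  unfold csh
  rw [if_neg]
  rintro ⟨-, h1⟩
  have h2 : (i : ℕ) ≤ j := hij
  omega

theorem Companion.det {a : Fin (m+1) → ℕ} {σ : Fin (m+1) → List (Fin (m+1))}
    (h : Companion a σ) (ha : a (Fin.last m) = 1) : (inc σ).det = 1 ∨ (inc σ).det = -1 := by
  refine det_loop _ (fun i j hi hj hij => ?_) fun j => ?_
  · rw [h.rowi i j hi]
    exact csh_tri i j hi hj hij
  · by_cases hj : (j : ℕ) < m
    · have h1 : (j + 1 : Fin (m+1)) ≠ 0 := by
        intro h0
        have := congrArg Fin.val h0
        rw [val_succ hj] at this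
        simp at this
      rw [h.rowi _ _ h1]
      unfold csh
      rw [if_pos ⟨h1, val_succ hj⟩]
    · have h1 : j = Fin.last m := by
        refine Fin.ext ?_
        have := j.2
        simp
        omega
      rw [h1, Fin.last_add_one, h.row0, ha]
      rfl

/-- sum over the short part -/
theorem csh_sum (g : Fin (m+1) → ℤ) (j : Fin (m+1)) (s : Finset (Fin (m+1)))
    (hs : ∀ k : Fin (m+1), (k : ℕ) = (j : ℕ) + 1 → k ∈ s) :
    ∑ k ∈ s, g k * csh k j = if h : (j : ℕ) < m then g (j + 1) else 0 := by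
  split_ifs with hj
  · have h1 : (j + 1 : Fin (m+1)) ≠ 0 := by
      intro h0
      have := congrArg Fin.val h0
      rw [val_succ hj] at this
      simp at this
    rw [Finset.sum_eq_single (j + 1)]
    · unfold csh
      rw [if_pos ⟨h1, val_succ hj⟩, mul_one]
    · intro k _ hk
      unfold csh
      rw [if_neg, mul_zero]
      rintro ⟨-, h2⟩
      exact hk (Fin.ext (by rw [val_succ hj, h2]))
    · intro h2
      exact absurd (hs _ (val_succ hj)) h2
  · refine Finset.sum_eq_zero fun k _ => ?_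
    unfold csh
    rw [if_neg, mul_zero]
    rintro ⟨-, h2⟩
    have := k.2
    omega

/-- **Companion matrices**: one vector -/
theorem comp_loops (hm : 1 ≤ m) (a : Fin (m+1) → ℕ) (ha : a (Fin.last m) = 1)
    (hlt : ∑ k ∈ Finset.univ.erase 0, a k < a 0)
    (l : List (Fin (m+1) → List (Fin (m+1)))) (hne : l ≠ []) (hl : ∀ τ ∈ l, Companion a τ) :
    PisotMat (inc (compList l)) ∧ SemiConjToral (compList l) := by
  obtain ⟨τ₀, hτ₀⟩ := List.exists_mem_of_ne_nil l hne
  have hc := hl τ₀ hτ₀
  obtain ⟨p, hp⟩ : ∃ p : Fin (m+1) → ℤ,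
    p = fun j => ∑ k ∈ Finset.univ.filter (j ≤ ·), (a k : ℤ) := ⟨_, rfl⟩
  have hps : ∀ j : Fin (m+1), p j = a j + if h : (j : ℕ) < m then p (j + 1) else 0 := by
    intro j
    rw [hp]
    have h1 : Finset.univ.filter (j ≤ ·) = insert j (Finset.univ.filter (j < ·)) := by
      ext k
      simp only [Finset.mem_filter, Finset.mem_univ, true_and, Finset.mem_insert]
      rw [le_iff_lt_or_eq]
      constructor
      · rintro (h | h)
        · exact Or.inr h
        · exact Or.inl h.symm
      · rintro (h | h)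
        · exact Or.inr h.symm
        · exact Or.inl h
    simp only
    rw [h1, Finset.sum_insert (by simp)]
    congr 1
    split_ifs with hj
    · refine Finset.sum_congr ?_ fun _ _ => rfl
      ext k
      simp only [Finset.mem_filter, Finset.mem_univ, true_and]
      rw [Fin.lt_def, Fin.le_def, val_succ hj]
      omega
    · refine Finset.sum_eq_zero fun k hk => ?_
      exfalso
      have h2 : (j : ℕ) < k := (Finset.mem_filter.1 hk).2
      have := k.2
      omega
  refine loops_all hm (inc τ₀) (fun i j hi hj hij => ?_) (hc.det ha) p (fun j hj => ?_) ?_ l hne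
    fun τ hτ => ?_
  · rw [hc.rowi i j hi]
    exact csh_tri i j hi hj hij
  · rw [hc.row0, hps j]
    refine le_of_eq ?_
    congr 1
    rw [← csh_sum p j (Finset.univ.filter (j < ·))]
    · refine Finset.sum_congr rfl fun k hk => ?_
      rw [hc.rowi k j (filt_ne hk)]
    · intro k hk
      refine Finset.mem_filter.2 ⟨Finset.mem_univ _, ?_⟩
      rw [Fin.lt_def, hk]
      omega
  · have h1 : ∑ k ∈ Finset.univ.erase 0, p k * inc τ₀ k 0 =
        ∑ k ∈ Finset.univ.erase 0, (a k : ℤ) := by
      calc ∑ k ∈ Finset.univ.erase 0, p k * inc τ₀ k 0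
          = ∑ k ∈ Finset.univ.erase 0, p k * csh k 0 :=
            Finset.sum_congr rfl fun k hk => by rw [hc.rowi k 0 (Finset.ne_of_mem_erase hk)]
        _ = if h : ((0 : Fin (m+1)) : ℕ) < m then p (0 + 1) else 0 := by
            refine csh_sum p 0 _ fun k hk => ?_
            refine Finset.mem_erase.2 ⟨?_, Finset.mem_univ _⟩
            intro h
            rw [h] at hk
            simp at hk
        _ = _ := by
            have h0 : ((0 : Fin (m+1)) : ℕ) < m := by simp; omega
            rw [dif_pos h0, hp]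
            refine Finset.sum_congr ?_ fun _ _ => rfl
            ext k
            simp only [Finset.mem_filter, Finset.mem_univ, true_and, Finset.mem_erase, and_true]
            rw [Fin.le_def, val_succ h0]
            constructor
            · intro h hk
              rw [hk] at h
              simp at h
            · intro h
              have : (k : ℕ) ≠ 0 := fun h1 => h (Fin.ext h1)
              simp
              omega
    rw [h1, hc.row0]
    exact_mod_cast hlt
  · ext i j
    by_cases hi : i = 0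
    · rw [hi, (hl τ hτ).row0, hc.row0]
    · rw [(hl τ hτ).rowi i j hi, hc.rowi i j hi]

/-- **Companion matrices**: varying vectors -/
theorem comp_short (hm : 1 ≤ m) (l : List (Fin (m+1) → List (Fin (m+1)))) (hne : l ≠ [])
    (hl : ∀ τ ∈ l, ∃ a : Fin (m+1) → ℕ, Companion a τ ∧ a (Fin.last m) = 1 ∧
      ∀ j, j ≠ 0 → (m + 1) * a j + m ≤ a 0) :
    PisotMat (inc (compList l)) ∧ SemiConjToral (compList l) := by
  refine short_all hm (fun i j => csh i j) (fun i j => ?_) csh_tri (fun _ => 1) (fun _ _ => le_rfl)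
    (fun k hk => ?_) l hne fun τ hτ => ?_
  · simp only [csh]
    split_ifs <;> norm_num
  · simp only [mul_one]
    rw [Finset.add_sum_erase Finset.univ (fun j => csh k j) (Finset.mem_univ (0 : Fin (m+1)))]
    have hk0 : (k : ℕ) ≠ 0 := fun h => hk (Fin.ext h)
    have hk2 := k.2
    rw [Finset.sum_eq_single (⟨(k : ℕ) - 1, by omega⟩ : Fin (m+1))]
    · unfold csh
      split_ifs <;> norm_num
    · intro j _ hj
      unfold csh
      rw [if_neg]
      rintro ⟨-, h2⟩
      exact hj (Fin.ext (by simp only; omega))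
    · intro h
      exact absurd (Finset.mem_univ _) h
  · obtain ⟨a, hc, ha, hthr⟩ := hl τ hτ
    refine ⟨fun i j hi => hc.rowi i j hi, fun j hj => ?_, hc.det ha⟩
    rw [hc.row0, hc.row0, mul_one]
    exact_mod_cast hthr j hj

end Pool.Agent.Q132.PT
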