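import Pool.Agent.Q132.PT.Spec
import Pool.Agent.Q132.PC.PisAdm

/-!
Spectral data of a matrix with a cone and a contraction.
-/

set_option autoImplicit false

namespace Pool.Agent.Q132.PT
open Pool.Agent.H812R2.PI
open scoped BigOperators
variable {m : ℕ}

theorem stp_add (ell u x y : Fin (m+1) → ℝ) :
    stp ell u (x + y) = stp ell u x + stp ell u y := by
  funext k
  unfold stp
  simp only [Pi.add_apply, mul_add, Finset.sum_add_distrib]
  ring

theorem stp_neg (ell u x : Fin (m+1) → ℝ) : stp ell u (-x) = - stp ell u x := by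
  funext k
  unfold stp
  simp only [Pi.neg_apply, mul_neg, Finset.sum_neg_distrib]
  ring

theorem nw_neg (w x : Fin (m+1) → ℝ) : nw w (-x) = nw w x := by
  unfold nw
  simp only [Pi.neg_apply, abs_neg]

/-- Spectral data. -/
theorem exists_PD_of_Cp {r w : Fin (m+1) → ℝ} (hm : 1 ≤ m) (hrw : Wts r w) {κ : ℝ} (hκ : 0 ≤ κ)
    (hκ1 : κ < 1) {M : Matrix (Fin (m+1)) (Fin (m+1)) ℤ} (hnn : ∀ i j, 0 ≤ M i j)
    (hdet : M.det ≠ 0) (h : Cp r w κ M) : Nonempty (PD M) := by
  obtain ⟨ell, lam, E⟩ := exists_Eg hrw hκ hκ1 h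
  obtain ⟨u, hu, hMu⟩ := E.exists_right hm hrw hκ hκ1 hdet
  have hup := E.u_pos hm hrw hκ hκ1 hdet hnn hu hMu
  have hlp := E.ell_pos hrw hκ hκ1 hdet
  obtain ⟨S, hS⟩ : ∃ S : ℝ, S = ∑ i, u i := ⟨_, rfl⟩
  have hS0 : 0 < S := by
    rw [hS]
    exact Finset.sum_pos (fun i _ => hup i) ⟨0, Finset.mem_univ _⟩
  obtain ⟨K, hK⟩ : ∃ K, K = ∑ j, (1 + r j) / w j := ⟨_, rfl⟩
  have hK0 : 0 ≤ K := by
    rw [hK]
    exact Finset.sum_nonneg fun j _ => div_nonneg (by linarith [hrw.rp j]) (hrw.wn j)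
  obtain ⟨L, hL⟩ : ∃ L, L = ∑ j, ell j := ⟨_, rfl⟩
  have hL0 : 0 ≤ L := by rw [hL]; exact Finset.sum_nonneg fun j _ => (hlp j).le
  obtain ⟨W, hW⟩ : ∃ W, W = ∑ k, w k * (1 + L * u k) := ⟨_, rfl⟩
  have hW0 : 0 ≤ W := by
    rw [hW]
    exact Finset.sum_nonneg fun k _ => mul_nonneg (hrw.wn k)
      (by have := mul_nonneg hL0 (hup k).le; linarith)
  have husum : ∑ i, u i / S = 1 := by
    rw [← Finset.sum_div, ← hS, div_self hS0.ne']
  refine ⟨{
    lam := lam
    ell := ell
    u := fun i => u i / S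
    N := fun x => nw w (stp ell u x)
    rho := κ
    c := K * (m + 2) + W + 1
    lam_gt := E.lam_gt hm hrw hκ hκ1 hdet
    ell_pos := hlp
    u_pos := fun i => div_pos (hup i) hS0
    u_sum := husum
    ell_M := ?_
    M_u := ?_
    u_ind := ?_
    ell_ind := E.ell_ind hrw hκ hκ1 hdet
    c_pos := ?_
    rho_nonneg := hκ
    rho_lt := hκ1
    N_add := ?_
    N_neg := ?_
    N_nonneg := fun x => nw_nonneg hrw _
    N_act := ?_
    le_cN := ?_
    N_le := ?_ }⟩
  · intro j
    exact E.eig j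
  · intro i
    have h1 := congrFun hMu i
    unfold act at h1
    have h2 : ∀ j, (M i j : ℝ) * (u j / S) = (M i j : ℝ) * u j / S := fun j => by ring
    rw [Finset.sum_congr rfl fun j _ => h2 j, ← Finset.sum_div, h1]
    ring
  · intro v hv
    refine E.u_ind hrw hκ hκ1 hdet hu hMu v ?_
    have h2 : ∀ j, (v j : ℝ) * (u j / S) = (v j : ℝ) * u j / S := fun j => by ring
    rw [Finset.sum_congr rfl fun j _ => h2 j, ← Finset.sum_div] at hv
    rcases div_eq_zero_iff.1 hv with h | h
    · exact h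
    · exact absurd h hS0.ne'
  · have : 0 ≤ K * ((m : ℝ) + 2) := by positivity
    linarith
  · intro x y
    rw [stp_add]
    exact nw_add hrw _ _
  · intro x
    rw [stp_neg, nw_neg]
  · intro x
    rw [stp_act E hMu]
    exact E.con _ (stp_ker hu x)
  · intro x i
    have hz := stp_ker hu x
    obtain ⟨z, hzd⟩ : ∃ z, z = stp ell u x := ⟨_, rfl⟩
    obtain ⟨t, ht⟩ : ∃ t, t = ∑ j, ell j * x j := ⟨_, rfl⟩
    have hxz : ∀ k, x k = z k + t * u k := by
      intro k
      rw [hzd, ht]
      unfold stp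
      ring
    have hsum : ∑ j, x j = ∑ j, z j + t * S := by
      rw [Finset.sum_congr rfl fun j _ => hxz j, Finset.sum_add_distrib, ← Finset.mul_sum, ← hS]
    have heq : x i - (∑ j, x j) * (u i / S) = z i - (∑ j, z j) * (u i / S) := by
      rw [hsum, hxz i]
      field_simp
      ring
    rw [heq, ← hzd]
    have hc : ∀ k, |z k| ≤ K * nw w z := by
      intro k
      rw [hzd, hK]
      exact E.coord _ hz k
    have hN := nw_nonneg hrw z
    have hu1 : u i / S ≤ 1 := by
      rw [← husum]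
      exact Finset.single_le_sum (f := fun j => u j / S)
        (fun j _ => (div_pos (hup j) hS0).le) (Finset.mem_univ i)
    have hu0 : 0 ≤ u i / S := (div_pos (hup i) hS0).le
    have h1 : |∑ j, z j| ≤ (m + 1) * (K * nw w z) := by
      refine (Finset.abs_sum_le_sum_abs _ _).trans ?_
      refine (Finset.sum_le_sum fun j _ => hc j).trans ?_
      rw [Finset.sum_const, Finset.card_univ, Fintype.card_fin, nsmul_eq_mul]
      push_cast
      exact le_rfl
    have h2 : |z i - (∑ j, z j) * (u i / S)| ≤ |z i| + |∑ j, z j| * (u i / S) := by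
      refine (abs_sub _ _).trans ?_
      rw [abs_mul, abs_of_nonneg hu0]
    have h3 : |∑ j, z j| * (u i / S) ≤ (m + 1) * (K * nw w z) := by
      refine (mul_le_mul_of_nonneg_left hu1 (abs_nonneg _)).trans ?_
      rw [mul_one]
      exact h1
    have h4 := hc i
    have h5 : 0 ≤ W * nw w z := mul_nonneg hW0 hN
    nlinarith
  · intro x K' hx
    have hK'0 : 0 ≤ K' := (abs_nonneg _).trans (hx 0)
    obtain ⟨t, ht⟩ : ∃ t, t = ∑ j, x j := ⟨_, rfl⟩
    obtain ⟨y, hy⟩ : ∃ y : Fin (m+1) → ℝ, y = fun k => x k - t * (u k / S) := ⟨_, rfl⟩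
    have hyK : ∀ k, |y k| ≤ K' := by
      intro k
      rw [hy, ht]
      exact hx k
    have hl : ∑ j, ell j * y j = ∑ j, ell j * x j - t / S := by
      rw [hy]
      have h1 : ∀ k, ell k * (x k - t * (u k / S)) = ell k * x k - (t / S) * (ell k * u k) := by
        intro k
        ring
      rw [Finset.sum_congr rfl fun k _ => h1 k, Finset.sum_sub_distrib, ← Finset.mul_sum, hu,
        mul_one]
    have hst : stp ell u x = stp ell u y := by
      funext k
      unfold stp
      rw [hl, hy]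
      ring
    rw [hst]
    have hly : |∑ j, ell j * y j| ≤ L * K' := by
      refine (Finset.abs_sum_le_sum_abs _ _).trans ?_
      rw [hL, Finset.sum_mul]
      refine Finset.sum_le_sum fun j _ => ?_
      rw [abs_mul, abs_of_pos (hlp j)]
      exact mul_le_mul_of_nonneg_left (hyK j) (hlp j).le
    have h1 : nw w (stp ell u y) ≤ W * K' := by
      unfold nw
      rw [hW, Finset.sum_mul]
      refine Finset.sum_le_sum fun k _ => ?_
      rw [mul_assoc]
      refine mul_le_mul_of_nonneg_left ?_ (hrw.wn k)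
      unfold stp
      refine (abs_sub _ _).trans ?_
      rw [abs_mul, abs_of_pos (hup k)]
      have h2 := mul_le_mul_of_nonneg_right hly (hup k).le
      have h3 := hyK k
      nlinarith
    have h2 : 0 ≤ K * ((m : ℝ) + 2) * K' := by positivity
    nlinarith

end Pool.Agent.Q132.PT
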