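import Mathlib

set_option autoImplicit false

/-!
# Patterns of completely multiplicative functions with values in a finite group
-/

open Finset Filter Topology

namespace Q132.PT

/-- completely multiplicative functions with values in a group -/
def CMul {G : Type*} [CommGroup G] (f : ℕ → G) : Prop :=
  ∀ m n : ℕ, 1 ≤ m → 1 ≤ n → f (m * n) = f m * f n

/-- an ideal of negligible sets of integers, invariant under `m ↦ (m + t) / q` -/
structure Idl (I : Set ℕ → Prop) : Prop where
  empty : I ∅
  mono : ∀ s t : Set ℕ, s ⊆ t → I t → I s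
  union : ∀ s t : Set ℕ, I s → I t → I (s ∪ t)
  dil : ∀ (q t : ℕ) (s : Set ℕ), 1 ≤ q → I s → I {m | 1 ≤ m ∧ q ∣ m + t ∧ (m + t) / q ∈ s}

/-- the starting points `m ≥ 1` such that `f (m + a i) = w i` for all `i` -/
def occ {G α : Type*} (f : ℕ → G) (a : α → ℕ) (w : α → G) : Set ℕ :=
  {m | 1 ≤ m ∧ ∀ i, f (m + a i) = w i}

/-- all patterns on all finite subsets of `S` have a set of starting points which is not
negligible -/
def Full {G : Type*} (I : Set ℕ → Prop) (f : ℕ → G) (S : Set ℕ) : Prop :=
  ∀ A : Finset ℕ, (A : Set ℕ) ⊆ S → ∀ w : ℕ → G, ¬ I {m | 1 ≤ m ∧ ∀ a ∈ A, f (m + a) = w a}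

/-- the set of the patterns at the positions `a` which are not negligible -/
def pat {G α : Type*} (I : Set ℕ → Prop) (f : ℕ → G) (a : α → ℕ) : Set (α → G) :=
  {w | ¬ I (occ f a w)}

lemma idl_bUnion {I : Set ℕ → Prop} (hI : Idl I) {ι : Type*} (s : Finset ι) (E : ι → Set ℕ)
    (h : ∀ i ∈ s, I (E i)) : I (⋃ i ∈ s, E i) := by
  classical
  induction s using Finset.induction_on with
  | empty => simpa using hI.empty
  | insert i s hi ih =>
    rw [Finset.set_biUnion_insert]
    exact hI.union _ _ (h i (mem_insert_self _ _)) (ih fun j hj => h j (mem_insert_of_mem hj))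

section

variable {G : Type*} [CommGroup G] [Fintype G]
variable {β : Type*} [Fintype β]

/-- the positions of the blocks `t r l + q b`, `r < q`, `l < k` -/
def pos {q k : ℕ} (t : Fin q → Fin k → ℕ) (b : β → ℕ) : Fin q × Fin k × β → ℕ :=
  fun z => t z.1 z.2.1 + q * b z.2.2

omit [Fintype G] [Fintype β] in
lemma exists_row {f : ℕ → G} (hf : CMul f) {I : Set ℕ → Prop} (hI : Idl I) {q k : ℕ} (hq : 1 ≤ q)
    (t : Fin q → Fin k → ℕ) (ht : ∀ r l, t r l % q = r) (b : β → ℕ) (w : Fin q × Fin k × β → G)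
    (hw : ¬ I (occ f (pos t b) w)) :
    ∃ r : Fin q, ∀ l : Fin k, ¬ I (occ f b fun i => (f q)⁻¹ * w (r, l, i)) := by
  classical
  by_contra hc
  push Not at hc
  choose l hl using hc
  apply hw
  refine hI.mono _ (⋃ r ∈ (univ : Finset (Fin q)),
    {m | 1 ≤ m ∧ q ∣ m + t r (l r) ∧ (m + t r (l r)) / q ∈ occ f b fun i => (f q)⁻¹ * w (r, l r, i)}) ?_
    (idl_bUnion hI _ _ fun r _ => hI.dil q _ _ hq (hl r))
  rintro m ⟨hm, hmw⟩
  simp only [mem_univ, Set.iUnion_true, Set.mem_iUnion, Set.mem_ofPred_eq]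
  -- the row with `m + r ≡ 0`
  set r : Fin q := ⟨(q - m % q) % q, Nat.mod_lt _ (by omega)⟩ with hr
  have hdvd : q ∣ m + t r (l r) := by
    rw [Nat.dvd_iff_mod_eq_zero, Nat.add_mod, ht r (l r)]
    simp only [hr, Nat.add_mod_mod]
    have h1 : m % q < q := Nat.mod_lt _ (by omega)
    have h2 : m % q + (q - m % q) = q := by omega
    rw [h2, Nat.mod_self]
  refine ⟨r, hm, hdvd, ?_⟩
  obtain ⟨e, he⟩ := hdvd
  have he1 : 1 ≤ e := by
    rcases Nat.eq_zero_or_pos e with h | h
    · rw [h] at he
      omega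
    · exact h
  rw [he, Nat.mul_div_cancel_left _ hq]
  refine ⟨he1, fun i => ?_⟩
  show f (e + b i) = (f q)⁻¹ * w (r, l r, i)
  rw [← hmw (r, l r, i)]
  simp only [pos]
  rw [← add_assoc, he, ← mul_add, hf q _ hq (by omega), inv_mul_cancel_left]

/-- **the inequality for the number of patterns** -/
theorem card_pat_le {f : ℕ → G} (hf : CMul f) {I : Set ℕ → Prop} (hI : Idl I) {q k : ℕ} (hq : 1 ≤ q)
    (t : Fin q → Fin k → ℕ) (ht : ∀ r l, t r l % q = r) (b : β → ℕ) :
    (pat I f (pos t b)).ncard ≤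
      q * ((pat I f b).ncard ^ k * (Fintype.card G ^ Fintype.card β) ^ (k * (q - 1))) := by
  classical
  set P0 : Finset (β → G) := univ.filter fun v => ¬ I (occ f b v) with hP0
  have hP0c : (pat I f b).ncard = P0.card := by
    rw [← Set.ncard_coe_finset]
    congr 1
    ext v
    simp [hP0, pat]
  rw [hP0c]
  set P : Finset (β → G) := P0.image fun v i => f q * v i with hP
  set E : Fin q → Finset (Fin q × Fin k × β → G) := fun r =>
    (Fintype.piFinset fun r' : Fin q => if r' = r then Fintype.piFinset (fun _ : Fin k => P)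
      else (univ : Finset (Fin k → β → G))).image fun w z => w z.1 z.2.1 z.2.2 with hE
  have hsub : pat I f (pos t b) ⊆ ((univ.biUnion E : Finset (Fin q × Fin k × β → G)) : Set _) := by
    intro w hw
    obtain ⟨r, hr⟩ := exists_row hf hI hq t ht b w hw
    rw [mem_coe, mem_biUnion]
    refine ⟨r, mem_univ _, ?_⟩
    simp only [hE, mem_image]
    refine ⟨fun r' l i => w (r', l, i), ?_, by funext z; rfl⟩
    rw [Fintype.mem_piFinset]
    intro r'
    by_cases h : r' = r
    · rw [if_pos h, Fintype.mem_piFinset]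
      intro l
      rw [hP, mem_image]
      refine ⟨fun i => (f q)⁻¹ * w (r, l, i), ?_, ?_⟩
      · rw [hP0, mem_filter]
        exact ⟨mem_univ _, hr l⟩
      · funext i
        rw [h, mul_inv_cancel_left]
    · rw [if_neg h]
      exact mem_univ _
  have hcard : ∀ r, (E r).card ≤
      P0.card ^ k * (Fintype.card G ^ Fintype.card β) ^ (k * (q - 1)) := by
    intro r
    refine card_image_le.trans ?_
    rw [Fintype.card_piFinset]
    rw [← mul_prod_erase univ _ (mem_univ r), if_pos rfl, Fintype.card_piFinset]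
    refine Nat.mul_le_mul ?_ (le_of_eq ?_)
    · rw [prod_const, card_univ, Fintype.card_fin]
      exact Nat.pow_le_pow_left card_image_le _
    · rw [prod_congr rfl (g := fun _ => (Fintype.card G ^ Fintype.card β) ^ k) fun r' hr' => by
        rw [if_neg (ne_of_mem_erase hr'), card_univ, Fintype.card_fun, Fintype.card_fun,
          Fintype.card_fin]]
      rw [prod_const, card_erase_of_mem (mem_univ r), card_univ, Fintype.card_fin, ← pow_mul]
  have h1 := Set.ncard_le_ncard hsub (Finset.finite_toSet _)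
  rw [Set.ncard_coe_finset] at h1
  calc (pat I f (pos t b)).ncard ≤ (univ.biUnion E).card := h1
    _ ≤ ∑ r, (E r).card := card_biUnion_le
    _ ≤ ∑ _r : Fin q, P0.card ^ k * (Fintype.card G ^ Fintype.card β) ^ (k * (q - 1)) :=
        sum_le_sum fun r _ => hcard r
    _ = _ := by rw [sum_const, card_univ, Fintype.card_fin, smul_eq_mul]

/-- if all patterns occur at the positions of the blocks and there are enough blocks then all
patterns occur at `b` -/
theorem all_of_blocks {f : ℕ → G} (hf : CMul f) {I : Set ℕ → Prop} (hI : Idl I) {q k : ℕ}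
    (hq : 1 ≤ q) (t : Fin q → Fin k → ℕ) (ht : ∀ r l, t r l % q = r) (b : β → ℕ)
    (hk : q * (Fintype.card G ^ Fintype.card β - 1) ^ k < (Fintype.card G ^ Fintype.card β) ^ k)
    (h : ∀ w, ¬ I (occ f (pos t b) w)) (v : β → G) : ¬ I (occ f b v) := by
  classical
  intro hv
  have h1 := card_pat_le hf hI hq t ht b
  set N := Fintype.card G ^ Fintype.card β with hN
  have hN1 : 1 ≤ N := Nat.one_le_pow _ _ Fintype.card_pos
  have h2 : (pat I f b).ncard ≤ N - 1 := by
    have h3 : pat I f b ⊆ ((univ.erase v : Finset (β → G)) : Set (β → G)) := by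
      intro w hw
      rw [mem_coe, mem_erase]
      refine ⟨?_, mem_univ _⟩
      rintro rfl
      exact hw hv
    have h4 := Set.ncard_le_ncard h3 (Finset.finite_toSet _)
    rwa [Set.ncard_coe_finset, card_erase_of_mem (mem_univ _), card_univ, Fintype.card_fun] at h4
  have h3 : (pat I f (pos t b)).ncard = N ^ (k * q) := by
    have : pat I f (pos t b) = ((univ : Finset (Fin q × Fin k × β → G)) : Set _) := by
      ext w
      simp [pat, h w]
    rw [this, Set.ncard_coe_finset, card_univ, Fintype.card_fun, Fintype.card_prod,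
      Fintype.card_prod, Fintype.card_fin, Fintype.card_fin, hN, ← pow_mul]
    congr 1
    ring
  rw [h3] at h1
  have h4 : N ^ (k * q) = N ^ k * N ^ (k * (q - 1)) := by
    rw [← pow_add]
    congr 1
    obtain ⟨q', rfl⟩ : ∃ q', q = q' + 1 := ⟨q - 1, by omega⟩
    rw [Nat.add_sub_cancel]
    ring
  have h5 : q * ((pat I f b).ncard ^ k * N ^ (k * (q - 1))) ≤
      (q * (N - 1) ^ k) * N ^ (k * (q - 1)) := by
    rw [mul_assoc]
    exact Nat.mul_le_mul_left _ (Nat.mul_le_mul_right _ (Nat.pow_le_pow_left h2 _))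
  rw [h4] at h1
  have h6 : 0 < N ^ (k * (q - 1)) := by positivity
  have h7 := Nat.le_of_mul_le_mul_right (h1.trans h5) h6
  omega

end


end Q132.PT
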