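import Pool.Agent.Q132.PT.A

set_option autoImplicit false

/-!
# Ideals of negligible sets
-/

open Finset Filter Topology

namespace Q132.PT

lemma idl_empty : Idl fun s => s = ∅ where
  empty := rfl
  mono := fun s t h ht => by rw [ht] at h; exact Set.subset_empty_iff.1 h
  union := fun s t hs ht => by rw [hs, ht, Set.union_empty]
  dil := fun q t s _ hs => by
    rw [hs, Set.eq_empty_iff_forall_notMem]
    rintro m ⟨_, _, h⟩
    exact h

lemma idl_finite : Idl Set.Finite where
  empty := Set.finite_empty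
  mono := fun s t h ht => ht.subset h
  union := fun s t hs ht => hs.union ht
  dil := fun q t s hq hs => by
    refine (hs.image fun e => q * e - t).subset ?_
    rintro m ⟨_, ⟨e, he⟩, h⟩
    rw [he, Nat.mul_div_cancel_left _ hq] at h
    exact ⟨e, h, by simp only; omega⟩

open Classical in
/-- the sum of the weights of the elements of `s` up to `N` -/
noncomputable def wsum (w : ℕ → ℝ) (s : Set ℕ) (N : ℕ) : ℝ :=
  ∑ n ∈ Icc 1 N, if n ∈ s then w n else 0

/-- the sets of density zero with respect to the weight `w` and the normalisation `W` -/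
def Thin (w W : ℕ → ℝ) (s : Set ℕ) : Prop :=
  Tendsto (fun N => wsum w s N / W N) atTop (𝓝 0)

lemma wsum_nonneg {w : ℕ → ℝ} (hw : ∀ n, 0 ≤ w n) (s : Set ℕ) (N : ℕ) : 0 ≤ wsum w s N :=
  sum_nonneg fun n _ => by split_ifs <;> [exact hw n; exact le_rfl]

lemma wsum_mono {w : ℕ → ℝ} (hw : ∀ n, 0 ≤ w n) {s t : Set ℕ} (h : s ⊆ t) (N : ℕ) :
    wsum w s N ≤ wsum w t N := by
  refine sum_le_sum fun n _ => ?_
  by_cases hs : n ∈ s
  · rw [if_pos hs, if_pos (h hs)]
  · rw [if_neg hs]
    split_ifs <;> [exact hw n; exact le_rfl]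

lemma wsum_union {w : ℕ → ℝ} (hw : ∀ n, 0 ≤ w n) (s t : Set ℕ) (N : ℕ) :
    wsum w (s ∪ t) N ≤ wsum w s N + wsum w t N := by
  unfold wsum
  rw [← sum_add_distrib]
  refine sum_le_sum fun n _ => ?_
  have := hw n
  by_cases hs : n ∈ s <;> by_cases ht : n ∈ t <;> simp [hs, ht, this]

lemma wsum_add {w : ℕ → ℝ} (hw1 : ∀ n, w n ≤ 1) (s : Set ℕ) (N t : ℕ) :
    wsum w s (N + t) ≤ wsum w s N + t := by
  induction t with
  | zero => simp
  | succ t ih =>
    have h1 : wsum w s (N + (t + 1)) ≤ wsum w s (N + t) + 1 := by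
      unfold wsum
      rw [← add_assoc, sum_Icc_succ_top (by omega)]
      gcongr
      split_ifs <;> [exact hw1 _; exact zero_le_one]
    push_cast
    linarith

lemma wsum_dil {w : ℕ → ℝ} (hw : ∀ n, 0 ≤ w n)
    (hwd : ∀ q t m e : ℕ, 1 ≤ m → m + t = q * e → w m ≤ (1 + t) * w e) (q t : ℕ) (hq : 1 ≤ q)
    (s D : Set ℕ) (hD : ∀ m ∈ D, 1 ≤ m ∧ q ∣ m + t ∧ (m + t) / q ∈ s) (N : ℕ) :
    wsum w D N ≤ (1 + t) * wsum w s (N + t) := by
  classical
  unfold wsum
  rw [mul_sum]
  have h1 : ∀ n ∈ Icc 1 N, (if n ∈ D then w n else 0) ≤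
      if n ∈ D then (1 + t) * w ((n + t) / q) else 0 := by
    intro n _
    by_cases h : n ∈ D
    · rw [if_pos h, if_pos h]
      obtain ⟨hn, ⟨e, he⟩, _⟩ := hD n h
      rw [he, Nat.mul_div_cancel_left _ hq]
      exact hwd q t n e hn he
    · rw [if_neg h, if_neg h]
  refine (sum_le_sum h1).trans ?_
  rw [← sum_filter]
  have h2 : ∀ e ∈ Icc 1 (N + t), ((1 + t : ℝ)) * (if e ∈ s then w e else 0) =
      if e ∈ s then (1 + t) * w e else 0 := by
    intro e _
    split_ifs <;> simp
  rw [sum_congr rfl h2, ← sum_filter]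
  have hinj : Set.InjOn (fun n => (n + t) / q) ((Icc 1 N).filter fun n => n ∈ D : Finset ℕ) := by
    intro a ha b hb hab
    rw [mem_coe, mem_filter] at ha hb
    obtain ⟨_, ⟨e, he⟩, _⟩ := hD a ha.2
    obtain ⟨_, ⟨e', he'⟩, _⟩ := hD b hb.2
    simp only [he, he', Nat.mul_div_cancel_left _ hq] at hab
    rw [hab] at he
    omega
  rw [← sum_image (f := fun e => (1 + t : ℝ) * w e) hinj]
  refine sum_le_sum_of_subset_of_nonneg ?_ fun e _ _ => mul_nonneg (by positivity) (hw e)
  intro e he
  rw [mem_image] at he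
  obtain ⟨n, hn, rfl⟩ := he
  rw [mem_filter, mem_Icc] at hn
  obtain ⟨⟨hn1, hnN⟩, hnD⟩ := hn
  obtain ⟨_, ⟨e, he⟩, hs⟩ := hD n hnD
  rw [mem_filter, mem_Icc]
  refine ⟨⟨?_, ?_⟩, hs⟩
  · rw [he, Nat.mul_div_cancel_left _ hq]
    rcases Nat.eq_zero_or_pos e with h | h
    · rw [h] at he
      omega
    · exact h
  · exact (Nat.div_le_self _ _).trans (by omega)

lemma idl_thin {w W : ℕ → ℝ} (hw : ∀ n, 0 ≤ w n) (hw1 : ∀ n, w n ≤ 1)
    (hwd : ∀ q t m e : ℕ, 1 ≤ m → m + t = q * e → w m ≤ (1 + t) * w e)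
    (hW : Tendsto W atTop atTop) : Idl (Thin w W) where
  empty := by
    have : (fun N => wsum w ∅ N / W N) = fun _ => 0 := by
      funext N
      simp [wsum]
    rw [Thin, this]
    exact tendsto_const_nhds
  mono := fun s t h ht => by
    refine tendsto_of_tendsto_of_tendsto_of_le_of_le' tendsto_const_nhds ht ?_ ?_
    · filter_upwards [hW.eventually_gt_atTop 0] with N hN
      exact div_nonneg (wsum_nonneg hw _ _) hN.le
    · filter_upwards [hW.eventually_gt_atTop 0] with N hN
      exact div_le_div_of_nonneg_right (wsum_mono hw h N) hN.le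
  union := fun s t hs ht => by
    have h0 := hs.add ht
    rw [add_zero] at h0
    refine tendsto_of_tendsto_of_tendsto_of_le_of_le' tendsto_const_nhds h0 ?_ ?_
    · filter_upwards [hW.eventually_gt_atTop 0] with N hN
      exact div_nonneg (wsum_nonneg hw _ _) hN.le
    · filter_upwards [hW.eventually_gt_atTop 0] with N hN
      rw [← add_div]
      exact div_le_div_of_nonneg_right (wsum_union hw s t N) hN.le
  dil := fun q t s hq hs => by
    have h0 : Tendsto (fun N => (1 + t : ℝ) * (wsum w s N / W N + t / W N)) atTop (𝓝 0) := by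
      have := (hs.add (Tendsto.div_atTop (tendsto_const_nhds (x := (t : ℝ))) hW)).const_mul (1 + t : ℝ)
      simpa using this
    refine tendsto_of_tendsto_of_tendsto_of_le_of_le' tendsto_const_nhds h0 ?_ ?_
    · filter_upwards [hW.eventually_gt_atTop 0] with N hN
      exact div_nonneg (wsum_nonneg hw _ _) hN.le
    · filter_upwards [hW.eventually_gt_atTop 0] with N hN
      rw [← add_div, ← mul_div_assoc]
      refine div_le_div_of_nonneg_right ((wsum_dil hw hwd q t hq s _ (fun m hm => hm) N).trans ?_) hN.le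
      exact mul_le_mul_of_nonneg_left (wsum_add hw1 s N t) (by positivity)

/-- natural density zero -/
lemma idl_nat : Idl (Thin (fun _ => 1) fun N => N) :=
  idl_thin (fun _ => zero_le_one) (fun _ => le_rfl) (fun q t m e _ _ => by
    have : (0 : ℝ) ≤ t := Nat.cast_nonneg t
    linarith) tendsto_natCast_atTop_atTop

/-- logarithmic density zero -/
lemma idl_log : Idl (Thin (fun n => (n : ℝ)⁻¹) fun N => Real.log N) :=
  idl_thin (fun n => by positivity) (fun n => Nat.cast_inv_le_one n) (fun q t m e hm h => by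
    have hm0 : (0 : ℝ) < m := by exact_mod_cast hm
    have he : 1 ≤ e := by
      rcases Nat.eq_zero_or_pos e with h' | h'
      · rw [h'] at h
        omega
      · exact h'
    have hq : 1 ≤ q := by
      rcases Nat.eq_zero_or_pos q with h' | h'
      · rw [h'] at h
        omega
      · exact h'
    have he0 : (0 : ℝ) < e := by exact_mod_cast he
    rw [← div_eq_mul_inv, inv_eq_one_div, div_le_div_iff₀ hm0 he0, one_mul]
    have h1 : e ≤ m + t := by
      rw [h]
      exact Nat.le_mul_of_pos_left e hq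
    have h2 : (e : ℝ) ≤ m + t := by exact_mod_cast h1
    have hm1 : (1 : ℝ) ≤ m := by exact_mod_cast hm
    have ht : (0 : ℝ) ≤ t := Nat.cast_nonneg t
    nlinarith) (Real.tendsto_log_atTop.comp tendsto_natCast_atTop_atTop)

end Q132.PT
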