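import Mathlib

set_option autoImplicit false

/-!
# Locally sparse sets which contain many blocks with given residues
-/

open Finset Filter Topology

namespace Q132.PT

/-- the first elements of the blocks -/
def TT (d L r Φ : ℕ → ℕ) : ℕ → ℕ
  | 0 => d 0 * Φ 0 + r 0
  | K + 1 => d (K + 1) * (2 * (TT d L r Φ K + d K * L K) + K + 1 + Φ (K + 1)) + r (K + 1)

/-- the union of the blocks -/
def SS (d L r Φ : ℕ → ℕ) : Set ℕ := {s | ∃ K, ∃ i < L K, s = TT d L r Φ K + d K * i}

section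

variable {d L r Φ : ℕ → ℕ} (hd : ∀ K, 1 ≤ d K)

include hd

lemma TT_step (K : ℕ) : 2 * (TT d L r Φ K + d K * L K) + K + 1 ≤ TT d L r Φ (K + 1) := by
  rw [TT]
  have h1 := Nat.le_mul_of_pos_left (2 * (TT d L r Φ K + d K * L K) + K + 1 + Φ (K + 1)) (hd (K + 1))
  omega

lemma TT_mono : StrictMono (TT d L r Φ) :=
  strictMono_nat_of_lt_succ fun K => by have := TT_step (L := L) (r := r) (Φ := Φ) hd K; omega

lemma TT_gap {K K' : ℕ} (h : K < K') :
    2 * (TT d L r Φ K + d K * L K) + K + 1 ≤ TT d L r Φ K' :=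
  (TT_step hd K).trans ((TT_mono hd).monotone h)

lemma le_TT (K : ℕ) : K ≤ TT d L r Φ K := (TT_mono hd).id_le K

lemma Phi_le (K : ℕ) : Φ K ≤ TT d L r Φ K := by
  cases K with
  | zero =>
    rw [TT]
    have := Nat.le_mul_of_pos_left (Φ 0) (hd 0)
    omega
  | succ K =>
    rw [TT]
    have h1 := Nat.le_mul_of_pos_left (2 * (TT d L r Φ K + d K * L K) + K + 1 + Φ (K + 1)) (hd (K + 1))
    omega

omit hd in
lemma TT_mod (hr : ∀ K, r K < d K) (K : ℕ) : TT d L r Φ K % d K = r K := by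
  cases K with
  | zero => rw [TT, Nat.mul_add_mod, Nat.mod_eq_of_lt (hr 0)]
  | succ K => rw [TT, Nat.mul_add_mod, Nat.mod_eq_of_lt (hr (K + 1))]

lemma lt_end {K i : ℕ} (hi : i < L K) : TT d L r Φ K + d K * i < TT d L r Φ K + d K * L K := by
  have := Nat.mul_lt_mul_of_pos_left hi (hd K)
  omega

lemma block_lt {K K' i : ℕ} (h : K < K') (hi : i < L K) (i' : ℕ) :
    2 * (TT d L r Φ K + d K * i) + K + 1 < TT d L r Φ K' + d K' * i' := by
  have h1 := TT_gap (L := L) (r := r) (Φ := Φ) hd h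
  have h2 := lt_end (r := r) (Φ := Φ) hd hi
  omega

theorem sparse {ω ws : ℕ → ℕ} (hws : ∀ C y, ws C ≤ y → C ≤ ω y)
    (hΦ : ∀ K, 2 * ws (∑ k ∈ range (K + 1), L k) ≤ Φ K) (hL : ∀ K, ws (L K) ≤ d K) (x y : ℕ) :
    (SS d L r Φ ∩ Set.Ico x (x + y)).ncard ≤ max 1 (ω y) := by
  classical
  set B := SS d L r Φ ∩ Set.Ico x (x + y) with hB
  have hBf : B.Finite := (Set.finite_Ico x (x + y)).subset Set.inter_subset_right
  by_cases hne : B.Nonempty
  swap
  · rw [Set.not_nonempty_iff_eq_empty.1 hne]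
    simp
  -- the last block
  set Q : ℕ → Prop := fun K => ∃ i < L K, TT d L r Φ K + d K * i ∈ B with hQ
  have hQb : ∀ K, Q K → K ≤ x + y := by
    rintro K ⟨i, _, hi⟩
    have h1 := le_TT (L := L) (r := r) (Φ := Φ) hd K
    have h2 := hi.2.2
    omega
  set K1 := Nat.findGreatest Q (x + y) with hK1
  have hQ1 : Q K1 := by
    obtain ⟨s, ⟨K, i, hi, rfl⟩, hs⟩ := hne
    have hQK : Q K := ⟨i, hi, ⟨K, i, hi, rfl⟩, hs⟩
    exact Nat.findGreatest_spec (P := Q) (hQb K hQK) hQK
  have hmax : ∀ K, Q K → K ≤ K1 := fun K hK => Nat.le_findGreatest (hQb K hK) hK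
  obtain ⟨i1, hi1, hs1⟩ := hQ1
  by_cases hA : ∃ K < K1, Q K
  · obtain ⟨K, hK, i, hi, hs⟩ := hA
    have h1 := block_lt (r := r) (Φ := Φ) hd hK hi i1
    have h3 := hs1.2.2
    have h4 := hs.2.1
    have h5 := block_lt (r := r) (Φ := Φ) hd hK hi 0
    have h6 := Phi_le (L := L) (r := r) (Φ := Φ) hd K1
    have h7 := hΦ K1
    have h8 : ws (∑ k ∈ range (K1 + 1), L k) ≤ y := by omega
    have h9 := hws _ _ h8
    have hsub : B ⊆ (((range (K1 + 1)).sigma fun k => range (L k)).image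
        (fun z : (_ : ℕ) × ℕ => TT d L r Φ z.1 + d z.1 * z.2) : Finset ℕ) := by
      rintro s ⟨⟨K', i', hi', rfl⟩, hs'⟩
      refine mem_coe.2 (mem_image.2 ⟨⟨K', i'⟩, ?_, rfl⟩)
      rw [mem_sigma]
      exact ⟨mem_range.2 (Nat.lt_succ_of_le (hmax K' ⟨i', hi', ⟨K', i', hi', rfl⟩, hs'⟩)),
        mem_range.2 hi'⟩
    have h10 := Set.ncard_le_ncard hsub (Finset.finite_toSet _)
    rw [Set.ncard_coe_finset] at h10
    have h11 := h10.trans card_image_le
    rw [card_sigma] at h11
    simp only [card_range] at h11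
    omega
  · push Not at hA
    have hall : ∀ s ∈ B, ∃ i < L K1, s = TT d L r Φ K1 + d K1 * i := by
      rintro s ⟨⟨K', i', hi', rfl⟩, hs'⟩
      have hQK : Q K' := ⟨i', hi', ⟨K', i', hi', rfl⟩, hs'⟩
      have hle := hmax K' hQK
      have : K' = K1 := by
        rcases Nat.lt_or_ge K' K1 with h | h
        · exact absurd hQK (hA K' h)
        · omega
      subst this
      exact ⟨i', hi', rfl⟩
    by_cases h1 : B.ncard ≤ 1
    · omega
    · push Not at h1
      obtain ⟨s, hs, s', hs', hne'⟩ := (Set.one_lt_ncard hBf).1 h1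
      obtain ⟨i, hi, hsi⟩ := hall s hs
      obtain ⟨i', hi', hsi'⟩ := hall s' hs'
      have hdy : d K1 ≤ y := by
        have e1 := hs.2.1
        have e2 := hs.2.2
        have e3 := hs'.2.1
        have e4 := hs'.2.2
        rcases lt_trichotomy i i' with h | h | h
        · have := Nat.mul_le_mul_left (d K1) (Nat.succ_le_of_lt h)
          rw [Nat.mul_succ] at this
          omega
        · subst h
          exact absurd (hsi.trans hsi'.symm) hne'
        · have := Nat.mul_le_mul_left (d K1) (Nat.succ_le_of_lt h)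
          rw [Nat.mul_succ] at this
          omega
      have h9 := hws _ _ ((hL K1).trans hdy)
      have hsub : B ⊆ ((range (L K1)).image fun i => TT d L r Φ K1 + d K1 * i : Finset ℕ) := by
        intro s hs
        obtain ⟨i, hi, rfl⟩ := hall s hs
        exact mem_coe.2 (mem_image.2 ⟨i, mem_range.2 hi, rfl⟩)
      have h10 := Set.ncard_le_ncard hsub (Finset.finite_toSet _)
      rw [Set.ncard_coe_finset] at h10
      have h11 := h10.trans card_image_le
      rw [card_range] at h11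
      omega

theorem gaps (hfin : ∀ D, {K | 1 ≤ L K ∧ d K ≤ D}.Finite) (D : ℕ) :
    {s | s ∈ SS d L r Φ ∧ ∃ s' ∈ SS d L r Φ, s < s' ∧ s' ≤ s + D}.Finite := by
  classical
  have hsub : {s | s ∈ SS d L r Φ ∧ ∃ s' ∈ SS d L r Φ, s < s' ∧ s' ≤ s + D} ⊆
      ((((hfin D).toFinset ∪ range D).sigma fun k => range (L k)).image
        (fun z : (_ : ℕ) × ℕ => TT d L r Φ z.1 + d z.1 * z.2) : Finset ℕ) := by
    rintro s ⟨⟨K, i, hi, hs⟩, s', ⟨K', i', hi', hs'⟩, hlt, hle⟩
    refine mem_coe.2 (mem_image.2 ⟨⟨K, i⟩, ?_, hs.symm⟩)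
    rw [mem_sigma, mem_union, mem_range, mem_range, Set.Finite.mem_toFinset, Set.mem_ofPred_eq]
    refine ⟨?_, hi⟩
    simp only
    rcases lt_trichotomy K K' with h | h | h
    · have := block_lt (r := r) (Φ := Φ) hd h hi i'
      omega
    · subst h
      have h2 : i < i' := by
        by_contra hc
        push Not at hc
        have := Nat.mul_le_mul_left (d K) hc
        omega
      have h3 := Nat.mul_le_mul_left (d K) (Nat.succ_le_of_lt h2)
      rw [Nat.mul_succ] at h3
      left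
      omega
    · have := block_lt (r := r) (Φ := Φ) hd h hi' i
      omega
  exact (Finset.finite_toSet _).subset hsub

end

/-- **locally sparse sets with all the blocks** -/
theorem exists_sparse (ω : ℕ → ℕ) (hω : Tendsto ω atTop atTop) :
    ∃ S : Set ℕ, S.Infinite ∧ (∀ x y, (S ∩ Set.Ico x (x + y)).ncard ≤ max 1 (ω y)) ∧
      (∀ D, {s | s ∈ S ∧ ∃ s' ∈ S, s < s' ∧ s' ≤ s + D}.Finite) ∧
      ∀ i : ℕ, ∃ (q k : ℕ) (t : Fin q → Fin k → ℕ), 1 ≤ q ∧ q * i ^ k < (i + 1) ^ k ∧
        (∀ r l, t r l % q = r) ∧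
        (∀ z : Fin q × Fin k × Fin (i + 1), t z.1 z.2.1 + q * z.2.2 ∈ S) ∧
        Function.Injective fun z : Fin q × Fin k × Fin (i + 1) => t z.1 z.2.1 + q * z.2.2 := by
  classical
  have hws : ∀ C, ∃ w, ∀ y, w ≤ y → C ≤ ω y := fun C => by
    obtain ⟨w, hw⟩ := eventually_atTop.1 (hω.eventually_ge_atTop C)
    exact ⟨w, hw⟩
  choose ws hws using hws
  set q : ℕ → ℕ := fun i => ws (i + 1) + ws 0 + i + 1 with hq
  have hk : ∀ i, ∃ k, q i * i ^ k < (i + 1) ^ k := by
    intro i
    rcases Nat.eq_zero_or_pos i with h | h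
    · exact ⟨1, by simp [h]⟩
    · have hi : (0 : ℝ) < i := by exact_mod_cast h
      have h1 : (1 : ℝ) < (i + 1) / i := by
        rw [lt_div_iff₀ hi]
        linarith
      obtain ⟨k, hk⟩ := pow_unbounded_of_one_lt (q i : ℝ) h1
      refine ⟨k, ?_⟩
      rw [div_pow, lt_div_iff₀ (pow_pos hi k)] at hk
      exact_mod_cast hk
  choose k hk using hk
  set L : ℕ → ℕ := fun K => if (Nat.unpair K).2 < q (Nat.unpair K).1 * k (Nat.unpair K).1
    then (Nat.unpair K).1 + 1 else 0 with hL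
  set d : ℕ → ℕ := fun K => q (Nat.unpair K).1 with hd
  set r : ℕ → ℕ := fun K => (Nat.unpair K).2 % q (Nat.unpair K).1 with hr
  set Φ : ℕ → ℕ := fun K => 2 * ws (∑ k ∈ range (K + 1), L k) with hΦ
  have hd1 : ∀ K, 1 ≤ d K := fun K => by simp only [hd, hq]; omega
  have hrd : ∀ K, r K < d K := fun K => Nat.mod_lt _ (hd1 K)
  have hfin : ∀ D, {K | 1 ≤ L K ∧ d K ≤ D}.Finite := by
    intro D
    refine (((range D).sigma fun i => range (q i * k i)).image
      fun z : (_ : ℕ) × ℕ => Nat.pair z.1 z.2).finite_toSet.subset ?_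
    rintro K ⟨h1, h2⟩
    rw [mem_coe, mem_image]
    refine ⟨⟨(Nat.unpair K).1, (Nat.unpair K).2⟩, ?_, Nat.pair_unpair K⟩
    rw [mem_sigma, mem_range, mem_range]
    simp only [hL] at h1
    by_cases hc : (Nat.unpair K).2 < q (Nat.unpair K).1 * k (Nat.unpair K).1
    · refine ⟨?_, hc⟩
      simp only [hd, hq] at h2
      simp only
      omega
    · rw [if_neg hc] at h1
      omega
  have hk0 : ∀ i, 1 ≤ k i := by
    intro i
    by_contra hc
    have h0 : k i = 0 := by omega
    have := hk i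
    rw [h0, pow_zero, pow_zero] at this
    simp only [hq] at this
    omega
  have hblock : ∀ i, ∀ r' < q i, ∀ l < k i, L (Nat.pair i (r' + q i * l)) = i + 1 := by
    intro i r' hr' l hl
    simp only [hL, Nat.unpair_pair]
    rw [if_pos]
    have := Nat.mul_le_mul_left (q i) (Nat.succ_le_of_lt hl)
    rw [Nat.mul_succ] at this
    omega
  refine ⟨SS d L r Φ, ?_, fun x y => sparse hd1 hws (fun K => le_rfl) (fun K => ?_) x y,
    gaps hd1 hfin, fun i => ⟨q i, k i, fun r' l => TT d L r Φ (Nat.pair i (r' + q i * l)), ?_, hk i,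
      fun r' l => ?_, fun z => ?_, ?_⟩⟩
  · -- infinite
    refine Set.infinite_of_injective_forall_mem (f := fun i => TT d L r Φ (Nat.pair i 0))
      (fun a b hab => ?_) fun i => ⟨Nat.pair i 0, 0, ?_, by ring⟩
    · have h1 := (TT_mono (L := L) (r := r) (Φ := Φ) hd1).injective hab
      have h2 := congrArg (fun z => (Nat.unpair z).1) h1
      simpa using h2
    · have := hblock i 0 (by simp only [hq]; omega) 0 (hk0 i)
      rw [mul_zero, add_zero] at this
      omega
  · simp only [hL, hd, hq]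
    split_ifs <;> omega
  · simp only [hq]
    omega
  · have h1 := TT_mod (L := L) (Φ := Φ) hrd (Nat.pair i (r' + q i * l))
    simp only [hd, hr, Nat.unpair_pair] at h1 ⊢
    rw [h1, Nat.add_mul_mod_self_left, Nat.mod_eq_of_lt r'.2]
  · refine ⟨Nat.pair i (z.1 + q i * z.2.1), z.2.2, ?_, ?_⟩
    · rw [hblock i _ z.1.2 _ z.2.1.2]
      exact z.2.2.2
    · simp only [hd, Nat.unpair_pair]
  · rintro ⟨r1, l1, i1⟩ ⟨r2, l2, i2⟩ h
    simp only at h
    have hdd : ∀ j, d (Nat.pair i j) = q i := fun j => by simp only [hd, Nat.unpair_pair]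
    rcases lt_trichotomy (Nat.pair i (r1 + q i * l1)) (Nat.pair i (r2 + q i * l2)) with hlt | heq | hlt
    · have h0 : (i1 : ℕ) < L (Nat.pair i (r1 + q i * l1)) := by
        rw [hblock i _ r1.2 _ l1.2]
        exact i1.2
      have h1 := block_lt (r := r) (Φ := Φ) hd1 hlt h0 i2
      rw [hdd, hdd] at h1
      omega
    · rw [heq] at h
      have h1 : q i * (i1 : ℕ) = q i * i2 := by omega
      have hq0 : 0 < q i := by simp only [hq]; omega
      have h2 := Nat.eq_of_mul_eq_mul_left hq0 h1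
      have h3 : (r1 : ℕ) + q i * l1 = r2 + q i * l2 := by
        have := congrArg (fun z => (Nat.unpair z).2) heq
        simpa using this
      have h4 : (r1 : ℕ) = r2 := by
        have := congrArg (· % q i) h3
        simp only [Nat.add_mul_mod_self_left, Nat.mod_eq_of_lt r1.2, Nat.mod_eq_of_lt r2.2] at this
        exact this
      have h5 : (l1 : ℕ) = l2 := by
        have h6 : q i * (l1 : ℕ) = q i * l2 := by omega
        exact Nat.eq_of_mul_eq_mul_left hq0 h6
      rw [Fin.ext h4, Fin.ext h5, Fin.ext h2]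
    · have h0 : (i2 : ℕ) < L (Nat.pair i (r2 + q i * l2)) := by
        rw [hblock i _ r2.2 _ l2.2]
        exact i2.2
      have h1 := block_lt (r := r) (Φ := Φ) hd1 hlt h0 i1
      rw [hdd, hdd] at h1
      omega

end Q132.PT
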