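import Pool.Agent.Q132.PT.A

set_option autoImplicit false

/-!
# From patterns on a sparse set to all patterns
-/

open Finset Filter Topology

namespace Q132.PT

/-- `S` contains, for every `i`, enough blocks `t r l + q {0, …, i}` with `t r l ≡ r mod q` -/
def Rich (S : Set ℕ) : Prop :=
  ∀ i : ℕ, ∃ (q k : ℕ) (t : Fin q → Fin k → ℕ), 1 ≤ q ∧ q * i ^ k < (i + 1) ^ k ∧
    (∀ r l, t r l % q = r) ∧
    (∀ z : Fin q × Fin k × Fin (i + 1), t z.1 z.2.1 + q * z.2.2 ∈ S) ∧
    Function.Injective fun z : Fin q × Fin k × Fin (i + 1) => t z.1 z.2.1 + q * z.2.2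

lemma not_occ_of_full {G : Type*} [CommGroup G] {α : Type*} [Fintype α] {I : Set ℕ → Prop}
    (hI : Idl I) {f : ℕ → G} {S : Set ℕ} (h : Full I f S) (a : α → ℕ) (ha : Function.Injective a)
    (haS : ∀ i, a i ∈ S) (w : α → G) : ¬ I (occ f a w) := by
  classical
  have h1 := h (univ.image a) (by
    intro s hs
    rw [mem_coe, mem_image] at hs
    obtain ⟨i, _, rfl⟩ := hs
    exact haS i) (Function.extend a w 1)
  refine fun hc => h1 (hI.mono _ _ ?_ hc)
  rintro m ⟨hm, hw⟩
  refine ⟨hm, fun i => ?_⟩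
  rw [hw (a i) (mem_image_of_mem _ (mem_univ i)), ha.extend_apply]

theorem full_of_rich {G : Type*} [CommGroup G] [Fintype G] {I : Set ℕ → Prop} (hI : Idl I)
    {f : ℕ → G} (hf : CMul f) {S : Set ℕ} (hS : Rich S) (h : Full I f S) : Full I f Set.univ := by
  classical
  intro A _ w hc
  set n := A.sup id + 1 with hn
  have hA : ∀ a ∈ A, a < n := fun a ha => Nat.lt_succ_of_le (le_sup (f := id) ha)
  set N := Fintype.card G ^ n with hN
  have hN1 : 1 ≤ N := Nat.one_le_pow _ _ Fintype.card_pos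
  obtain ⟨q, k, t, hq, hk, ht, htS, htinj⟩ := hS (n + N)
  set b : Fin n → ℕ := fun i => i with hb
  have hk1 : q * (Fintype.card G ^ Fintype.card (Fin n) - 1) ^ k <
      (Fintype.card G ^ Fintype.card (Fin n)) ^ k := by
    rw [Fintype.card_fin, ← hN]
    set i := n + N with hi
    have h1 : (N - 1) * (i + 1) ≤ N * i := by
      obtain ⟨M, hM⟩ : ∃ M, N = M + 1 := ⟨N - 1, by omega⟩
      rw [hM, Nat.add_sub_cancel]
      have : M ≤ i := by omega
      nlinarith
    have h2 := Nat.pow_le_pow_left h1 k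
    rw [mul_pow, mul_pow] at h2
    have h3 : q * (N - 1) ^ k * (i + 1) ^ k < N ^ k * (i + 1) ^ k := by
      calc q * (N - 1) ^ k * (i + 1) ^ k = q * ((N - 1) ^ k * (i + 1) ^ k) := by ring
        _ ≤ q * (N ^ k * i ^ k) := Nat.mul_le_mul_left _ h2
        _ = N ^ k * (q * i ^ k) := by ring
        _ < N ^ k * (i + 1) ^ k := Nat.mul_lt_mul_of_pos_left hk (by positivity)
    exact Nat.lt_of_mul_lt_mul_right h3
  have hle : n ≤ n + N + 1 := by omega
  refine all_of_blocks hf hI hq t ht b hk1 (fun w' => ?_) (fun i => w i) (hI.mono _ _ ?_ hc)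
  · refine not_occ_of_full hI h (pos t b) ?_ ?_ w'
    · rintro ⟨r1, l1, i1⟩ ⟨r2, l2, i2⟩ h12
      have := @htinj (r1, l1, Fin.castLE hle i1) (r2, l2, Fin.castLE hle i2) h12
      simp only [Prod.mk.injEq] at this
      rw [this.1, this.2.1, Fin.castLE_injective hle this.2.2]
    · rintro ⟨r1, l1, i1⟩
      exact htS (r1, l1, Fin.castLE hle i1)
  · rintro m ⟨hm, hw⟩
    exact ⟨hm, fun a ha => hw ⟨a, hA a ha⟩⟩

lemma full_mono {G : Type*} {I : Set ℕ → Prop} {f : ℕ → G} {S T : Set ℕ} (h : S ⊆ T)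
    (hT : Full I f T) : Full I f S := fun A hA w => hT A (hA.trans h) w

end Q132.PT
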