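import Pool.Agent.Q132.PT.Crit

/-!
Matrices with a long letter.
-/

set_option autoImplicit false

namespace Pool.Agent.Q132.PT
open Pool.Agent.H812R2.PI
open scoped BigOperators
variable {m : ℕ}

/-- weights for a long letter `0` -/
structure Wts (r w : Fin (m+1) → ℝ) : Prop where
  r0 : r 0 = 1
  w0 : w 0 = 0
  rpos : ∀ j, j ≠ 0 → 0 < r j
  wpos : ∀ j, j ≠ 0 → 0 < w j

/-- the conditions on the matrix -/
structure Long (r w : Fin (m+1) → ℝ) (η : ℝ) (M : Matrix (Fin (m+1)) (Fin (m+1)) ℤ) : Prop where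
  ratio : ∀ j, j ≠ 0 → ∑ k, r k * (M k j : ℝ) ≤ r j * (M 0 0 : ℝ)
  contr : ∀ j, j ≠ 0 → ∑ k, w k * ((M k j : ℝ) + r j * (M k 0 : ℝ)) ≤ η * w j

theorem Wts.rp {r w : Fin (m+1) → ℝ} (h : Wts r w) (j : Fin (m+1)) : 0 < r j := by
  by_cases hj : j = 0
  · rw [hj, h.r0]; exact one_pos
  · exact h.rpos j hj

theorem Wts.wn {r w : Fin (m+1) → ℝ} (h : Wts r w) (j : Fin (m+1)) : 0 ≤ w j := by
  by_cases hj : j = 0
  · rw [hj, h.w0]
  · exact (h.wpos j hj).le

theorem inc_nn (τ : Fin (m+1) → List (Fin (m+1))) (i j : Fin (m+1)) : (0:ℝ) ≤ (inc τ i j : ℝ) := by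
  unfold inc
  positivity

/-- the long letter occurs in its image -/
theorem long_corner (hm : 1 ≤ m) {r w : Fin (m+1) → ℝ} (hrw : Wts r w) {η : ℝ}
    {M : Matrix (Fin (m+1)) (Fin (m+1)) ℤ} (hnn : ∀ i j, 0 ≤ M i j) (h : Long r w η M)
    (hdet : M.det ≠ 0) : 1 ≤ M 0 0 := by
  by_contra hcon
  have h0 : M 0 0 = 0 := le_antisymm (by omega) (hnn 0 0)
  obtain ⟨j, hj⟩ : ∃ j : Fin (m+1), j ≠ 0 := ⟨Fin.last m, by
    intro h; have := congrArg Fin.val h; simp at this; omega⟩
  have h1 := h.ratio j hj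
  rw [h0] at h1
  simp only [Int.cast_zero, mul_zero] at h1
  have h2 : ∀ k, M k j = 0 := by
    intro k
    have h3 : ∀ k ∈ Finset.univ, 0 ≤ r k * (M k j : ℝ) := fun k _ =>
      mul_nonneg (hrw.rp k).le (by exact_mod_cast hnn k j)
    have h4 := (Finset.sum_eq_zero_iff_of_nonneg h3).1
      (le_antisymm h1 (Finset.sum_nonneg h3)) k (Finset.mem_univ k)
    rcases mul_eq_zero.1 h4 with h5 | h5
    · exact absurd h5 (hrw.rp k).ne'
    · exact_mod_cast h5
  exact hdet (Matrix.det_eq_zero_of_column_eq_zero j h2)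

/-- weighted length of the images -/
noncomputable def gl (r : Fin (m+1) → ℝ) (S : Fin (m+1) → List (Fin (m+1))) (j : Fin (m+1)) : ℝ :=
  ∑ i, r i * (inc S i j : ℝ)

theorem gl_comp (r : Fin (m+1) → ℝ) (S τ : Fin (m+1) → List (Fin (m+1))) (j : Fin (m+1)) :
    gl r (comp S τ) j = ∑ k, gl r S k * (inc τ k j : ℝ) := by
  unfold gl
  rw [inc_comp]
  have h1 : ∀ i, r i * (((inc S * inc τ) i j : ℤ) : ℝ) =
      ∑ k, r i * ((inc S i k : ℝ) * (inc τ k j : ℝ)) := by
    intro i
    rw [Matrix.mul_apply]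
    push_cast
    rw [Finset.mul_sum]
  rw [Finset.sum_congr rfl fun i _ => h1 i, Finset.sum_comm]
  refine Finset.sum_congr rfl fun k _ => ?_
  rw [Finset.sum_mul]
  exact Finset.sum_congr rfl fun i _ => by ring

/-- the ratios of the weighted lengths -/
theorem gl_ratio {r w : Fin (m+1) → ℝ} (hrw : Wts r w) {η : ℝ}
    (l : List (Fin (m+1) → List (Fin (m+1))))
    (hl : ∀ τ ∈ l, Long r w η (inc τ) ∧ 1 ≤ inc τ 0 0) :
    0 < gl r (compList l) 0 ∧ ∀ j, 0 ≤ gl r (compList l) j ∧
      gl r (compList l) j ≤ r j * gl r (compList l) 0 := by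
  induction l using List.reverseRecOn with
  | nil =>
    have h1 : ∀ j, gl r (compList ([] : List (Fin (m+1) → List (Fin (m+1))))) j = r j := by
      intro j
      unfold gl
      show ∑ i, r i * ((inc (fun a : Fin (m+1) => [a]) i j : ℤ) : ℝ) = r j
      rw [JComp_inc_id]
      simp [Matrix.one_apply]
    refine ⟨by rw [h1, hrw.r0]; exact one_pos, fun j => ?_⟩
    rw [h1, h1, hrw.r0, mul_one]
    exact ⟨(hrw.rp j).le, le_rfl⟩
  | append_singleton l τ ih =>
    obtain ⟨hL, h00⟩ := hl τ (by simp)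
    obtain ⟨h0, hr⟩ := ih fun τ' h => hl τ' (List.mem_append_left _ h)
    rw [compList_snoc]
    obtain ⟨g, hg⟩ : ∃ g, g = gl r (compList l) := ⟨_, rfl⟩
    rw [← hg] at h0 hr
    have hc : ∀ j, gl r (comp (compList l) τ) j = ∑ k, g k * (inc τ k j : ℝ) := by
      intro j; rw [gl_comp, hg]
    have h00' : (1:ℝ) ≤ (inc τ 0 0 : ℝ) := by exact_mod_cast h00
    have hge : g 0 * (inc τ 0 0 : ℝ) ≤ ∑ k, g k * (inc τ k 0 : ℝ) :=
      Finset.single_le_sum (f := fun k => g k * (inc τ k 0 : ℝ))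
        (fun k _ => mul_nonneg (hr k).1 (inc_nn τ k 0)) (Finset.mem_univ 0)
    have hpos : 0 < gl r (comp (compList l) τ) 0 := by
      rw [hc]
      nlinarith
    refine ⟨hpos, fun j => ⟨?_, ?_⟩⟩
    · rw [hc]
      exact Finset.sum_nonneg fun k _ => mul_nonneg (hr k).1 (inc_nn τ k j)
    · by_cases hj : j = 0
      · rw [hj, hrw.r0, one_mul]
      · rw [hc, hc]
        calc ∑ k, g k * (inc τ k j : ℝ) ≤ ∑ k, (r k * g 0) * (inc τ k j : ℝ) :=
              Finset.sum_le_sum fun k _ => mul_le_mul_of_nonneg_right (hr k).2 (inc_nn τ k j)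
          _ = g 0 * ∑ k, r k * (inc τ k j : ℝ) := by
              rw [Finset.mul_sum]; exact Finset.sum_congr rfl fun k _ => by ring
          _ ≤ g 0 * (r j * (inc τ 0 0 : ℝ)) := mul_le_mul_of_nonneg_left (hL.ratio j hj) h0.le
          _ = r j * (g 0 * (inc τ 0 0 : ℝ)) := by ring
          _ ≤ _ := mul_le_mul_of_nonneg_left hge (hrw.rp j).le

/-- the costs for a long letter -/
theorem long_cost {r w : Fin (m+1) → ℝ} (hrw : Wts r w) {η : ℝ} (hη : 0 ≤ η) :
    ∃ C : ℝ, 0 ≤ C ∧ ∀ l : List (Fin (m+1) → List (Fin (m+1))),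
      (∀ τ ∈ l, Long r w η (inc τ) ∧ 1 ≤ inc τ 0 0) → ∀ i j,
      (cst (compList l) i j : ℝ) ≤ C * η ^ l.length *
        (gl r (compList l) i * w j + gl r (compList l) j * w i) := by
  obtain ⟨Y, hY⟩ : ∃ Y : Fin (m+1) → Fin (m+1) → ℝ, Y = fun i j => r i * w j + r j * w i := ⟨_, rfl⟩
  have hYn : ∀ i j, 0 ≤ Y i j := by
    intro i j
    rw [hY]
    exact add_nonneg (mul_nonneg (hrw.rp i).le (hrw.wn j)) (mul_nonneg (hrw.rp j).le (hrw.wn i))
  have hYp : ∀ i j, i ≠ j → 0 < Y i j := by
    intro i j hij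
    rw [hY]
    by_cases hi : i = 0
    · have hj : j ≠ 0 := fun h => hij (hi.trans h.symm)
      have h1 := mul_pos (hrw.rp i) (hrw.wpos j hj)
      have h2 := mul_nonneg (hrw.rp j).le (hrw.wn i)
      simp only
      linarith
    · have h1 := mul_pos (hrw.rp j) (hrw.wpos i hi)
      have h2 := mul_nonneg (hrw.rp i).le (hrw.wn j)
      simp only
      linarith
  refine ⟨∑ i, ∑ j, (cst (compList ([] : List (Fin (m+1) → List (Fin (m+1))))) i j : ℝ) / Y i j,
    Finset.sum_nonneg fun i _ => Finset.sum_nonneg fun j _ =>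
      div_nonneg (Nat.cast_nonneg _) (hYn i j), fun l => ?_⟩
  obtain ⟨C, hC⟩ : ∃ C : ℝ, C = ∑ i, ∑ j,
    (cst (compList ([] : List (Fin (m+1) → List (Fin (m+1))))) i j : ℝ) / Y i j := ⟨_, rfl⟩
  have hC0 : 0 ≤ C := by
    rw [hC]
    exact Finset.sum_nonneg fun i _ => Finset.sum_nonneg fun j _ =>
      div_nonneg (Nat.cast_nonneg _) (hYn i j)
  rw [← hC]
  induction l using List.reverseRecOn with
  | nil =>
    intro _ i j
    have h1 : ∀ j, gl r (compList ([] : List (Fin (m+1) → List (Fin (m+1))))) j = r j := by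
      intro j
      unfold gl
      show ∑ i, r i * ((inc (fun a : Fin (m+1) => [a]) i j : ℤ) : ℝ) = r j
      rw [JComp_inc_id]
      simp [Matrix.one_apply]
    rw [h1, h1, List.length_nil, pow_zero, mul_one]
    have h3 : r i * w j + r j * w i = Y i j := by rw [hY]
    rw [h3]
    by_cases h : i = j
    · rw [h, cst_self]
      simp only [Nat.cast_zero]
      exact mul_nonneg hC0 (hYn j j)
    · have h2 : (cst (compList ([] : List (Fin (m+1) → List (Fin (m+1))))) i j : ℝ) / Y i j ≤ C := by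
        rw [hC]
        refine le_trans (Finset.single_le_sum (f := fun j =>
          (cst (compList ([] : List (Fin (m+1) → List (Fin (m+1))))) i j : ℝ) / Y i j)
          (fun j _ => div_nonneg (Nat.cast_nonneg _) (hYn i j)) (Finset.mem_univ j)) ?_
        exact Finset.single_le_sum (f := fun i => ∑ j,
          (cst (compList ([] : List (Fin (m+1) → List (Fin (m+1))))) i j : ℝ) / Y i j)
          (fun i _ => Finset.sum_nonneg fun j _ => div_nonneg (Nat.cast_nonneg _) (hYn i j))
          (Finset.mem_univ i)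
      rwa [div_le_iff₀ (hYp i j h)] at h2
  | append_singleton l τ ih =>
    intro hl i j
    obtain ⟨hL, h00⟩ := hl τ (by simp)
    have hl' : ∀ τ ∈ l, Long r w η (inc τ) ∧ 1 ≤ inc τ 0 0 := fun τ' h =>
      hl τ' (List.mem_append_left _ h)
    have ih' := ih hl'
    obtain ⟨h0, hr⟩ := gl_ratio hrw l hl'
    obtain ⟨h0', hr'⟩ := gl_ratio hrw (l ++ [τ]) hl
    rw [compList_snoc] at h0' hr' ⊢
    obtain ⟨g, hg⟩ : ∃ g, g = gl r (compList l) := ⟨_, rfl⟩
    obtain ⟨g', hg'⟩ : ∃ g', g' = gl r (comp (compList l) τ) := ⟨_, rfl⟩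
    rw [← hg] at h0 hr ih'
    rw [← hg'] at h0' hr' ⊢
    have hc : ∀ j, g' j = ∑ k, g k * (inc τ k j : ℝ) := by
      intro j; rw [hg', gl_comp, hg]
    obtain ⟨K, hK⟩ : ∃ K : ℝ, K = C * η ^ l.length := ⟨_, rfl⟩
    have hK0 : 0 ≤ K := by rw [hK]; positivity
    rw [← hK] at ih'
    have hKK : C * η ^ (l ++ [τ]).length = K * η := by
      rw [hK, List.length_append, List.length_singleton, pow_succ]; ring
    rw [hKK]
    -- the column sums of the weights
    obtain ⟨W, hW⟩ : ∃ W : Fin (m+1) → ℝ, W = fun j => ∑ k, w k * (inc τ k j : ℝ) := ⟨_, rfl⟩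
    have hWn : ∀ j, 0 ≤ W j := by
      intro j
      rw [hW]
      exact Finset.sum_nonneg fun k _ => mul_nonneg (hrw.wn k) (inc_nn τ k j)
    have hcon : ∀ j, j ≠ 0 → W j + r j * W 0 ≤ η * w j := by
      intro j hj
      refine le_trans (le_of_eq ?_) (hL.contr j hj)
      rw [hW]
      simp only
      rw [Finset.mul_sum, ← Finset.sum_add_distrib]
      exact Finset.sum_congr rfl fun k _ => by ring
    -- the estimate for different letters
    have key : ∀ i j, i ≠ j → g' i * W j + W i * g' j ≤ η * (g' i * w j + g' j * w i) := by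
      intro i j hij
      by_cases hi : i = 0
      · have hj : j ≠ 0 := fun h => hij (hi.trans h.symm)
        rw [hi, hrw.w0, mul_zero, add_zero]
        calc g' 0 * W j + W 0 * g' j ≤ g' 0 * W j + W 0 * (r j * g' 0) := by
              have := mul_le_mul_of_nonneg_left (hr' j).2 (hWn 0)
              linarith
          _ = g' 0 * (W j + r j * W 0) := by ring
          _ ≤ g' 0 * (η * w j) := mul_le_mul_of_nonneg_left (hcon j hj) h0'.le
          _ = _ := by ring
      · by_cases hj : j = 0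
        · rw [hj, hrw.w0, mul_zero, zero_add]
          calc g' i * W 0 + W i * g' 0 ≤ (r i * g' 0) * W 0 + W i * g' 0 := by
                have := mul_le_mul_of_nonneg_right (hr' i).2 (hWn 0)
                linarith
            _ = g' 0 * (W i + r i * W 0) := by ring
            _ ≤ g' 0 * (η * w i) := mul_le_mul_of_nonneg_left (hcon i hi) h0'.le
            _ = _ := by ring
        · have h1 : W j ≤ η * w j := by
            have h3 := hcon j hj
            have h4 := mul_nonneg (hrw.rp j).le (hWn 0)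
            linarith
          have h2 : W i ≤ η * w i := by
            have h3 := hcon i hi
            have h4 := mul_nonneg (hrw.rp i).le (hWn 0)
            linarith
          have h3 := mul_le_mul_of_nonneg_left h1 (hr' i).1
          have h4 := mul_le_mul_of_nonneg_right h2 (hr' j).1
          linarith
    by_cases h : i = j
    · rw [h, cst_self]
      simp only [Nat.cast_zero]
      exact mul_nonneg (mul_nonneg hK0 hη) (add_nonneg (mul_nonneg (hr' j).1 (hrw.wn j))
        (mul_nonneg (hr' j).1 (hrw.wn j)))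
    · refine (cst_comp_real (compList l) τ i j).trans ?_
      calc ∑ k, ∑ k', (inc τ k i : ℝ) * (inc τ k' j : ℝ) * (cst (compList l) k k' : ℝ)
          ≤ ∑ k, ∑ k', (inc τ k i : ℝ) * (inc τ k' j : ℝ) * (K * (g k * w k' + g k' * w k)) := by
            refine Finset.sum_le_sum fun k _ => Finset.sum_le_sum fun k' _ => ?_
            exact mul_le_mul_of_nonneg_left (ih' k k')
              (mul_nonneg (inc_nn τ k i) (inc_nn τ k' j))
        _ = K * (g' i * W j + W i * g' j) := by
            rw [hc i, hc j, hW]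
            simp only
            rw [Finset.sum_mul_sum, Finset.sum_mul_sum, ← Finset.sum_add_distrib, Finset.mul_sum]
            refine Finset.sum_congr rfl fun k _ => ?_
            rw [← Finset.sum_add_distrib, Finset.mul_sum]
            exact Finset.sum_congr rfl fun k' _ => by ring
        _ ≤ K * (η * (g' i * w j + g' j * w i)) := mul_le_mul_of_nonneg_left (key i j h) hK0
        _ = _ := by ring

theorem ell_pow {M : Matrix (Fin (m+1)) (Fin (m+1)) ℤ} (P : PD M) (n : ℕ) (j : Fin (m+1)) :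
    ∑ i, P.ell i * ((M ^ n) i j : ℝ) = P.lam ^ n * P.ell j := by
  rcases Nat.eq_zero_or_pos n with h | h
  · rw [h, pow_zero, pow_zero, one_mul]
    simp [Matrix.one_apply]
  · exact (P.pow n h).ell_M j

/-- **The long letter criterion.** -/
theorem long_semi {r w : Fin (m+1) → ℝ} (hrw : Wts r w) {η : ℝ} (hη : 0 ≤ η) (hη1 : η < 1)
    (l : List (Fin (m+1) → List (Fin (m+1)))) (hne : l ≠ [])
    (hl : ∀ τ ∈ l, Long r w η (inc τ) ∧ 1 ≤ inc τ 0 0)
    (hdet : IsUnit (inc (compList l)).det) (P : PD (inc (compList l))) :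
    SemiConjToral (compList l) := by
  obtain ⟨C, hC0, hC⟩ := long_cost hrw hη
  obtain ⟨R, hR⟩ : ∃ R : ℝ, R = ∑ i, r i / P.ell i := ⟨_, rfl⟩
  have hRi : ∀ i, r i ≤ R * P.ell i := by
    intro i
    rw [← div_le_iff₀ (P.ell_pos i), hR]
    exact Finset.single_le_sum (f := fun i => r i / P.ell i)
      (fun i _ => div_nonneg (hrw.rp i).le (P.ell_pos i).le) (Finset.mem_univ i)
  have hR0 : 0 ≤ R := by
    rw [hR]
    exact Finset.sum_nonneg fun i _ => div_nonneg (hrw.rp i).le (P.ell_pos i).le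
  have hlen : 1 ≤ l.length := List.length_pos_iff.2 hne
  have hgl : ∀ n j, gl r (iter (compList l) n) j ≤ R * (P.lam ^ n * P.ell j) := by
    intro n j
    unfold gl
    rw [inc_iter, ← ell_pow P n j, Finset.mul_sum]
    refine Finset.sum_le_sum fun i _ => ?_
    have h1 : (0:ℝ) ≤ (((inc (compList l)) ^ n) i j : ℝ) := by
      rw [← inc_iter]
      exact inc_nn _ i j
    have h2 := mul_le_mul_of_nonneg_right (hRi i) h1
    linarith
  obtain ⟨B, hB⟩ : ∃ B : ℝ, B = ∑ i, ∑ j, (P.ell i * w j + P.ell j * w i) := ⟨_, rfl⟩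
  have hBn : ∀ i j, 0 ≤ P.ell i * w j + P.ell j * w i := fun i j =>
    add_nonneg (mul_nonneg (P.ell_pos i).le (hrw.wn j)) (mul_nonneg (P.ell_pos j).le (hrw.wn i))
  have hBi : ∀ i j, P.ell i * w j + P.ell j * w i ≤ B := by
    intro i j
    rw [hB]
    refine le_trans (Finset.single_le_sum (f := fun j => P.ell i * w j + P.ell j * w i)
      (fun j _ => hBn i j) (Finset.mem_univ j)) ?_
    exact Finset.single_le_sum (f := fun i => ∑ j, (P.ell i * w j + P.ell j * w i))
      (fun i _ => Finset.sum_nonneg fun j _ => hBn i j) (Finset.mem_univ i)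
  have hlam : 1 < P.lam := P.lam_gt
  have hΘ0 : 0 ≤ η ^ l.length * P.lam := mul_nonneg (pow_nonneg hη _) (by linarith)
  have hΘ1 : η ^ l.length * P.lam < P.lam := by
    have h1 : η ^ l.length ≤ η := by
      calc η ^ l.length ≤ η ^ 1 := pow_le_pow_of_le_one hη hη1.le hlen
        _ = η := pow_one η
    have h2 : η ^ l.length < 1 := lt_of_le_of_lt h1 hη1
    nlinarith
  have hcost : ∀ n x y, (cst (iter (compList l) n) x y : ℝ) ≤
      (C * (R * B)) * (η ^ l.length * P.lam) ^ n := by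
    intro n x y
    have h1 := hC ((List.replicate n l).flatten) (fun τ hτ => hl τ (mem_flatten_replicate hτ)) x y
    rw [Pool.Agent.Y316.Pisot.compList_flatten] at h1
    have h2 : ((List.replicate n l).flatten).length = l.length * n := by
      rw [List.length_flatten]
      simp [List.map_replicate, List.sum_replicate, mul_comm]
    rw [h2, pow_mul] at h1
    have h3 : 0 ≤ C * (η ^ l.length) ^ n := mul_nonneg hC0 (pow_nonneg (pow_nonneg hη _) _)
    have h4 : gl r (iter (compList l) n) x * w y + gl r (iter (compList l) n) y * w x ≤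
        (R * P.lam ^ n) * B := by
      have h5 := mul_le_mul_of_nonneg_right (hgl n x) (hrw.wn y)
      have h6 := mul_le_mul_of_nonneg_right (hgl n y) (hrw.wn x)
      have h7 : 0 ≤ R * P.lam ^ n := mul_nonneg hR0 (by positivity)
      have h8 := mul_le_mul_of_nonneg_left (hBi x y) h7
      nlinarith
    refine h1.trans ((mul_le_mul_of_nonneg_left h4 h3).trans (le_of_eq ?_))
    rw [mul_pow]
    ring
  refine semi_of_small P hdet fun ε hε => ?_
  obtain ⟨n₀, hn₀⟩ := small_of_geom (C := C * (R * B)) P.lam_gt hΘ0 hΘ1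
    (fun n => (C * (R * B)) * (η ^ l.length * P.lam) ^ n) (fun n => le_rfl) ε hε
  exact ⟨n₀, fun n hn x y => (hcost n x y).trans (hn₀ n hn)⟩

end Pool.Agent.Q132.PT
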