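import Pool.Agent.Q132.PT.Cost
import Pool.Agent.H812R2.PI.GSurg
import Pool.Agent.TH100.Pisot.Few
import Pool.Agent.Y316.Pisot.Power

/-!
Small costs of the transpositions give coincidences.
-/

set_option autoImplicit false

namespace Pool.Agent.Q132.PT
open Pool.Agent.H812R2.PI
open scoped BigOperators
variable {d : ℕ}

theorem ovl_le (a b c e : ℝ) (h : a ≤ b) : ovl a b c e ≤ b - a := by
  unfold ovl
  refine max_le (by linarith) ?_
  have h1 := min_le_left b e
  have h2 := le_max_left a c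
  linarith

theorem sum_le_card (l : List ((Fin d → ℤ) × Fin d)) (hl : l.Nodup)
    (s : Finset ((Fin d → ℤ) × Fin d)) (g : (Fin d → ℤ) × Fin d → ℝ) (L : ℝ) (hL : 0 ≤ L)
    (h0 : ∀ e ∈ l, e ∉ s → g e ≤ 0) (h1 : ∀ e ∈ l, g e ≤ L) : (l.map g).sum ≤ L * s.card := by
  induction l generalizing s with
  | nil => simp; positivity
  | cons a l ih =>
    rw [List.map_cons, List.sum_cons]
    have hn := List.nodup_cons.1 hl
    by_cases ha : a ∈ s
    · have h2 := ih hn.2 (s.erase a) (fun e he hes => by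
        refine h0 e (List.mem_cons_of_mem _ he) fun h => hes ?_
        rw [Finset.mem_erase]
        refine ⟨?_, h⟩
        rintro rfl
        exact hn.1 he) (fun e he => h1 e (List.mem_cons_of_mem _ he))
      have h3 := h1 a (List.mem_cons_self ..)
      have h4 : (s.card : ℝ) = (s.erase a).card + 1 := by
        rw [← Finset.card_erase_add_one ha]
        push_cast
        ring
      rw [h4]
      nlinarith
    · have h2 := ih hn.2 s (fun e he hes => h0 e (List.mem_cons_of_mem _ he) hes)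
        (fun e he => h1 e (List.mem_cons_of_mem _ he))
      have h3 := h0 a (List.mem_cons_self ..) ha
      linarith

theorem edges_nodup {M : Matrix (Fin d) (Fin d) ℤ} (P : PD M) (z : Fin d → ℤ)
    (w : List (Fin d)) : (edges z w).Nodup := by
  rw [List.nodup_iff_injective_get]
  intro i j hij
  have hi : i.1 < w.length := i.2.trans_eq (length_edges z w)
  have hj : j.1 < w.length := j.2.trans_eq (length_edges z w)
  have h1 : (edges z w)[i.1] = (edges z w)[j.1] := hij
  rw [getElem_edges, getElem_edges, Prod.mk.injEq] at h1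
  have h2 := add_left_cancel h1.1
  have h3 : (w.take i.1).length = (w.take j.1).length := by
    have h4 := ab_sum (w.take i.1)
    rw [h2, ab_sum] at h4
    exact_mod_cast h4.symm
  rw [List.length_take, List.length_take] at h3
  exact Fin.ext (by omega)

/-- two images without a common edge cost a lot -/
theorem no_common {M : Matrix (Fin d) (Fin d) ℤ} (P : PD M)
    (T : Fin d → List (Fin d)) (mu : ℝ) (hmu : 0 ≤ mu)
    (hT : ∀ v, P.ht ((inc T).mulVec v) = mu * P.ht v)
    (a b : Fin d) (v : Fin d → ℤ) (p₁ s₁ p₂ s₂ : List (Fin d)) (hp : ab p₂ = ab p₁ + v)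
    (hno : ¬ ∃ e, e ∈ edges 0 (T a) ∧ e ∈ edges ((inc T).mulVec v) (T b)) :
    mu * P.OV (0, a) (v, b) ≤ (∑ i, P.ell i) *
      (dS T (p₁ ++ a :: s₁) (p₂ ++ b :: s₂) : ℝ) := by
  have hell : ∀ i, P.ell i ≤ ∑ i, P.ell i := fun i =>
    Finset.single_le_sum (fun j _ => (P.ell_pos j).le) (Finset.mem_univ i)
  have hL0 : 0 ≤ ∑ i, P.ell i := Finset.sum_nonneg fun i _ => (P.ell_pos i).le
  obtain ⟨t, ht⟩ : ∃ t, t = (inc T).mulVec (ab p₁) := ⟨_, rfl⟩
  -- the total overlap
  have hsum := sum_OV_edges P t (t + (inc T).mulVec v) (T a) (T b)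
  have htot : ovl (P.ht t) (P.ht t + P.ht (ab (T a))) (P.ht (t + (inc T).mulVec v))
      (P.ht (t + (inc T).mulVec v) + P.ht (ab (T b))) = mu * P.OV (0, a) (v, b) := by
    rw [ht_add, ab_subst, ab_subst, hT, hT, hT, ht_ev, ht_ev]
    unfold PD.OV
    simp only [ht_zero]
    rw [← JComp_ovl_mul _ _ _ _ _ hmu]
    unfold ovl
    congr 1
    rw [show P.ht t + mu * P.ht v + mu * P.ell b = (mu * (P.ht v + P.ell b)) + P.ht t by ring,
      show P.ht t + mu * P.ell a = mu * (0 + P.ell a) + P.ht t by ring, min_add_add_right,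
      show P.ht t + mu * P.ht v = mu * P.ht v + P.ht t by ring,
      show max (P.ht t) (mu * P.ht v + P.ht t) = max (mu * 0 + P.ht t) (mu * P.ht v + P.ht t) by
        rw [mul_zero, zero_add], max_add_add_right]
    ring
  rw [htot] at hsum
  -- the two long paths
  have hE1 : ∀ e ∈ edges t (T a), e ∈ edges 0 (ext T (p₁ ++ a :: s₁)) := by
    intro e he
    rw [ext_append, ext_cons, edges_append, edges_append, List.mem_append, List.mem_append]
    refine Or.inr (Or.inl ?_)
    rw [zero_add, ab_ext, ← ht]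
    exact he
  have hE2 : ∀ e ∈ edges (t + (inc T).mulVec v) (T b), e ∈ edges 0 (ext T (p₂ ++ b :: s₂)) := by
    intro e he
    rw [ext_append, ext_cons, edges_append, edges_append, List.mem_append, List.mem_append]
    refine Or.inr (Or.inl ?_)
    rw [zero_add, ab_ext, hp, Matrix.mulVec_add, ← ht]
    exact he
  have hno' : ∀ e ∈ edges t (T a), e ∉ edges (t + (inc T).mulVec v) (T b) := by
    intro e he hf
    refine hno ⟨(e.1 - t, e.2), ?_, ?_⟩
    · have h1 := JComp_mem_translate (t := -t) he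
      simpa [sub_eq_add_neg] using h1
    · have h1 := JComp_mem_translate (t := -t) hf
      simpa [sub_eq_add_neg, add_comm, add_left_comm, add_assoc] using h1
  have hedge : ∀ e : (Fin d → ℤ) × Fin d,
      ((edges (t + (inc T).mulVec v) (T b)).map (fun f => P.OV e f)).sum ≤ ∑ i, P.ell i := by
    intro e
    have h1 := sum_OV_edges P e.1 (t + (inc T).mulVec v) [e.2] (T b)
    simp only [edges, List.map_cons, List.map_nil, List.sum_cons, List.sum_nil, add_zero] at h1
    rw [ab_single, ht_ev] at h1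
    refine (le_of_eq h1).trans ((ovl_le _ _ _ _ (by linarith [P.ell_pos e.2])).trans ?_)
    linarith [hell e.2]
  rw [← hsum]
  have hbound := sum_le_card (edges t (T a)) (edges_nodup P t (T a))
    (E (ext T (p₁ ++ a :: s₁)) \ E (ext T (p₂ ++ b :: s₂)))
    (fun e => ((edges (t + (inc T).mulVec v) (T b)).map (fun f => P.OV e f)).sum)
    (∑ i, P.ell i) hL0 ?_ (fun e _ => hedge e)
  · exact hbound
  · intro e he hes
    have h1 : e ∈ edges 0 (ext T (p₂ ++ b :: s₂)) := by
      by_contra h2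
      refine hes ?_
      rw [Finset.mem_sdiff]
      refine ⟨List.mem_toFinset.2 (hE1 e he), fun h3 => h2 (List.mem_toFinset.1 h3)⟩
    refine le_of_eq ?_
    refine List.sum_eq_zero ?_
    intro x hx
    obtain ⟨f, hf, rfl⟩ := List.mem_map.1 hx
    refine OV_same_path P 0 _ h1 (hE2 f hf) ?_
    rintro rfl
    exact hno' e he hf

/-- small costs of the transpositions give coincidences -/
theorem hit_of_small {S : Fin d → List (Fin d)} (P : PD (inc S))
    (hsm : ∀ ε : ℝ, 0 < ε → ∃ n₀ : ℕ, ∀ n ≥ n₀, ∀ x y, (cst (iter S n) x y : ℝ) ≤ ε * P.lam ^ n)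
    (D : ℝ) : ∃ n₀ : ℕ, ∀ n ≥ n₀, P.Hit (iter S n) D := by
  have hlam : 1 < P.lam := P.lam_gt
  obtain ⟨F, hF⟩ : ∃ F : Finset (Fin d × Fin d × (Fin d → ℤ)),
      F = (Pool.Agent.TH100.Pisot.pairs_finite P D).toFinset := ⟨_, rfl⟩
  have hkey : ∀ t ∈ F, ∀ᶠ n : ℕ in Filter.atTop, ∃ e, e ∈ edges 0 (iter S n t.1) ∧
      e ∈ edges ((inc (iter S n)).mulVec t.2.2) (iter S n t.2.1) := by
    rintro ⟨a, b, v⟩ ht
    rw [hF, Set.Finite.mem_toFinset] at ht
    obtain ⟨-, hov⟩ := ht
    simp only at hov ⊢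
    obtain ⟨p₁, hp₁⟩ := GSurg_word (∑ i, max 0 (-v i)).toNat (fun i => max 0 (-v i))
      (fun i => le_max_left _ _) (Int.toNat_of_nonneg
        (Finset.sum_nonneg fun i _ => le_max_left _ _)).symm
    obtain ⟨p₂, hp₂⟩ := GSurg_word (∑ i, max 0 (v i)).toNat (fun i => max 0 (v i))
      (fun i => le_max_left _ _) (Int.toNat_of_nonneg
        (Finset.sum_nonneg fun i _ => le_max_left _ _)).symm
    have hp : ab p₂ = ab p₁ + v := by
      rw [hp₁, hp₂]
      funext i
      simp only [Pi.add_apply]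
      rcases le_total 0 (v i) with h | h
      · rw [max_eq_right h, max_eq_left (by omega)]; ring
      · rw [max_eq_left h, max_eq_right (by omega)]; ring
    have hperm : (p₁ ++ a :: (p₂ ++ [b])).Perm (p₂ ++ b :: (p₁ ++ [a])) := by
      have h1 : p₁ ++ a :: (p₂ ++ [b]) = (p₁ ++ [a]) ++ (p₂ ++ [b]) := by simp
      have h2 : p₂ ++ b :: (p₁ ++ [a]) = (p₂ ++ [b]) ++ (p₁ ++ [a]) := by simp
      rw [h1, h2]
      exact List.perm_append_comm
    obtain ⟨C, hC⟩ := perm_cost hperm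
    have hL0 : 0 ≤ ∑ i, P.ell i := Finset.sum_nonneg fun i _ => (P.ell_pos i).le
    obtain ⟨δ, hδ⟩ : ∃ δ, δ = P.OV (0, a) (v, b) := ⟨_, rfl⟩
    have hδ0 : 0 < δ := by rw [hδ]; exact hov
    obtain ⟨ε, hε, hεδ⟩ : ∃ ε : ℝ, 0 < ε ∧ (∑ i, P.ell i) * (C * ε) < δ := by
      refine ⟨δ / ((∑ i, P.ell i) * C + 1), by positivity, ?_⟩
      have h1 : (∑ i, P.ell i) * (C * (δ / ((∑ i, P.ell i) * C + 1))) =
          δ * (((∑ i, P.ell i) * C) / ((∑ i, P.ell i) * C + 1)) := by
        field_simp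
      rw [h1]
      have h2 : ((∑ i, P.ell i) * C) / ((∑ i, P.ell i) * C + 1) < 1 := by
        rw [div_lt_one (by positivity)]
        linarith
      nlinarith
    obtain ⟨n₀, hn₀⟩ := hsm ε hε
    filter_upwards [Filter.eventually_ge_atTop (max n₀ 1)] with n hn
    have hn0 : n₀ ≤ n := (le_max_left _ _).trans hn
    have hn1 : 1 ≤ n := (le_max_right _ _).trans hn
    by_contra hno
    have hT : ∀ v, P.ht ((inc (iter S n)).mulVec v) = P.lam ^ n * P.ht v := by
      intro v
      rw [inc_iter]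
      exact ht_mulVec (P.pow n hn1) v
    have hpos : 0 < P.lam ^ n := by positivity
    have h1 := no_common P (iter S n) (P.lam ^ n) hpos.le hT a b v p₁ (p₂ ++ [b]) p₂ (p₁ ++ [a])
      hp hno
    have h2 := hC (iter S n) ⌊ε * P.lam ^ n⌋₊ (fun x y => Nat.le_floor (hn₀ n hn0 x y))
    have h3 : ((dS (iter S n) (p₁ ++ a :: (p₂ ++ [b])) (p₂ ++ b :: (p₁ ++ [a])) : ℕ) : ℝ) ≤
        C * (ε * P.lam ^ n) := by
      have h4 : ((⌊ε * P.lam ^ n⌋₊ : ℕ) : ℝ) ≤ ε * P.lam ^ n := Nat.floor_le (by positivity)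
      calc ((dS (iter S n) (p₁ ++ a :: (p₂ ++ [b])) (p₂ ++ b :: (p₁ ++ [a])) : ℕ) : ℝ)
          ≤ ((C * ⌊ε * P.lam ^ n⌋₊ : ℕ) : ℝ) := by exact_mod_cast h2
        _ = C * ((⌊ε * P.lam ^ n⌋₊ : ℕ) : ℝ) := by push_cast; ring
        _ ≤ _ := mul_le_mul_of_nonneg_left h4 (Nat.cast_nonneg _)
    rw [← hδ] at h1
    have h5 := mul_le_mul_of_nonneg_left h3 hL0
    have h6 : P.lam ^ n * δ ≤ P.lam ^ n * ((∑ i, P.ell i) * (C * ε)) := by
      calc P.lam ^ n * δ ≤ _ := h1
        _ ≤ _ := h5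
        _ = _ := by ring
    have h7 := le_of_mul_le_mul_left h6 hpos
    linarith
  have hall := (Filter.eventually_all_finset F).2 hkey
  obtain ⟨n₀, hn₀⟩ := Filter.eventually_atTop.1 hall
  refine ⟨n₀, fun n hn a b v hv hov => ?_⟩
  exact hn₀ n hn (a, b, v) (by rw [hF, Set.Finite.mem_toFinset]; exact ⟨hv, hov⟩)

/-- the Pisot conjecture for substitutions with small costs -/
theorem semi_of_small {m : ℕ} {S : Fin (m+1) → List (Fin (m+1))} (P : PD (inc S))
    (hdet : IsUnit (inc S).det)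
    (hsm : ∀ ε : ℝ, 0 < ε → ∃ n₀ : ℕ, ∀ n ≥ n₀, ∀ x y,
      (cst (iter S n) x y : ℝ) ≤ ε * P.lam ^ n) : SemiConjToral S :=
  Pool.Agent.Y316.Pisot.semi_of_hit P hdet (hit_of_small P hsm)

end Pool.Agent.Q132.PT
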