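import Pool.Agent.Q132.PT.Cone

/-!
Matrices with a cone and a contraction are unimodular irreducible Pisot matrices.
-/

set_option autoImplicit false

namespace Pool.Agent.Q132.PT
open Pool.Agent.H812R2.PI
open scoped BigOperators
variable {m : ℕ}

theorem nw_add {r w : Fin (m+1) → ℝ} (hrw : Wts r w) (x y : Fin (m+1) → ℝ) :
    nw w (x + y) ≤ nw w x + nw w y := by
  unfold nw
  rw [← Finset.sum_add_distrib]
  refine Finset.sum_le_sum fun k _ => ?_
  rw [← mul_add]
  exact mul_le_mul_of_nonneg_left (abs_add_le _ _) (hrw.wn k)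

theorem act_smul' (M : Matrix (Fin (m+1)) (Fin (m+1)) ℤ) (t : ℝ) (x : Fin (m+1) → ℝ) :
    act M (fun k => t * x k) = fun k => t * act M x k := by
  funext i
  unfold act
  rw [Finset.mul_sum]
  exact Finset.sum_congr rfl fun j _ => by ring

/-- eigenvector data -/
structure Eg (r w : Fin (m+1) → ℝ) (κ : ℝ) (M : Matrix (Fin (m+1)) (Fin (m+1)) ℤ)
    (ell : Fin (m+1) → ℝ) (lam : ℝ) : Prop where
  inC : InC r ell
  one : ell 0 = 1
  lam1 : 1 ≤ lam
  eig : ∀ j, row M ell j = lam * ell j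
  con : ∀ x, ∑ j, ell j * x j = 0 → nw w (act M x) ≤ κ * nw w x
  coord : ∀ x, ∑ j, ell j * x j = 0 → ∀ k, |x k| ≤ (∑ j, (1 + r j) / w j) * nw w x

theorem exists_Eg {r w : Fin (m+1) → ℝ} (hrw : Wts r w) {κ : ℝ} (hκ : 0 ≤ κ) (hκ1 : κ < 1)
    {M : Matrix (Fin (m+1)) (Fin (m+1)) ℤ} (h : Cp r w κ M) :
    ∃ (ell : Fin (m+1) → ℝ) (lam : ℝ), Eg r w κ M ell lam := by
  obtain ⟨ell, lam, h1, h2, h3, h4⟩ := exists_ell hrw hκ hκ1 h
  have hKj : ∀ j, 0 ≤ (1 + r j) / w j := fun j =>
    div_nonneg (by linarith [hrw.rp j]) (hrw.wn j)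
  have hsl : ∀ (x : Fin (m+1) → ℝ) j, j ≠ 0 → |x j| ≤ nw w x / w j := by
    intro x j hj
    rw [le_div_iff₀ (hrw.wpos j hj), mul_comm]
    exact Finset.single_le_sum (f := fun k => w k * |x k|)
      (fun k _ => mul_nonneg (hrw.wn k) (abs_nonneg _)) (Finset.mem_univ j)
  refine ⟨ell, lam, h1, h2, h3, h4, fun x hx => h.con ell h1 x ?_, fun x hx k => ?_⟩
  · calc ∑ j, row M ell j * x j = lam * ∑ j, ell j * x j := by
          rw [Finset.mul_sum]
          exact Finset.sum_congr rfl fun j _ => by rw [h4]; ring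
      _ = 0 := by rw [hx, mul_zero]
  · have hN := nw_nonneg hrw x
    by_cases hk : k = 0
    · rw [hk]
      rw [← Finset.add_sum_erase Finset.univ _ (Finset.mem_univ (0 : Fin (m+1))), h2, one_mul] at hx
      have h5 : x 0 = - ∑ j ∈ Finset.univ.erase 0, ell j * x j := by linarith
      rw [h5, abs_neg]
      calc |∑ j ∈ Finset.univ.erase 0, ell j * x j|
          ≤ ∑ j ∈ Finset.univ.erase 0, |ell j * x j| := Finset.abs_sum_le_sum_abs _ _
        _ ≤ ∑ j ∈ Finset.univ.erase 0, ((1 + r j) / w j) * nw w x := by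
            refine Finset.sum_le_sum fun j hj => ?_
            have hj' := Finset.ne_of_mem_erase hj
            have h6 := h1.2 j
            rw [h2, mul_one] at h6
            rw [abs_mul, abs_of_nonneg h6.1]
            calc ell j * |x j| ≤ (1 + r j) * (nw w x / w j) :=
                  mul_le_mul (by linarith) (hsl x j hj') (abs_nonneg _)
                    (by linarith [hrw.rp j])
              _ = _ := by ring
        _ = (∑ j ∈ Finset.univ.erase 0, (1 + r j) / w j) * nw w x := by rw [Finset.sum_mul]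
        _ ≤ _ := by
            refine mul_le_mul_of_nonneg_right ?_ hN
            rw [← Finset.add_sum_erase Finset.univ (fun j => (1 + r j) / w j)
              (Finset.mem_univ (0 : Fin (m+1)))]
            linarith [hKj 0]
    · calc |x k| ≤ nw w x / w k := hsl x k hk
        _ ≤ ((1 + r k) / w k) * nw w x := by
            have h5 : nw w x / w k = (1 / w k) * nw w x := by ring
            rw [h5]
            refine mul_le_mul_of_nonneg_right ?_ hN
            refine div_le_div_of_nonneg_right ?_ (hrw.wn k)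
            linarith [hrw.rp k]
        _ ≤ _ := by
            refine mul_le_mul_of_nonneg_right ?_ hN
            exact Finset.single_le_sum (f := fun j => (1 + r j) / w j) (fun j _ => hKj j)
              (Finset.mem_univ k)

section eg
variable {r w : Fin (m+1) → ℝ} {κ : ℝ} {M : Matrix (Fin (m+1)) (Fin (m+1)) ℤ}
  {ell : Fin (m+1) → ℝ} {lam : ℝ}

theorem Eg.dual (E : Eg r w κ M ell lam) (x : Fin (m+1) → ℝ) :
    ∑ i, ell i * act M x i = lam * ∑ j, ell j * x j := by
  rw [← row_dual, Finset.mul_sum]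
  exact Finset.sum_congr rfl fun j _ => by rw [E.eig]; ring

theorem Eg.pow (E : Eg r w κ M ell lam) (hκ : 0 ≤ κ) (x : Fin (m+1) → ℝ)
    (hx : ∑ j, ell j * x j = 0) (n : ℕ) :
    ∑ j, ell j * act (M ^ n) x j = 0 ∧ nw w (act (M ^ n) x) ≤ κ ^ n * nw w x := by
  induction n with
  | zero =>
    rw [pow_zero, pow_zero, FOff_act_one, one_mul]
    exact ⟨hx, le_rfl⟩
  | succ n ih =>
    rw [pow_succ', FOff_act_mul]
    refine ⟨by rw [E.dual, ih.1, mul_zero], ?_⟩
    refine (E.con _ ih.1).trans ?_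
    have := mul_le_mul_of_nonneg_left ih.2 hκ
    rw [pow_succ']
    linarith

/-- all coordinates tend to zero -/
theorem Eg.small (E : Eg r w κ M ell lam) (hrw : Wts r w) (hκ : 0 ≤ κ) (hκ1 : κ < 1)
    (x : Fin (m+1) → ℝ) (hx : ∑ j, ell j * x j = 0) (ε : ℝ) (hε : 0 < ε) :
    ∀ᶠ n : ℕ in Filter.atTop, ∀ k, |act (M ^ n) x k| ≤ ε := by
  obtain ⟨K, hK⟩ : ∃ K, K = ∑ j, (1 + r j) / w j := ⟨_, rfl⟩
  have hK0 : 0 ≤ K := by
    rw [hK]
    exact Finset.sum_nonneg fun j _ => div_nonneg (by linarith [hrw.rp j]) (hrw.wn j)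
  have h1 : Filter.Tendsto (fun n : ℕ => (K * nw w x) * κ ^ n) Filter.atTop
      (nhds ((K * nw w x) * 0)) :=
    (tendsto_pow_atTop_nhds_zero_of_lt_one hκ hκ1).const_mul _
  rw [mul_zero] at h1
  filter_upwards [h1.eventually_le_const hε] with n hn k
  obtain ⟨h2, h3⟩ := E.pow hκ x hx n
  refine (E.coord _ h2 k).trans ?_
  rw [← hK]
  have := mul_le_mul_of_nonneg_left h3 hK0
  linarith

theorem rv_pow (v : Fin (m+1) → ℤ) (n : ℕ) :
    act (M ^ n) (rv v) = rv ((M ^ n).mulVec v) := (rv_mulVec v).symm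

theorem int_small (z : ℤ) (h : |(z : ℝ)| ≤ 1 / 2) : z = 0 := by
  rw [← Int.cast_abs] at h
  have h1 : ((|z| : ℤ) : ℝ) < 1 := by linarith
  have h2 : |z| < 1 := by exact_mod_cast h1
  exact abs_eq_zero.1 (le_antisymm (by omega) (abs_nonneg z))

/-- the left eigenvector is rationally independent -/
theorem Eg.ell_ind (E : Eg r w κ M ell lam) (hrw : Wts r w) (hκ : 0 ≤ κ) (hκ1 : κ < 1)
    (hdet : M.det ≠ 0) (v : Fin (m+1) → ℤ) (hv : ∑ i, ell i * (v i : ℝ) = 0) : v = 0 := by
  obtain ⟨n, hn⟩ := (E.small hrw hκ hκ1 (rv v) hv (1/2) (by norm_num)).exists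
  have h1 : (M ^ n).mulVec v = 0 := by
    funext k
    have h2 := hn k
    rw [rv_pow] at h2
    exact int_small _ h2
  refine Matrix.eq_zero_of_mulVec_eq_zero (M := M ^ n) ?_ h1
  rw [Matrix.det_pow]
  exact pow_ne_zero _ hdet

theorem Eg.ell_pos (E : Eg r w κ M ell lam) (hrw : Wts r w) (hκ : 0 ≤ κ) (hκ1 : κ < 1)
    (hdet : M.det ≠ 0) (k : Fin (m+1)) : 0 < ell k := by
  have h1 := (E.inC.2 k).1
  rcases h1.lt_or_eq with h | h
  · exact h
  · exfalso
    have h2 := E.ell_ind hrw hκ hκ1 hdet (ev k) (by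
      have : ∀ i, ell i * ((ev k i : ℤ) : ℝ) = if i = k then ell i else 0 := by
        intro i
        unfold ev
        by_cases hi : i = k
        · rw [if_pos hi, if_pos hi]; simp
        · rw [if_neg hi, if_neg hi]; simp
      rw [Finset.sum_congr rfl fun i _ => this i]
      simp [← h])
    have h3 := congrFun h2 k
    simp [ev] at h3

/-- the leading eigenvalue is larger than one -/
theorem Eg.lam_gt (E : Eg r w κ M ell lam) (hm : 1 ≤ m) (hrw : Wts r w) (hκ : 0 ≤ κ)
    (hκ1 : κ < 1) (hdet : M.det ≠ 0) : 1 < lam := by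
  rcases E.lam1.lt_or_eq with h | h
  · exact h
  · exfalso
    have hfix : ∀ v : Fin (m+1) → ℤ, M.mulVec v = v := by
      intro v
      have h1 := E.ell_ind hrw hκ hκ1 hdet (M.mulVec v - v) (by
        have h2 := E.dual (rv v)
        rw [← h, one_mul, ← rv_mulVec] at h2
        have h3 : ∀ i, ell i * (((M.mulVec v - v) i : ℤ) : ℝ) =
            ell i * rv (M.mulVec v) i - ell i * rv v i := by
          intro i
          simp only [Pi.sub_apply, rv]
          push_cast
          ring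
        rw [Finset.sum_congr rfl fun i _ => h3 i, Finset.sum_sub_distrib, h2, sub_self])
      exact sub_eq_zero.1 h1
    have hM : M = 1 := by
      ext i j
      have h1 := congrFun (hfix (ev j)) i
      have h2 : (M.mulVec (ev j)) i = M i j := by
        simp [Matrix.mulVec, dotProduct, ev]
      rw [h2] at h1
      rw [h1, Matrix.one_apply]
      unfold ev
      rfl
    obtain ⟨j, hj⟩ : ∃ j : Fin (m+1), j ≠ 0 := ⟨Fin.last m, by
      intro h; have := congrArg Fin.val h; simp at this; omega⟩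
    obtain ⟨x, hx⟩ : ∃ x : Fin (m+1) → ℝ, x = fun k => (if k = j then 1 else 0) -
      ell j * (if k = 0 then 1 else 0) := ⟨_, rfl⟩
    have h1 : ∑ k, ell k * x k = 0 := by
      rw [hx]
      simp only [mul_sub, Finset.sum_sub_distrib]
      simp [E.one]
    have h2 := E.con x h1
    rw [hM, FOff_act_one] at h2
    have h3 := nw_nonneg hrw x
    have h4 : nw w x = 0 := by nlinarith
    have h5 := E.coord x h1 j
    rw [h4, mul_zero] at h5
    have h6 : x j = 1 := by
      rw [hx]
      simp [hj]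
    rw [h6] at h5
    norm_num at h5

/-- the right eigenvector -/
theorem Eg.exists_right (E : Eg r w κ M ell lam) (hm : 1 ≤ m) (hrw : Wts r w) (hκ : 0 ≤ κ)
    (hκ1 : κ < 1) (hdet : M.det ≠ 0) :
    ∃ u : Fin (m+1) → ℝ, ∑ i, ell i * u i = 1 ∧ act M u = fun i => lam * u i := by
  have hlam := E.lam_gt hm hrw hκ hκ1 hdet
  obtain ⟨A, hA⟩ : ∃ A : Matrix (Fin (m+1)) (Fin (m+1)) ℝ,
    A = M.map (Int.cast : ℤ → ℝ) - lam • (1 : Matrix (Fin (m+1)) (Fin (m+1)) ℝ) := ⟨_, rfl⟩
  have hdetA : A.det = 0 := by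
    rw [← Matrix.exists_vecMul_eq_zero_iff]
    refine ⟨ell, ?_, ?_⟩
    · intro h
      have := congrFun h 0
      rw [E.one] at this
      simp at this
    · rw [hA, Matrix.vecMul_sub]
      funext j
      have h1 := E.eig j
      unfold row at h1
      simp only [Pi.sub_apply, Matrix.vecMul_smul, Matrix.vecMul_one, Pi.smul_apply, smul_eq_mul,
        Pi.zero_apply]
      rw [← h1]
      simp [Matrix.vecMul, dotProduct]
  obtain ⟨x, hx0, hx⟩ := Matrix.exists_mulVec_eq_zero_iff.2 hdetA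
  have hact : act M x = fun i => lam * x i := by
    funext i
    have h1 := congrFun hx i
    rw [hA, Matrix.sub_mulVec] at h1
    simp only [Pi.sub_apply, Matrix.smul_mulVec, Matrix.one_mulVec, Pi.smul_apply, smul_eq_mul,
      Pi.zero_apply, Matrix.mulVec, dotProduct, Matrix.map_apply] at h1
    unfold act
    linarith
  have hne : ∑ i, ell i * x i ≠ 0 := by
    intro h0
    have h1 := E.con x h0
    rw [hact] at h1
    have h2 : nw w (fun i => lam * x i) = lam * nw w x := by
      unfold nw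
      rw [Finset.mul_sum]
      refine Finset.sum_congr rfl fun k _ => ?_
      rw [abs_mul, abs_of_pos (by linarith)]
      ring
    rw [h2] at h1
    have h3 := nw_nonneg hrw x
    have h4 : nw w x = 0 := by nlinarith
    apply hx0
    funext k
    have h5 := E.coord x h0 k
    rw [h4, mul_zero] at h5
    exact abs_eq_zero.1 (le_antisymm h5 (abs_nonneg _))
  refine ⟨fun i => (∑ i, ell i * x i)⁻¹ * x i, ?_, ?_⟩
  · have h1 : ∑ i, ell i * ((∑ i, ell i * x i)⁻¹ * x i) =
        (∑ i, ell i * x i)⁻¹ * ∑ i, ell i * x i := by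
      rw [Finset.mul_sum]
      exact Finset.sum_congr rfl fun i _ => by ring
    rw [h1, inv_mul_cancel₀ hne]
  · rw [act_smul', hact]
    funext i
    ring

/-- the stable part -/
def stp (ell u x : Fin (m+1) → ℝ) : Fin (m+1) → ℝ := fun k => x k - (∑ j, ell j * x j) * u k

theorem stp_ker {u : Fin (m+1) → ℝ} (hu : ∑ i, ell i * u i = 1) (x : Fin (m+1) → ℝ) :
    ∑ j, ell j * stp ell u x j = 0 := by
  unfold stp
  have h1 : ∀ k, ell k * (x k - (∑ j, ell j * x j) * u k) =
      ell k * x k - (∑ j, ell j * x j) * (ell k * u k) := fun k => by ring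
  rw [Finset.sum_congr rfl fun k _ => h1 k, Finset.sum_sub_distrib, ← Finset.mul_sum, hu, mul_one,
    sub_self]

theorem stp_act (E : Eg r w κ M ell lam) {u : Fin (m+1) → ℝ}
    (hMu : act M u = fun i => lam * u i) (x : Fin (m+1) → ℝ) :
    stp ell u (act M x) = act M (stp ell u x) := by
  funext k
  unfold stp
  rw [E.dual]
  have h1 : act M (fun k => x k - (∑ j, ell j * x j) * u k) k =
      act M x k - (∑ j, ell j * x j) * act M u k := by
    unfold act
    rw [Finset.mul_sum, ← Finset.sum_sub_distrib]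
    exact Finset.sum_congr rfl fun j _ => by ring
  rw [h1, hMu]
  ring

theorem act_stp_pow (E : Eg r w κ M ell lam) {u : Fin (m+1) → ℝ}
    (hMu : act M u = fun i => lam * u i) (x : Fin (m+1) → ℝ) (n : ℕ) (k : Fin (m+1)) :
    act (M ^ n) x k = lam ^ n * (∑ j, ell j * x j) * u k + act (M ^ n) (stp ell u x) k := by
  have h1 : ∀ n : ℕ, act (M ^ n) u = fun i => lam ^ n * u i := by
    intro n
    induction n with
    | zero => rw [pow_zero, pow_zero, FOff_act_one]; funext i; ring
    | succ n ih =>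
      rw [pow_succ', FOff_act_mul, ih, act_smul', hMu]
      funext i
      ring
  have h2 : act (M ^ n) (stp ell u x) k =
      act (M ^ n) x k - (∑ j, ell j * x j) * act (M ^ n) u k := by
    unfold stp act
    rw [Finset.mul_sum, ← Finset.sum_sub_distrib]
    exact Finset.sum_congr rfl fun j _ => by ring
  rw [h2, h1]
  ring

/-- the right eigenvector is rationally independent -/
theorem Eg.u_ind (E : Eg r w κ M ell lam) (hrw : Wts r w) (hκ : 0 ≤ κ) (hκ1 : κ < 1)
    (hdet : M.det ≠ 0) {u : Fin (m+1) → ℝ} (hu : ∑ i, ell i * u i = 1)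
    (hMu : act M u = fun i => lam * u i) (v : Fin (m+1) → ℤ)
    (hv : ∑ i, (v i : ℝ) * u i = 0) : v = 0 := by
  obtain ⟨V, hV⟩ : ∃ V : ℝ, V = ∑ i, |(v i : ℝ)| := ⟨_, rfl⟩
  have hV0 : 0 ≤ V := by rw [hV]; exact Finset.sum_nonneg fun i _ => abs_nonneg _
  obtain ⟨ε, hε, hεV⟩ : ∃ ε : ℝ, 0 < ε ∧ V * ε ≤ 1 / 2 := by
    refine ⟨1 / (2 * (V + 1)), by positivity, ?_⟩
    rw [mul_one_div, div_le_div_iff₀ (by positivity) (by norm_num)]
    nlinarith
  have hev : ∀ᶠ n : ℕ in Filter.atTop, ∀ j, ∀ k, |act (M ^ n) (stp ell u (rv (ev j))) k| ≤ ε := by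
    rw [Filter.eventually_all]
    intro j
    exact E.small hrw hκ hκ1 _ (stp_ker hu _) ε hε
  obtain ⟨n, hn⟩ := hev.exists
  have h1 : Matrix.vecMul v (M ^ n) = 0 := by
    funext j
    refine int_small _ ?_
    have h2 : ((Matrix.vecMul v (M ^ n) j : ℤ) : ℝ) =
        ∑ i, (v i : ℝ) * act (M ^ n) (rv (ev j)) i := by
      simp only [Matrix.vecMul, dotProduct]
      push_cast
      refine Finset.sum_congr rfl fun i _ => ?_
      congr 1
      simp [act, rv, ev]
    rw [h2]
    have h3 : ∑ i, (v i : ℝ) * act (M ^ n) (rv (ev j)) i =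
        ∑ i, (v i : ℝ) * act (M ^ n) (stp ell u (rv (ev j))) i := by
      have h4 : ∀ i, (v i : ℝ) * act (M ^ n) (rv (ev j)) i =
          (lam ^ n * (∑ k, ell k * rv (ev j) k)) * ((v i : ℝ) * u i) +
            (v i : ℝ) * act (M ^ n) (stp ell u (rv (ev j))) i := by
        intro i
        rw [act_stp_pow E hMu]
        ring
      rw [Finset.sum_congr rfl fun i _ => h4 i, Finset.sum_add_distrib, ← Finset.mul_sum, hv,
        mul_zero, zero_add]
    rw [h3]
    calc |∑ i, (v i : ℝ) * act (M ^ n) (stp ell u (rv (ev j))) i|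
        ≤ ∑ i, |(v i : ℝ) * act (M ^ n) (stp ell u (rv (ev j))) i| :=
          Finset.abs_sum_le_sum_abs _ _
      _ ≤ ∑ i, |(v i : ℝ)| * ε := by
          refine Finset.sum_le_sum fun i _ => ?_
          rw [abs_mul]
          exact mul_le_mul_of_nonneg_left (hn j i) (abs_nonneg _)
      _ = V * ε := by rw [hV, Finset.sum_mul]
      _ ≤ 1 / 2 := hεV
  refine Matrix.eq_zero_of_vecMul_eq_zero (M := M ^ n) ?_ h1
  rw [Matrix.det_pow]
  exact pow_ne_zero _ hdet

theorem Eg.u_pos (E : Eg r w κ M ell lam) (hm : 1 ≤ m) (hrw : Wts r w) (hκ : 0 ≤ κ) (hκ1 : κ < 1)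
    (hdet : M.det ≠ 0) (hnn : ∀ i j, 0 ≤ M i j) {u : Fin (m+1) → ℝ} (hu : ∑ i, ell i * u i = 1)
    (hMu : act M u = fun i => lam * u i) (k : Fin (m+1)) : 0 < u k := by
  have hlam := E.lam_gt hm hrw hκ hκ1 hdet
  have hpn : ∀ n : ℕ, ∀ i j, 0 ≤ (M ^ n) i j := by
    intro n
    induction n with
    | zero => intro i j; rw [pow_zero, Matrix.one_apply]; split_ifs <;> norm_num
    | succ n ih =>
      intro i j
      rw [pow_succ, Matrix.mul_apply]
      exact Finset.sum_nonneg fun k _ => mul_nonneg (ih i k) (hnn k j)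
  have h0 : 0 ≤ u k := by
    by_contra hcon
    push Not at hcon
    obtain ⟨n, hn⟩ := (E.small hrw hκ hκ1 (stp ell u (rv (ev 0))) (stp_ker hu _) (-(u k) / 2)
      (by linarith)).exists
    have h1 := act_stp_pow E hMu (rv (ev 0)) n k
    have h2 : ∑ j, ell j * rv (ev (0 : Fin (m+1))) j = 1 := by
      simp [rv, ev, E.one]
    rw [h2, mul_one] at h1
    have h3 : 0 ≤ act (M ^ n) (rv (ev 0)) k := by
      unfold act
      refine Finset.sum_nonneg fun j _ => mul_nonneg (by exact_mod_cast hpn n k j) ?_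
      unfold rv ev
      split_ifs <;> norm_num
    have h4 := (abs_le.1 (hn k)).2
    have h5 : (1:ℝ) ≤ lam ^ n := one_le_pow₀ hlam.le
    nlinarith
  rcases h0.lt_or_eq with h | h
  · exact h
  · exfalso
    have h2 := E.u_ind hrw hκ hκ1 hdet hu hMu (ev k) (by
      have : ∀ i, ((ev k i : ℤ) : ℝ) * u i = if i = k then u i else 0 := by
        intro i
        unfold ev
        by_cases hi : i = k
        · rw [if_pos hi, if_pos hi]; simp
        · rw [if_neg hi, if_neg hi]; simp
      rw [Finset.sum_congr rfl fun i _ => this i]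
      simp [← h])
    have h3 := congrFun h2 k
    simp [ev] at h3

end eg

end Pool.Agent.Q132.PT
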